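import Pool.Agent.FIS.LevyM
import Pool.Agent.VF.SharpZ
import Pool.Agent.VF.MeanZ
import Pool.Agent.VF.XiMain

/-!
FIS: the lower side of the modulus of continuity, no hypothesis.
-/

set_option autoImplicit false

namespace HexObs

namespace FIS

/-- **the lower side of the modulus, every n, no hypothesis** -/
theorem levyX_M : NTW.LevyX (fun k => PW.mZ (2 ^ k)) :=
  levyX_G (VF.mLow VF.sharpZ) _root_.VF.meanLen_M

end FIS

end HexObs


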