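import Pool.Agent.FIS.ModSum
import Pool.Agent.NTS.YDefs

/-!
FIS, the exact modulus of continuity at every number of letters, with a fixed constant at the small scales.
-/

set_option autoImplicit false

namespace HexObs

namespace FIS

open Finset TS SDN NTW NTA EN

open scoped ENNReal

namespace MSum

/-- the sum over the small scales: V0 and A do not depend on J and e -/
lemma num_sumY (C T : ℝ) (hC : 1 ≤ C) (hT : 1 ≤ T) (N0 : ℕ) : ∃ (V0 : ℕ) (A : ℝ), 1 ≤ V0 ∧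
    1 ≤ A ∧ ∀ (J : ℕ) (e : ℝ), 0 < e → ∃ r0 : ℕ, ∀ r i : ℕ, r0 ≤ r → A * (1 + r) ≤ 16 ^ i →
    C ^ (J + r + 3 * i) * (T ^ (N0 * 16 ^ i) / 2 ^ (V0 * 16 ^ i)) ≤ e / 2 ^ (r + 1) := by
  obtain ⟨b, hb⟩ : ∃ b : ℕ, C < 2 ^ b := pow_unbounded_of_one_lt C one_lt_two
  obtain ⟨τ, hτ⟩ : ∃ b : ℕ, T < 2 ^ b := pow_unbounded_of_one_lt T one_lt_two
  refine ⟨τ * N0 + 3 * b + 1, ((b + 2 : ℕ) : ℝ), by omega, by exact_mod_cast (by omega), fun J e he => ?_⟩
  obtain ⟨q, hq⟩ : ∃ b : ℕ, 1 / e < 2 ^ b := pow_unbounded_of_one_lt (1 / e) one_lt_two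
  refine ⟨b * J + q, fun r i hr0 h => ?_⟩
  have hN : (b + 2) * (1 + r) ≤ 16 ^ i := by exact_mod_cast h
  have hi : i ≤ 16 ^ i := (Nat.lt_pow_self (by norm_num)).le
  have hexp : b * (J + r + 3 * i) + τ * (N0 * 16 ^ i) + (r + 1) + q ≤ (τ * N0 + 3 * b + 1) * 16 ^ i := by
    have h1 : 3 * b * i ≤ 3 * b * 16 ^ i := Nat.mul_le_mul_left _ hi
    have h2 : b * (J + r + 3 * i) + (r + 1) + q ≤ (b + 2) * (1 + r) + 3 * b * i := by
      have h3 : (b + 2) * (1 + r) = b * r + b + 2 + 2 * r := by ring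
      rw [h3]
      have h4 : b * (J + r + 3 * i) = b * J + b * r + 3 * b * i := by ring
      rw [h4]
      omega
    have h3 : (τ * N0 + 3 * b + 1) * 16 ^ i = τ * (N0 * 16 ^ i) + 3 * b * 16 ^ i + 16 ^ i := by ring
    omega
  have h1 : C ^ (J + r + 3 * i) ≤ 2 ^ (b * (J + r + 3 * i)) := by
    refine (pow_le_pow_left₀ (by linarith) hb.le _).trans (le_of_eq ?_)
    rw [← pow_mul]
  have h2 : T ^ (N0 * 16 ^ i) ≤ 2 ^ (τ * (N0 * 16 ^ i)) := by
    refine (pow_le_pow_left₀ (by linarith) hτ.le _).trans (le_of_eq ?_)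
    rw [← pow_mul]
  have h3 : 1 ≤ e * 2 ^ q := by
    rw [div_lt_iff₀ he] at hq
    linarith
  rw [← mul_div_assoc, div_le_div_iff₀ (by positivity) (by positivity)]
  calc C ^ (J + r + 3 * i) * T ^ (N0 * 16 ^ i) * 2 ^ (r + 1) ≤
      2 ^ (b * (J + r + 3 * i)) * 2 ^ (τ * (N0 * 16 ^ i)) * 2 ^ (r + 1) := by gcongr
    _ ≤ 2 ^ (b * (J + r + 3 * i)) * 2 ^ (τ * (N0 * 16 ^ i)) * 2 ^ (r + 1) * (e * 2 ^ q) :=
        le_mul_of_one_le_right (by positivity) h3
    _ = e * 2 ^ (b * (J + r + 3 * i) + τ * (N0 * 16 ^ i) + (r + 1) + q) := by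
        rw [pow_add, pow_add, pow_add]
        ring
    _ ≤ _ := by
        refine mul_le_mul_of_nonneg_left ?_ he.le
        exact pow_le_pow_right₀ (by norm_num) hexp

end MSum

open MSum in
/-- **the modulus of continuity with a fixed constant at the small scales, every number of letters** -/
theorem modSumY {m : ℕ → ℝ} (hm : ∀ k, 0 < m k) (hmono : Monotone m)
    (hlo : ∃ c : ℝ, 0 < c ∧ ∀ k : ℕ, c * (2 : ℝ) ^ (4 / 3 * (k : ℝ)) ≤ m k)
    (hup : ∃ C : ℝ, ∀ k : ℕ, m k ≤ C * (2 : ℝ) ^ (4 / 3 * (k : ℝ)))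
    (hE : EN.ESPw m) (hF : SIM.FewX m) (hD : ModD m) : ModuY m := by
  classical
  obtain ⟨Y, hY, hconv⟩ := SIM.SB.conv hm hmono
  obtain ⟨Ao, i0, k1, hAo, hout⟩ := EN.tail_out hE 1
  obtain ⟨C, T, kD, M0, s, hC, hT, hmod⟩ := hD
  have hY0 : 0 < Y := by linarith
  obtain ⟨cl, hcl, hlo⟩ := hlo
  obtain ⟨C0, hup⟩ := hup
  obtain ⟨Cu, hCu⟩ : ∃ Cu, Cu = max C0 1 := ⟨_, rfl⟩
  have hCu1 : 1 ≤ Cu := by rw [hCu]; exact le_max_right _ _
  have hup' : ∀ k : ℕ, m k ≤ Cu * (2 : ℝ) ^ (4 / 3 * (k : ℝ)) := by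
    intro k
    refine (hup k).trans (mul_le_mul_of_nonneg_right ?_ (by positivity))
    rw [hCu]
    exact le_max_left _ _
  obtain ⟨N0, hN0⟩ : ∃ N0 : ℕ, Cu / cl * 4 ≤ N0 := exists_nat_ge _
  obtain ⟨V0, A, hV0, hA1, hnum⟩ := num_sumY C T hC hT N0
  have hA16 : (16 : ℝ) ^ 0 ≤ A := by rw [pow_zero]; exact hA1
  choose I hI1 hI2 hI3 using fun r : ℕ => pick16 hA16 r
  obtain ⟨c4, hc4⟩ : ∃ c4 : ℝ, c4 = min cl 1 / (4 * Cu) := ⟨_, rfl⟩
  have hc40 : 0 < c4 := by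
    rw [hc4]
    have := lt_min hcl one_pos
    positivity
  have hc41 : c4 ≤ 1 := by
    rw [hc4, div_le_one (by positivity)]
    have := min_le_right cl 1
    linarith
  obtain ⟨G, hG⟩ : ∃ G : ℝ, G = 4 * A / c4 := ⟨_, rfl⟩
  have hG0 : 0 < G := by
    rw [hG]
    positivity
  have hkey : ∀ (r : ℕ) (h : ℝ), c4 * (2 : ℝ) ^ (-(4 / 3 * (r : ℝ))) ≤ h → h ≤ 1 → (2 : ℝ) ^ I r ≤ G * (2 ^ r * psi h) := by
    intro r h h1 h2
    rw [hG]
    exact key_num hc40 hc41 hA1 h1 h2 (hI3 r)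
  obtain ⟨M, hM⟩ : ∃ M : ℝ, M = 2 * (2 ^ s * V0) * G + Cu * 2 ^ (kD + 3) * G + 1 := ⟨_, rfl⟩
  have hV0r : (1 : ℝ) ≤ V0 := by exact_mod_cast hV0
  have hM0 : 0 < M := by
    rw [hM]
    positivity
  refine ⟨M, hM0, fun e he => ?_⟩
  obtain ⟨J, hJ0, hJ⟩ : ∃ J, i0 ≤ J ∧ Ao / 2 ^ (1 * J) ≤ e / 2 := by
    obtain ⟨j, hj⟩ := pow_unbounded_of_one_lt (Ao / (e / 2)) (show (1 : ℝ) < 2 by norm_num)
    refine ⟨i0 + j, by omega, ?_⟩
    rw [div_lt_iff₀ (by positivity)] at hj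
    rw [div_le_iff₀ (by positivity), one_mul, pow_add]
    have h1 : (1 : ℝ) ≤ 2 ^ i0 := one_le_pow₀ (by norm_num)
    have h2 : (0 : ℝ) < 2 ^ j := by positivity
    calc Ao ≤ 2 ^ j * (e / 2) := hj.le
      _ = e / 2 * (1 * 2 ^ j) := by ring
      _ ≤ e / 2 * (2 ^ i0 * 2 ^ j) := by gcongr
  obtain ⟨e1, he1⟩ : ∃ e1 : ℝ, e1 = e / 4 / Y ^ J := ⟨_, rfl⟩
  have he10 : 0 < e1 := by
    rw [he1]
    positivity
  obtain ⟨J', k2, hfew⟩ := hF M0 J 1 e1 one_pos he10
  obtain ⟨e2, he2⟩ : ∃ e2 : ℝ, e2 = e / 4 / (3 * Y ^ J) := ⟨_, rfl⟩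
  have he20 : 0 < e2 := by
    rw [he2]
    positivity
  obtain ⟨r1, hr1⟩ := hnum J e2 he20
  obtain ⟨r0, hr0⟩ : ∃ r0, r0 = r1 + J' + 5 := ⟨_, rfl⟩
  obtain ⟨h0, hh0⟩ : ∃ h0 : ℝ, h0 = c4 * (2 : ℝ) ^ (-(4 / 3 * (r0 : ℝ))) / 2 := ⟨_, rfl⟩
  have hh00 : 0 < h0 := by
    rw [hh0]
    positivity
  refine ⟨h0, k1 + k2, hh00, fun k n hk h1 h2 => ?_⟩
  have hn0 : (0 : ℝ) < n := (hm k).trans_le h1
  -- the sets
  obtain ⟨F, hFd⟩ : ∃ F : Set (List Bool), F = {t | (t.length = n ∧ t ∈ WL (k + J)) ∧ ∃ i : ℕ, (1 : ℝ) * n ≤ i ∧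
    i ≤ t.length ∧ ∃ p q : Fin 3, p ≠ q ∧ ∀ d, d = p ∨ d = q →
      ¬ EN.Alt (fun a => EN.lv3 d (vx oo up t a)) i M0 (RR (k - J'))} := ⟨_, rfl⟩
  obtain ⟨E, hEd⟩ : ∃ E : ℕ → Fin 3 → Set (List Bool), E = fun r d => {t | (r0 ≤ r ∧ r + 3 * I r + kD ≤ k) ∧
    ((t.length = n ∧ t ∈ WL (k - (r + 3 * I r) + (J + r + 3 * I r))) ∧
      Alt (fun a => lv3 d (vx oo up t a)) t.length M0 (RR (k - (r + 3 * I r) + 5)) ∧
      ∃ i j : ℕ, i ≤ j ∧ j ≤ t.length ∧ (j : ℝ) - i ≤ ((N0 * 16 ^ I r : ℕ) : ℝ) * m (k - (r + 3 * I r)) ∧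
      (2 : ℤ) ^ s * (((V0 * 16 ^ I r : ℕ) : ℤ) * 2 ^ (k - (r + 3 * I r))) ≤
        |lv3 d (vx oo up t j) - lv3 d (vx oo up t i)|)} := ⟨_, rfl⟩
  -- the bound of E
  have hEb : ∀ (r : ℕ) (d : Fin 3), gf (E r d) ≤
      ENNReal.ofReal (e2 / 2 ^ (r + 1) * (Ub (k + J) / m (k + J))) * Xb (k + J) ^ 2 := by
    intro r d
    have hIr := hI1 r
    by_cases hrk : r0 ≤ r ∧ r + 3 * I r + kD ≤ k
    · obtain ⟨hr, hrk⟩ := hrk
      have e0 : k - (r + 3 * I r) + (J + r + 3 * I r) = k + J := by omega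
      have g1 := hmod d (k - (r + 3 * I r)) (J + r + 3 * I r) n (N0 * 16 ^ I r) (V0 * 16 ^ I r) (by omega) (by omega)
        (Nat.one_le_iff_ne_zero.2 (by positivity))
      refine (gf_mono ?_).trans (g1.trans ?_)
      · rw [hEd]
        rintro t ⟨-, ht⟩
        exact ht
      · rw [e0]
        refine mul_le_mul_left (ENNReal.ofReal_le_ofReal ?_) _
        have hq : 0 ≤ Ub (k + J) / m (k + J) := by
          have := hm (k + J)
          have := Ub_pos (k + J)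
          positivity
        exact mul_le_mul_of_nonneg_right (hr1 r (I r) (by omega) (hI2 r)) hq
    · have e0 : E r d = ∅ := by
        refine Set.eq_empty_of_forall_notMem ?_
        rw [hEd]
        rintro t ⟨h, -⟩
        exact hrk h
      rw [e0, show gf (∅ : Set (List Bool)) = 0 from tsum_empty]
      exact zero_le
  -- the cover
  have hsub : {t | t ∈ SawN n ∧ ∃ (dir : Bool) (i j : ℕ), i < j ∧ j ≤ n ∧ ((j : ℝ) - i) / n ≤ h0 ∧
      M * 2 ^ k * psi (((j : ℝ) - i) / n) ≤ |((lvl dir (vx oo up t j) - lvl dir (vx oo up t i) : ℤ) : ℝ)|} ⊆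
      {t | t ∈ SA ∧ t.length = n ∧ t ∉ WL (k + J)} ∪ (F ∪ ⋃ r ∈ range (k + 1), ⋃ d ∈ (Finset.univ : Finset (Fin 3)), E r d) := by
    rintro t ⟨⟨ht1, ht2⟩, dir, i, j, hij, hj, hsm, hdis⟩
    by_cases hW : t ∈ WL (k + J)
    · right
      by_cases hFt : t ∈ F
      · exact Or.inl hFt
      right
      have hal : ∀ p q : Fin 3, p ≠ q → EN.Alt (fun a => EN.lv3 p (vx oo up t a)) t.length M0 (RR (k - J')) ∨
          EN.Alt (fun a => EN.lv3 q (vx oo up t a)) t.length M0 (RR (k - J')) := by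
        intro p q hpq
        by_contra hc
        push Not at hc
        apply hFt
        rw [hFd]
        refine ⟨⟨ht1, hW⟩, t.length, by rw [ht1, one_mul], le_rfl, p, q, hpq, ?_⟩
        rintro d (rfl | rfl)
        · exact hc.1
        · exact hc.2
      -- the piece
      obtain ⟨x, hx⟩ : ∃ x, x = j - i := ⟨_, rfl⟩
      have hxr : (x : ℝ) = (j : ℝ) - i := by
        rw [hx, Nat.cast_sub hij.le]
      obtain ⟨r, hrk, hxm, hxn⟩ := scale_pick hmono hcl hCu1 hlo hup' (k := k) (n := n) (x := x) (by omega) (by omega) h2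
      rw [← hc4] at hxn
      rw [← hxr] at hdis hsm
      have hrr : r0 ≤ r := by
        by_contra hcon
        rw [not_le] at hcon
        have h3 : c4 * (2 : ℝ) ^ (-(4 / 3 * (r0 : ℝ))) ≤ c4 * (2 : ℝ) ^ (-(4 / 3 * (r : ℝ))) := by
          refine mul_le_mul_of_nonneg_left (Real.rpow_le_rpow_of_exponent_le (by norm_num) ?_) hc40.le
          have : (r : ℝ) ≤ r0 := by exact_mod_cast hcon.le
          linarith
        rw [hh0] at hsm hh00
        linarith
      have hx1 : (x : ℝ) / n ≤ 1 := by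
        rw [div_le_one hn0]
        exact_mod_cast (by omega : x ≤ n)
      have hk2 := hkey r _ hxn hx1
      obtain ⟨P, hP⟩ : ∃ P : ℝ, P = 2 ^ k * psi ((x : ℝ) / n) := ⟨_, rfl⟩
      have hkr : (2 : ℝ) ^ k = 2 ^ r * 2 ^ (k - r) := by
        rw [← pow_add]
        congr 1
        omega
      have hP1 : (2 : ℝ) ^ I r * 2 ^ (k - r) ≤ G * P := by
        rw [hP, hkr]
        have h3 : (0 : ℝ) < 2 ^ (k - r) := by positivity
        calc (2 : ℝ) ^ I r * 2 ^ (k - r) ≤ G * (2 ^ r * psi ((x : ℝ) / n)) * 2 ^ (k - r) := by gcongr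
          _ = _ := by ring
      have hP0 : 0 < P := by
        have h3 : (0 : ℝ) < 2 ^ I r * 2 ^ (k - r) := by positivity
        have h4 := h3.trans_le hP1
        exact pos_of_mul_pos_right h4 hG0.le
      have hdis' : M * P ≤ |((lvl dir (vx oo up t j) - lvl dir (vx oo up t i) : ℤ) : ℝ)| := by
        rw [hP, ← mul_assoc]
        exact hdis
      -- the borderline
      have hbor : r + 3 * I r + kD ≤ k := by
        by_contra hcon
        rw [not_le] at hcon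
        have h3 : |((lvl dir (vx oo up t j) - lvl dir (vx oo up t i) : ℤ) : ℝ)| ≤ 2 * x := by
          have h4 := lvl_lip dir t i x
          rw [show i + x = j by omega] at h4
          exact_mod_cast h4
        have h4 : (x : ℝ) ≤ Cu * (2 ^ (k - r) * (2 ^ I r * 2 ^ (kD + 2))) := by
          refine hxm.le.trans ((hup' _).trans (mul_le_mul_of_nonneg_left ?_ (by linarith)))
          rw [← pow_add, ← pow_add, ← Real.rpow_natCast]
          refine Real.rpow_le_rpow_of_exponent_le (by norm_num) ?_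
          have h5 : ((k - r : ℕ) : ℝ) < 3 * I r + kD := by
            have : k - r < 3 * I r + kD := by omega
            exact_mod_cast this
          have h6 : (0 : ℝ) ≤ kD := Nat.cast_nonneg _
          push_cast
          linarith
        have h5 : 2 * (x : ℝ) ≤ Cu * 2 ^ (kD + 3) * (G * P) := by
          calc 2 * (x : ℝ) ≤ 2 * (Cu * (2 ^ (k - r) * (2 ^ I r * 2 ^ (kD + 2)))) := by linarith
            _ = Cu * 2 ^ (kD + 3) * (2 ^ I r * 2 ^ (k - r)) := by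
                rw [pow_succ _ (kD + 2)]
                ring
            _ ≤ _ := mul_le_mul_of_nonneg_left hP1 (by positivity)
        have h6 : M * P ≤ Cu * 2 ^ (kD + 3) * (G * P) := hdis'.trans (h3.trans h5)
        rw [hM] at h6
        have h7 : 0 < 2 * (2 ^ s * (V0 : ℝ)) * G * P := by positivity
        nlinarith
      -- the common direction
      have hdd : ∀ p q : Fin 3, p ≠ q → M * P / 2 ≤ |((EN.lv3 p (vx oo up t j) - EN.lv3 p (vx oo up t i) : ℤ) : ℝ)| ∨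
          M * P / 2 ≤ |((EN.lv3 q (vx oo up t j) - EN.lv3 q (vx oo up t i) : ℤ) : ℝ)| := fun p q hpq =>
        SIM.SB.disp3 (x := M * P / 2) ⟨dir, by rw [mul_div_cancel₀ _ (two_ne_zero' ℝ)]; exact hdis'⟩ hpq
      obtain ⟨d, hd1, hd2⟩ := common hal hdd
      refine Set.mem_biUnion (show r ∈ (range (k + 1) : Set ℕ) from by
        rw [Finset.mem_coe, Finset.mem_range]
        omega) (Set.mem_biUnion (show d ∈ ((Finset.univ : Finset (Fin 3)) : Set (Fin 3)) from by simp) ?_)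
      have hIr := hI1 r
      rw [hEd]
      refine ⟨⟨hrr, hbor⟩, ⟨ht1, ?_⟩, ?_, i, j, hij.le, by omega, ?_, ?_⟩
      · rwa [show k - (r + 3 * I r) + (J + r + 3 * I r) = k + J by omega]
      · refine EN.alt_mono hd1 le_rfl le_rfl ?_
        unfold RR
        have : (2 : ℤ) ^ (k - (r + 3 * I r) + 5) ≤ 2 ^ (k - J') := pow_le_pow_right₀ (by norm_num) (by omega)
        linarith
      · rw [← hxr]
        have h3 : (0 : ℝ) < (2 : ℝ) ^ (4 / 3 * ((k - (r + 3 * I r) : ℕ) : ℝ)) := Real.rpow_pos_of_pos two_pos _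
        have h4 : (2 : ℝ) ^ (4 / 3 * ((k - r + 1 : ℕ) : ℝ)) ≤
            4 * 16 ^ I r * (2 : ℝ) ^ (4 / 3 * ((k - (r + 3 * I r) : ℕ) : ℝ)) := by
          have e1 : (4 : ℝ) * 16 ^ I r = (2 : ℝ) ^ (2 + 4 * (I r : ℝ)) := by
            rw [Real.rpow_add two_pos, Real.rpow_mul (by norm_num), Real.rpow_natCast]
            norm_num
          rw [e1, ← Real.rpow_add two_pos]
          refine Real.rpow_le_rpow_of_exponent_le (by norm_num) ?_
          have e2 : ((k - (r + 3 * I r) : ℕ) : ℝ) = (k : ℝ) - r - 3 * I r := by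
            rw [Nat.cast_sub (by omega)]
            push_cast
            ring
          have e3 : ((k - r + 1 : ℕ) : ℝ) = (k : ℝ) - r + 1 := by
            rw [Nat.cast_add, Nat.cast_sub hrk]
            push_cast
            ring
          rw [e2, e3]
          linarith
        have h5 := hlo (k - (r + 3 * I r))
        calc (x : ℝ) ≤ Cu * (2 : ℝ) ^ (4 / 3 * ((k - r + 1 : ℕ) : ℝ)) := hxm.le.trans (hup' _)
          _ ≤ Cu * (4 * 16 ^ I r * (2 : ℝ) ^ (4 / 3 * ((k - (r + 3 * I r) : ℕ) : ℝ))) := by gcongr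
          _ = Cu / cl * 4 * 16 ^ I r * (cl * (2 : ℝ) ^ (4 / 3 * ((k - (r + 3 * I r) : ℕ) : ℝ))) := by
              field_simp
          _ ≤ N0 * 16 ^ I r * m (k - (r + 3 * I r)) := by gcongr
          _ = _ := by push_cast; ring
      · have h3 : (2 : ℝ) ^ s * (((V0 * 16 ^ I r : ℕ) : ℝ) * 2 ^ (k - (r + 3 * I r))) ≤
            |((EN.lv3 d (vx oo up t j) - EN.lv3 d (vx oo up t i) : ℤ) : ℝ)| := by
          refine le_trans ?_ hd2
          have h4 : (16 : ℝ) ^ I r * 2 ^ (k - (r + 3 * I r)) = 2 ^ I r * 2 ^ (k - r) := by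
            rw [show (16 : ℝ) = 2 ^ 4 by norm_num, ← pow_mul, ← pow_add, ← pow_add]
            congr 1
            omega
          have h5 : 0 < Cu * 2 ^ (kD + 3) * G * P := by positivity
          calc (2 : ℝ) ^ s * (((V0 * 16 ^ I r : ℕ) : ℝ) * 2 ^ (k - (r + 3 * I r))) =
                2 ^ s * V0 * (16 ^ I r * 2 ^ (k - (r + 3 * I r))) := by push_cast; ring
            _ = 2 ^ s * V0 * (2 ^ I r * 2 ^ (k - r)) := by rw [h4]
            _ ≤ 2 ^ s * V0 * (G * P) := mul_le_mul_of_nonneg_left hP1 (by positivity)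
            _ ≤ M * P / 2 := by
                rw [hM]
                nlinarith
        exact_mod_cast h3
    · exact Or.inl ⟨ht2, ht1, hW⟩
  have g1 : gf {t | t ∈ SA ∧ t.length = n ∧ t ∉ WL (k + J)} ≤ ENNReal.ofReal (e / 2) * nuX m k :=
    (hout k J n (by omega) hJ0 h1 h2).trans (mul_le_mul_left (ENNReal.ofReal_le_ofReal hJ) _)
  have g2 : gf F ≤ ENNReal.ofReal (e / 4) * nuX m k := by
    rw [hFd]
    refine (hfew k n (by omega) h1).trans ((hconv k J e1 he10.le).trans (le_of_eq ?_))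
    congr 2
    rw [he1]
    field_simp
  have hq : 0 ≤ Ub (k + J) / m (k + J) := by
    have := hm (k + J)
    have := Ub_pos (k + J)
    positivity
  have g3 : gf (⋃ r ∈ range (k + 1), ⋃ d ∈ (Finset.univ : Finset (Fin 3)), E r d) ≤ ENNReal.ofReal (e / 4) * nuX m k := by
    calc gf (⋃ r ∈ range (k + 1), ⋃ d ∈ (Finset.univ : Finset (Fin 3)), E r d) ≤
        ∑ r ∈ range (k + 1), ∑ d ∈ (Finset.univ : Finset (Fin 3)), gf (E r d) :=
          (gf_fin _ _).trans (Finset.sum_le_sum fun r _ => gf_fin _ _)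
      _ ≤ ∑ r ∈ range (k + 1), ENNReal.ofReal (3 * e2 / 2 ^ (r + 1) * (Ub (k + J) / m (k + J))) * Xb (k + J) ^ 2 := by
          refine Finset.sum_le_sum fun r _ => (Finset.sum_le_sum fun d _ => hEb r d).trans (le_of_eq ?_)
          rw [Finset.sum_const, Finset.card_univ, Fintype.card_fin, nsmul_eq_mul, ← mul_assoc]
          congr 1
          rw [show ((3 : ℕ) : ℝ≥0∞) = ENNReal.ofReal 3 by norm_num, ← ENNReal.ofReal_mul (by norm_num)]
          congr 1
          ring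
      _ ≤ ENNReal.ofReal (3 * e2 * (Ub (k + J) / m (k + J))) * Xb (k + J) ^ 2 := sum_scales hq (by positivity) _ _
      _ ≤ _ := by
          refine (hconv k J (3 * e2) (by positivity)).trans (le_of_eq ?_)
          congr 2
          rw [he2]
          field_simp
  refine (gf_mono hsub).trans ((gf_union_le _ _).trans ?_)
  calc _ ≤ ENNReal.ofReal (e / 2) * nuX m k + (ENNReal.ofReal (e / 4) * nuX m k + ENNReal.ofReal (e / 4) * nuX m k) :=
        add_le_add g1 ((gf_union_le _ _).trans (add_le_add g2 g3))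
    _ = _ := by
        rw [← add_mul, ← add_mul, ← ENNReal.ofReal_add (by positivity) (by positivity),
          ← ENNReal.ofReal_add (by positivity) (by positivity)]
        congr 2
        ring

end FIS

end HexObs
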