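import Pool.Agent.EN.EspB

/-!
FIS (the tail exponent 4): few leaves in two directions at a free depth 4 q + 5 below the scale of the walk.
-/

set_option autoImplicit false

namespace HexObs

namespace FIS

open Finset TS SDN NTW NTA EN

open scoped ENNReal

/-- **the words with few leaves in two directions, at the depth 4 q + 5** -/
theorem few_q {m : ℕ → ℝ} (hm : MLow m) (hX : ExtX m) {J : ℕ} (hJ : 1 ≤ J) : ∃ (j1 : ℕ) (A : ℝ), 1 ≤ A ∧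
    ∀ (p q' : Fin 3), p ≠ q' → ∀ k i q n : ℕ, 2 * i + 2 * j1 ≤ q → 4 * q + 5 ≤ k → m k ≤ n →
    gf {t | t.length = n ∧ t ∈ WL (k + i) ∧ ∀ d, d = p ∨ d = q' →
      ¬ HR d (k - (4 * q + 5)) (RJ (k - (4 * q + 5)) (2 ^ (k + i + 3)) J) t} ≤
      ENNReal.ofReal (A * (1 / 2) ^ q * (Ub k / m k)) * Xb k ^ 2 := by
  obtain ⟨C, hC, hQ⟩ := hX
  obtain ⟨D, hD, hDX⟩ := Xb_pow
  have hm0 := hm.pos 0
  obtain ⟨c, hc⟩ : ∃ c : ℝ, c = 2 * ((J : ℝ) + 11) / m 0 + ((J : ℝ) + 6) ^ 2 * (1 + 1 / m 0) := ⟨_, rfl⟩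
  have hc0 : 0 < c := by
    rw [hc]
    positivity
  obtain ⟨j, hj⟩ := two_pow_ge (c * 2 ^ 8)
  obtain ⟨j1, hj1⟩ : ∃ j1, j1 = j + 1 := ⟨_, rfl⟩
  have hjc : c * 2 ^ 8 < 2 ^ j1 := hj.trans_le (pow_le_pow_right₀ (by norm_num) (by omega))
  obtain ⟨q1, hq1⟩ := two_pow_ge (2 * C ^ 5 * D ^ 2 * 2)
  have hC0 : 0 < C := by linarith
  have hD0 : 0 < D := by linarith
  obtain ⟨A, hA, hext⟩ := hQ (2 * q1)
  refine ⟨j1, A, hA, fun p q' hpq k i q n hqi hk hn => ?_⟩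
  obtain ⟨s, hs⟩ : ∃ s, s = k - (4 * q + 5) := ⟨_, rfl⟩
  obtain ⟨l, hl⟩ : ∃ l, l = s + 5 := ⟨_, rfl⟩
  obtain ⟨μ, hμ⟩ : ∃ μ, μ = 4 * q + i + 3 := ⟨_, rfl⟩
  obtain ⟨r, hr⟩ : ∃ r, r = q - (i + j1) := ⟨_, rfl⟩
  have hr2 : q ≤ 2 * r := by omega
  rw [← hs]
  have hml := hm.pos l
  have hmk := hm.pos k
  have hA0 : 0 < A := by linarith
  have hU := Ub_pos k
  have hU2 := Ub_pos (k + i)
  have h2r : (1 : ℝ) ≤ 2 ^ r := one_le_pow₀ (by norm_num)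
  -- the number of letters
  have hnum : 2 * ((J : ℝ) + 11) + ((J : ℝ) + 6) ^ 2 * (2 ^ (μ + 5) * (2 ^ r * m l + 1)) < n := by
    refine lt_of_lt_of_le ?_ hn
    have h0 : 1 ≤ m l / m 0 := by
      rw [le_div_iff₀ hm0, one_mul]
      exact hm.mono (Nat.zero_le _)
    have h1 := hm.low l (4 * q)
    rw [show l + 4 * q = k by omega] at h1
    have h2 : (2 : ℝ) ^ (5 / 4 * ((4 * q : ℕ) : ℝ)) = 2 ^ (5 * q) := by
      rw [← Real.rpow_natCast]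
      congr 1
      push_cast
      ring
    rw [h2] at h1
    have h3 : (1 : ℝ) ≤ 2 ^ (μ + 5) := one_le_pow₀ (by norm_num)
    have h4 : (1 : ℝ) ≤ 2 ^ (μ + 5) * 2 ^ r := one_le_mul_of_one_le_of_one_le h3 h2r
    have h5 : 2 * ((J : ℝ) + 11) + ((J : ℝ) + 6) ^ 2 * (2 ^ (μ + 5) * (2 ^ r * m l + 1)) ≤
        c * (2 ^ (μ + 5) * 2 ^ r) * m l := by
      have e1 : 2 * ((J : ℝ) + 11) ≤ 2 * ((J : ℝ) + 11) / m 0 * (2 ^ (μ + 5) * 2 ^ r) * m l := by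
        calc 2 * ((J : ℝ) + 11) = 2 * ((J : ℝ) + 11) * 1 * 1 := by ring
          _ ≤ 2 * ((J : ℝ) + 11) * (2 ^ (μ + 5) * 2 ^ r) * (m l / m 0) := by gcongr
          _ = _ := by ring
      have e2 : ((J : ℝ) + 6) ^ 2 * (2 ^ (μ + 5) * (2 ^ r * m l + 1)) ≤
          ((J : ℝ) + 6) ^ 2 * (1 + 1 / m 0) * (2 ^ (μ + 5) * 2 ^ r) * m l := by
        have e3 : 2 ^ r * m l + 1 ≤ (1 + 1 / m 0) * 2 ^ r * m l := by
          have e4 : (1 : ℝ) ≤ 2 ^ r * (m l / m 0) := one_le_mul_of_one_le_of_one_le h2r h0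
          calc 2 ^ r * m l + 1 ≤ 2 ^ r * m l + 2 ^ r * (m l / m 0) := by linarith
            _ = _ := by ring
        calc ((J : ℝ) + 6) ^ 2 * (2 ^ (μ + 5) * (2 ^ r * m l + 1)) ≤
              ((J : ℝ) + 6) ^ 2 * (2 ^ (μ + 5) * ((1 + 1 / m 0) * 2 ^ r * m l)) := by gcongr
          _ = _ := by ring
      rw [hc]
      calc _ ≤ 2 * ((J : ℝ) + 11) / m 0 * (2 ^ (μ + 5) * 2 ^ r) * m l +
            ((J : ℝ) + 6) ^ 2 * (1 + 1 / m 0) * (2 ^ (μ + 5) * 2 ^ r) * m l := add_le_add e1 e2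
        _ = _ := by ring
    have h6 : c * (2 ^ (μ + 5) * 2 ^ r) < 2 ^ (5 * q) := by
      have e1 : (2 : ℝ) ^ (μ + 5) * 2 ^ r = 2 ^ 8 * 2 ^ (5 * q - j1) := by
        rw [← pow_add, ← pow_add]
        congr 1
        omega
      have e2 : (2 : ℝ) ^ (5 * q) = 2 ^ j1 * 2 ^ (5 * q - j1) := by
        rw [← pow_add]
        congr 1
        omega
      rw [e1, ← mul_assoc, e2]
      exact mul_lt_mul_of_pos_right hjc (by positivity)
    calc _ ≤ c * (2 ^ (μ + 5) * 2 ^ r) * m l := h5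
      _ < 2 ^ (5 * q) * m l := mul_lt_mul_of_pos_right h6 hml
      _ ≤ m k := h1
  -- the infix
  have hsub : {t | t.length = n ∧ t ∈ WL (k + i) ∧ ∀ d, d = p ∨ d = q' → ¬ HR d s (RJ s (2 ^ (k + i + 3)) J) t} ⊆
      {t | (t ∈ WL (k + i) ∧ t.length = n) ∧ ∃ x z : ℕ, Bx (l + 2) t x z ∧ (2 : ℝ) ^ r * m l ≤ (z : ℝ) - x} := by
    rintro t ⟨h1, h2, h3⟩
    refine ⟨⟨h2, h1⟩, ?_⟩
    have h4 := few_infix hpq (kc := s) (μ := μ) (S1 := 2 ^ r * m l) h2 (by omega) hJ (by positivity) (by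
      rw [show s + 5 + μ = k + i + 3 by omega]
      exact h3) (by
      rw [h1]
      exact hnum)
    rwa [show s + 7 = l + 2 by omega] at h4
  refine (gf_mono hsub).trans ((hext n (k + i) l (2 ^ r) (by omega) h2r).trans ?_)
  -- the numbers
  have hUK : Ub (k + i) ≤ 2 ^ i * Ub k := UU_ratio_up k i
  have hmK : m k ≤ m (k + i) := hm.mono (Nat.le_add_right _ _)
  have hmK0 := hm.pos (k + i)
  have e1 : Ub (k + i) / m (k + i) ≤ 2 ^ i * (Ub k / m k) := by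
    rw [← mul_div_assoc]
    exact div_le_div₀ (by positivity) hUK hmk hmK
  calc ENNReal.ofReal (A / (2 ^ r) ^ (2 * q1) * C ^ (k + i - l)) * (ENNReal.ofReal (Ub (k + i) / m (k + i)) * Xb (k + i) ^ 2)
      ≤ ENNReal.ofReal (A / (2 ^ r) ^ (2 * q1) * C ^ (k + i - l)) * (ENNReal.ofReal (2 ^ i * (Ub k / m k)) *
          (ENNReal.ofReal (D ^ i) * Xb k) ^ 2) := by
        refine mul_le_mul_right (mul_le_mul' (ENNReal.ofReal_le_ofReal e1) (pow_le_pow_left' (hDX k i) 2)) _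
    _ = ENNReal.ofReal (A / (2 ^ r) ^ (2 * q1) * C ^ (k + i - l) * (2 ^ i * (Ub k / m k)) * (D ^ i) ^ 2) * Xb k ^ 2 := by
        rw [mul_pow, ← ENNReal.ofReal_pow (by positivity), ← mul_assoc, ← mul_assoc, ← ENNReal.ofReal_mul (by positivity),
          ← ENNReal.ofReal_mul (by positivity)]
    _ ≤ _ := by
        refine mul_le_mul_left (ENNReal.ofReal_le_ofReal ?_) _
        have f1 : C ^ (k + i - l) ≤ (C ^ 5) ^ q := by
          rw [← pow_mul]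
          exact pow_le_pow_right₀ hC (by omega)
        have f2 : (2 : ℝ) ^ i ≤ 2 ^ q := pow_le_pow_right₀ (by norm_num) (by omega)
        have f3 : (D ^ i) ^ 2 ≤ (D ^ 2) ^ q := by
          rw [← pow_mul, ← pow_mul, mul_comm i 2]
          exact pow_le_pow_right₀ hD (by omega)
        have f4 : (2 ^ q1 : ℝ) ^ q ≤ (2 ^ r) ^ (2 * q1) := by
          rw [← pow_mul, ← pow_mul]
          refine pow_le_pow_right₀ (by norm_num) ?_
          calc q1 * q ≤ q1 * (2 * r) := Nat.mul_le_mul_left _ hr2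
            _ = r * (2 * q1) := by ring
        have f5 : (2 * C ^ 5 * D ^ 2 * 2) ^ q ≤ (2 ^ q1 : ℝ) ^ q := pow_le_pow_left₀ (by positivity) hq1.le q
        have f6 : 0 < (2 ^ r : ℝ) ^ (2 * q1) := by positivity
        have f7 : 2 ^ q * ((C ^ 5) ^ q * (D ^ 2) ^ q) * 2 ^ q ≤ (2 ^ r : ℝ) ^ (2 * q1) := by
          refine le_trans (le_of_eq ?_) (f5.trans f4)
          rw [mul_pow, mul_pow, mul_pow]
          ring
        have f8 : C ^ (k + i - l) * 2 ^ i * (D ^ i) ^ 2 ≤ (2 ^ r : ℝ) ^ (2 * q1) * (1 / 2) ^ q := by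
          rw [one_div, inv_pow, ← div_eq_mul_inv, le_div_iff₀ (by positivity)]
          refine le_trans ?_ f7
          calc C ^ (k + i - l) * 2 ^ i * (D ^ i) ^ 2 * 2 ^ q ≤ (C ^ 5) ^ q * 2 ^ q * (D ^ 2) ^ q * 2 ^ q := by gcongr
            _ = _ := by ring
        calc A / (2 ^ r) ^ (2 * q1) * C ^ (k + i - l) * (2 ^ i * (Ub k / m k)) * (D ^ i) ^ 2 =
              A / (2 ^ r) ^ (2 * q1) * (C ^ (k + i - l) * 2 ^ i * (D ^ i) ^ 2) * (Ub k / m k) := by ring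
          _ ≤ A / (2 ^ r) ^ (2 * q1) * ((2 ^ r : ℝ) ^ (2 * q1) * (1 / 2) ^ q) * (Ub k / m k) := by gcongr
          _ = A * (1 / 2) ^ q * (Ub k / m k) := by
              field_simp

end FIS

end HexObs
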