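import Pool.Agent.EN.EspB

/-!
FIS (the tail exponent 4): many leaves in a direction of large range, the run at a free depth g below the scale of the walk.
-/

set_option autoImplicit false

namespace HexObs

namespace FIS

open Finset TS SDN NTW NTA EN

open scoped ENNReal

/-- **the words with many leaves in a direction of large range, the run at the scale k - g** -/
theorem many_g {m : ℕ → ℝ} (hm : MLow m) (hd : MUp m) (hG : GBU m) (hE : ExsX) : ∃ (J cH kk : ℕ) (W F : ℝ),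
    1 ≤ J ∧ 1 ≤ W ∧ 1 ≤ F ∧ ∀ (d : Fin 3) (k i n g : ℕ) (ε : ℝ), 6 ≤ g → g + kk ≤ k → 0 < ε →
    (∀ k1, k - g ≤ k1 → k1 ≤ k + i + 8 →
      SmD DmJ k1 {g | g ∈ BrR (2 ^ (k1 + 4)) (2 ^ (k + i + 10)) ∧ 2 ^ (k + i - cH) ≤ hgt g ∧ g.length ≤ n} ε) →
    gf {t | t.length = n ∧ t ∈ WL (k + i) ∧ HR d (k - g) (RJ (k - g) (2 ^ (k + i + 3)) J) t ∧
      ∃ a b, a ≤ n ∧ b ≤ n ∧ (2 : ℤ) ^ (k + i) ≤ 2 * (lv3 d (vx oo up t a) - lv3 d (vx oo up t b))} ≤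
      ENNReal.ofReal (F * W ^ (g + i) * ε * (Ub k / m k)) * Xb k ^ 2 := by
  obtain ⟨J0, C2, k0, hC2, hG⟩ := hG
  obtain ⟨Ce, ke, hCe, hexs⟩ := hE
  obtain ⟨K, hK, hbox⟩ := smD_box
  obtain ⟨Cm, hCm, hmu⟩ := hd.pow
  obtain ⟨Dx, hDx, hDX⟩ := Xb_pow
  obtain ⟨cH, hcH⟩ : ∃ cH : ℕ, 12 * (J0 + 2 + 3) ≤ 2 ^ cH := ⟨12 * (J0 + 2 + 3), Nat.lt_two_pow_self.le⟩
  have hCe0 : 0 < Ce := by linarith
  have hC20 : 0 < C2 := by linarith
  have hCm0 : 0 < Cm := by linarith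
  have hK0 : 0 < K := by linarith
  have hDx0 : 0 < Dx := by linarith
  obtain ⟨W, hW⟩ : ∃ W : ℝ, W = Ce * 2 ^ (J0 + 2) * C2 * Cm * 2 * Dx ^ 2 := ⟨_, rfl⟩
  have hW1 : 1 ≤ W := by
    rw [hW]
    have a4 : (1 : ℝ) ≤ 2 ^ (J0 + 2) := one_le_pow₀ (by norm_num)
    have a6 : 1 ≤ Dx ^ 2 := one_le_pow₀ hDx
    exact one_le_mul_of_one_le_of_one_le (one_le_mul_of_one_le_of_one_le (one_le_mul_of_one_le_of_one_le
      (one_le_mul_of_one_le_of_one_le (one_le_mul_of_one_le_of_one_le hCe a4) hC2) hCm) (by norm_num)) a6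
  obtain ⟨F, hF⟩ : ∃ F : ℝ, F = 2 * (4 * K) ^ (J0 + 2) * 2 ^ (J0 + 2) * C2 ^ 2 := ⟨_, rfl⟩
  have hF1 : 1 ≤ F := by
    rw [hF]
    have a2 : (1 : ℝ) ≤ 2 := by norm_num
    have a3 : 1 ≤ (4 * K) ^ (J0 + 2) := one_le_pow₀ (by linarith)
    have a4 : (1 : ℝ) ≤ 2 ^ (J0 + 2) := one_le_pow₀ (by norm_num)
    have a5 : 1 ≤ C2 ^ 2 := one_le_pow₀ hC2
    exact one_le_mul_of_one_le_of_one_le (one_le_mul_of_one_le_of_one_le (one_le_mul_of_one_le_of_one_le a2 a3) a4) a5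
  refine ⟨J0 + 2, cH, k0 + ke + cH, W, F, by omega, hW1, hF1, fun d k i n g ε hg hk hε0 hSk => ?_⟩
  obtain ⟨s, hs⟩ : ∃ s, s = k - g := ⟨_, rfl⟩
  rw [← hs]
  rw [← hs] at hSk
  obtain ⟨mu, hmu1⟩ : ∃ mu, mu = g + i + 1 := ⟨_, rfl⟩
  have hsm : s + mu + 2 = k + i + 3 := by omega
  have hms := hm.pos s
  have hmk := hm.pos k
  have hU := Ub_pos k
  obtain ⟨δ, hδ⟩ : ∃ δ : ℝ, δ = (4 * (K * 2 ^ mu)) ^ (J0 + 2) * (C2 ^ (mu + 1) / m s) := ⟨_, rfl⟩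
  have hδ0 : 0 < δ := by
    rw [hδ]
    positivity
  obtain ⟨h1, h2⟩ := smRX_RJ hG hK hbox (s := s) (mu := mu) (n := n) (H := k + i - cH) (ε := ε) (by omega) hε0.le (by
    refine smD_anti ?_ (hSk s le_rfl (by omega))
    rintro g ⟨g1, g2⟩
    exact ⟨brR_mono (Nat.pow_le_pow_right (by norm_num) (by omega)) g1, g2⟩)
  rw [← hδ, hsm] at h1 h2
  have h3 := hexs d s (g + i) n (k + i - cH) (J0 + 2) (RJ s (2 ^ (k + i + 3)) (J0 + 2)) δ (δ * ε) ε (by omega)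
    (by omega) hδ0 (by positivity) hε0 (fun ms hms => le_of_eq hms.1) h1 h2 (by
    intro k1 g1 g2
    have := hSk k1 g1 (by omega)
    rwa [show s + (g + i) + 10 = k + i + 10 by omega])
  rw [show s + (g + i) = k + i by omega] at h3
  refine (gf_mono ?_).trans (h3.trans ?_)
  · rintro t ⟨t1, t2, t3, a, b, t4, t5, t6⟩
    refine ⟨t1, t2, t3, a, b, t4, t5, ?_⟩
    have e1 : 12 * (((J0 + 2 : ℕ) : ℤ) + 3) * 2 ^ (k + i - cH) ≤ 2 ^ (k + i) := by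
      have e2 : (12 : ℤ) * (((J0 + 2 : ℕ) : ℤ) + 3) ≤ 2 ^ cH := by exact_mod_cast hcH
      calc 12 * (((J0 + 2 : ℕ) : ℤ) + 3) * 2 ^ (k + i - cH) ≤ 2 ^ cH * 2 ^ (k + i - cH) := by gcongr
        _ = 2 ^ (k + i) := by
            rw [← pow_add]
            congr 1
            omega
    linarith
  -- the numbers
  have hUK : Ub (k + i) ≤ 2 ^ i * Ub k := UU_ratio_up k i
  have hms2 : m k ≤ Cm ^ g * m s := by
    have := hmu s g
    rwa [show s + g = k by omega] at this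
  have hUK0 := Ub_pos (k + i)
  calc ENNReal.ofReal (Ce ^ (g + i) * (δ * ε + δ * ε) * Ub (k + i)) * Xb (k + i) ^ 2
      ≤ ENNReal.ofReal (Ce ^ (g + i) * (δ * ε + δ * ε) * Ub (k + i)) * (ENNReal.ofReal (Dx ^ i) * Xb k) ^ 2 :=
        mul_le_mul_right (pow_le_pow_left' (hDX k i) 2) _
    _ = ENNReal.ofReal (Ce ^ (g + i) * (δ * ε + δ * ε) * Ub (k + i) * (Dx ^ i) ^ 2) * Xb k ^ 2 := by
        rw [mul_pow, ← ENNReal.ofReal_pow (by positivity), ← mul_assoc, ← ENNReal.ofReal_mul (by positivity)]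
    _ ≤ _ := by
        refine mul_le_mul_left (ENNReal.ofReal_le_ofReal ?_) _
        have e1 : 1 / m s ≤ Cm ^ g / m k := by
          rw [div_le_div_iff₀ hms hmk, one_mul]
          exact hms2
        have f4 : Cm ^ g ≤ Cm ^ (g + i) := pow_le_pow_right₀ hCm (by omega)
        have f5 : (Dx ^ i) ^ 2 ≤ (Dx ^ 2) ^ (g + i) := by
          rw [← pow_mul, ← pow_mul, mul_comm i 2]
          exact pow_le_pow_right₀ hDx (by omega)
        have f6 : (2 : ℝ) ^ i ≤ 2 ^ (g + i) := pow_le_pow_right₀ (by norm_num) (by omega)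
        have f2 : (4 * (K * 2 ^ mu)) ^ (J0 + 2) = (4 * K) ^ (J0 + 2) * 2 ^ (J0 + 2) * (2 ^ (J0 + 2)) ^ (g + i) := by
          have g1 : 4 * (K * (2 : ℝ) ^ mu) = 4 * K * 2 * 2 ^ (g + i) := by
            rw [hmu1, pow_succ]
            ring
          rw [g1, mul_pow (4 * K * 2), mul_pow (4 * K), ← pow_mul 2 (g + i), mul_comm (g + i) (J0 + 2), pow_mul]
        have f3 : C2 ^ (mu + 1) = C2 ^ 2 * C2 ^ (g + i) := by
          rw [hmu1, ← pow_add]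
          congr 1
          ring
        calc Ce ^ (g + i) * (δ * ε + δ * ε) * Ub (k + i) * (Dx ^ i) ^ 2
            = Ce ^ (g + i) * 2 * (4 * (K * 2 ^ mu)) ^ (J0 + 2) * C2 ^ (mu + 1) * (Dx ^ i) ^ 2 * (1 / m s) * Ub (k + i) * ε := by
              rw [hδ]
              ring
          _ ≤ Ce ^ (g + i) * 2 * (4 * (K * 2 ^ mu)) ^ (J0 + 2) * C2 ^ (mu + 1) * (Dx ^ 2) ^ (g + i) *
              (Cm ^ (g + i) / m k) * (2 ^ (g + i) * Ub k) * ε := by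
              have f7 : 1 / m s ≤ Cm ^ (g + i) / m k := e1.trans (div_le_div_of_nonneg_right f4 hmk.le)
              have f8 : Ub (k + i) ≤ 2 ^ (g + i) * Ub k := hUK.trans (mul_le_mul_of_nonneg_right f6 hU.le)
              gcongr
          _ = F * W ^ (g + i) * ε * (Ub k / m k) := by
              rw [f2, f3, hF, hW, mul_pow, mul_pow, mul_pow, mul_pow, mul_pow]
              ring

end FIS

end HexObs
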