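import Pool.Agent.FIS.FishUp
import Pool.Agent.EN.FactsZ

/-!
FIS (the tail exponent 4): the upper side of the tail for the mean lengths of the critical bridges.
-/

set_option autoImplicit false

namespace HexObs

namespace FIS

open EN

/-- **the upper side of the tail from the order 4 / 3 of the mean lengths** -/
theorem fishX_G (hlo : ∃ c : ℝ, 0 < c ∧ ∀ k : ℕ, c * (2 : ℝ) ^ (4 / 3 * (k : ℝ)) ≤ PW.mZ (2 ^ k))
    (hup : ∃ C : ℝ, ∀ k : ℕ, PW.mZ (2 ^ k) ≤ C * (2 : ℝ) ^ (4 / 3 * (k : ℝ))) :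
    NTW.FishX (fun k => PW.mZ (2 ^ k)) := by
  obtain ⟨J00, hg⟩ := gbm_M
  exact fishX_of hlo hup NTA.mlow_M NTA.mup_M asm_M (gbu_of (hg J00 le_rfl)) exsX
    (extX_of (ext_M (hg J00 le_rfl))) allX_M

end FIS

end HexObs
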