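import Pool.Agent.FIS.TsBr
import Pool.Agent.VF.XiUpA
import Pool.Agent.SIM.Dens

/-!
FIS (the tail exponent 4): the words with at most n letters that leave a large box, with a polynomial factor.
-/

set_option autoImplicit false

namespace HexObs

namespace FIS

open Finset TS SDN NTW NTA EN

open scoped ENNReal

lemma pw (x : ℝ) : ∃ b : ℕ, ∀ k : ℕ, x ≤ 2 ^ (b * (k + 1)) := by
  obtain ⟨b, hb⟩ := two_pow_ge x
  refine ⟨b, fun k => hb.le.trans (pow_le_pow_right₀ (by norm_num) ?_)⟩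
  exact Nat.le_mul_of_pos_right _ (by omega)

lemma pw_mul {b b' : ℕ} {x y : ℝ} {k : ℕ} (hx0 : 0 ≤ x) (hx : x ≤ 2 ^ (b * (k + 1))) (hy : y ≤ 2 ^ (b' * (k + 1))) :
    x * y ≤ 2 ^ ((b + b') * (k + 1)) := by
  rw [add_mul, pow_add]
  exact (mul_le_mul_of_nonneg_left hy hx0).trans (mul_le_mul_of_nonneg_right hx (by positivity))

lemma pw_add {b b' : ℕ} {x y : ℝ} {k : ℕ} (hx : x ≤ 2 ^ (b * (k + 1))) (hy : y ≤ 2 ^ (b' * (k + 1))) :
    x + y ≤ 2 ^ ((b + b' + 1) * (k + 1)) := by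
  have h1 : (2 : ℝ) ^ (b * (k + 1)) ≤ 2 ^ ((b + b') * (k + 1)) :=
    pow_le_pow_right₀ (by norm_num) (Nat.mul_le_mul_right _ (by omega))
  have h2 : (2 : ℝ) ^ (b' * (k + 1)) ≤ 2 ^ ((b + b') * (k + 1)) :=
    pow_le_pow_right₀ (by norm_num) (Nat.mul_le_mul_right _ (by omega))
  have h3 : (2 : ℝ) ≤ 2 ^ (k + 1) := by
    calc (2 : ℝ) = 2 ^ 1 := (pow_one _).symm
      _ ≤ 2 ^ (k + 1) := pow_le_pow_right₀ (by norm_num) (by omega)
  have h0 : (0 : ℝ) < 2 ^ ((b + b') * (k + 1)) := by positivity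
  calc x + y ≤ 2 ^ ((b + b') * (k + 1)) * 2 := by linarith
    _ ≤ 2 ^ ((b + b') * (k + 1)) * 2 ^ (k + 1) := mul_le_mul_of_nonneg_left h3 h0.le
    _ = 2 ^ ((b + b' + 1) * (k + 1)) := by
        rw [← pow_add]
        congr 1
        ring

/-- **the large range with a polynomial factor** -/
theorem lossy {m : ℕ → ℝ} (hlo : ∃ c : ℝ, 0 < c ∧ ∀ k : ℕ, c * (2 : ℝ) ^ (4 / 3 * (k : ℝ)) ≤ m k)
    (hup : ∃ C : ℝ, ∀ k : ℕ, m k ≤ C * (2 : ℝ) ^ (4 / 3 * (k : ℝ))) (hA : ASm m) :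
    ∃ B c3 c2 : ℕ, ∀ (k i n : ℕ), c3 ≤ i → 3 * i + c2 ≤ k → (n : ℝ) < m (k + 1) →
    gf {t | t ∈ SAL n ∧ T2.Ext (k + i) t} ≤
      ENNReal.ofReal (2 ^ (B * (k + 1)) * (1 / 2) ^ (2 ^ (4 * i - c3))) * nuX m k := by
  obtain ⟨c3, c2, hc3, hts⟩ := ts_br hlo hup hA 1
  obtain ⟨K, A, β, hK, hA1, hβ, hext⟩ := VF.ext_le
  obtain ⟨c, hc, hlo'⟩ := hlo
  obtain ⟨C, hup'⟩ := hup
  have hm0 : ∀ k, 0 < m k := fun k => lt_of_lt_of_le (by positivity) (hlo' k)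
  have hK0 : 0 < K := by linarith
  have hA0 : 0 < A := by linarith
  -- the size of Xb
  obtain ⟨x0, hx0, hX⟩ : ∃ x0 : ℝ, 0 < x0 ∧ ∀ k, ENNReal.ofReal x0 ≤ Xb k := by
    have h1 : Xb 0 ≠ 0 := by
      intro h
      have h2 := SIM.nuX_ne_zero hm0 0
      apply h2
      unfold nuX
      rw [h]
      simp
    rcases eq_or_ne (Xb 0) ⊤ with h | h
    · exact ⟨1, one_pos, fun k => le_top.trans (h.symm.le.trans (NTA.Xb_mono (Nat.zero_le k)))⟩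
    · refine ⟨(Xb 0).toReal, ENNReal.toReal_pos h1 h, fun k => ?_⟩
      rw [ENNReal.ofReal_toReal h]
      exact NTA.Xb_mono (Nat.zero_le k)
  -- the exponents
  obtain ⟨bC, hbC⟩ := pw (|C|)
  obtain ⟨b1, hb1⟩ := pw 1
  obtain ⟨bA, hbA⟩ := pw A
  obtain ⟨bK, hbK⟩ := pw K
  obtain ⟨bx, hbx⟩ := pw (1 / x0 ^ 2)
  obtain ⟨β', hβ'⟩ := exists_nat_ge β
  have hmk : ∀ k, m k ≤ 2 ^ ((bC + 2) * (k + 1)) := by
    intro k
    refine (hup' k).trans ?_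
    calc C * (2 : ℝ) ^ (4 / 3 * (k : ℝ)) ≤ |C| * (2 : ℝ) ^ (4 / 3 * (k : ℝ)) :=
          mul_le_mul_of_nonneg_right (le_abs_self C) (by positivity)
      _ ≤ 2 ^ ((bC + 2) * (k + 1)) := by
          refine pw_mul (abs_nonneg _) (hbC k) ?_
          rw [← Real.rpow_natCast]
          apply Real.rpow_le_rpow_of_exponent_le (by norm_num)
          push_cast
          have : (0 : ℝ) ≤ k := Nat.cast_nonneg _
          linarith
  obtain ⟨b2, hb2⟩ : ∃ b2, b2 = 2 * (bC + 2) + b1 + 1 := ⟨_, rfl⟩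
  have hn1 : ∀ k n : ℕ, (n : ℝ) < m (k + 1) → (n : ℝ) + 1 ≤ 2 ^ (b2 * (k + 1)) := by
    intro k n hn
    rw [hb2]
    refine pw_add ?_ (hb1 k)
    refine hn.le.trans ((hmk (k + 1)).trans (pow_le_pow_right₀ (by norm_num) ?_))
    nlinarith
  refine ⟨(bK + 2 * (b1 + (bA + b2 * β') + 1)) + ((bC + 2) + bx), c3, c2 + 4, fun k i n hi hk hn => ?_⟩
  have hmkp := hm0 k
  have hU := Ub_pos k
  obtain ⟨P, hP⟩ : ∃ P : ℕ, P = 2 ^ (4 * i - c3) := ⟨_, rfl⟩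
  rw [← hP]
  have h1 := hext (k + i) n (by omega)
  have h2 : gf (VF.TBr (2 ^ (k + i - 1)) n) ≤ ENNReal.ofReal (Ub k / 2 ^ P) := by
    rw [hP]
    refine (gf_mono ?_).trans (hts k i (m (k + 1)) hi (by omega) le_rfl)
    rintro g ⟨⟨T, hT, hg⟩, hl⟩
    refine ⟨T, hT, hg, ?_⟩
    have : (g.length : ℝ) ≤ n := by exact_mod_cast hl
    linarith
  obtain ⟨V, hV⟩ : ∃ V : ℝ, V = K * (1 + A * ((n : ℝ) + 1) ^ β) ^ 2 := ⟨_, rfl⟩
  rw [← hV] at h1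
  have hV1 : V ≤ 2 ^ ((bK + 2 * (b1 + (bA + b2 * β') + 1)) * (k + 1)) := by
    rw [hV]
    have e1 : ((n : ℝ) + 1) ^ β ≤ 2 ^ (b2 * β' * (k + 1)) := by
      have e2 : (1 : ℝ) ≤ (n : ℝ) + 1 := by
        have : (0 : ℝ) ≤ n := Nat.cast_nonneg _
        linarith
      calc ((n : ℝ) + 1) ^ β ≤ ((n : ℝ) + 1) ^ (β' : ℝ) := Real.rpow_le_rpow_of_exponent_le e2 hβ'
        _ = ((n : ℝ) + 1) ^ β' := Real.rpow_natCast _ _
        _ ≤ (2 ^ (b2 * (k + 1))) ^ β' := pow_le_pow_left₀ (by linarith) (hn1 k n hn) _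
        _ = 2 ^ (b2 * β' * (k + 1)) := by
            rw [← pow_mul]
            congr 1
            ring
    have e3 : 1 + A * ((n : ℝ) + 1) ^ β ≤ 2 ^ ((b1 + (bA + b2 * β') + 1) * (k + 1)) :=
      pw_add (hb1 k) (pw_mul hA0.le (hbA k) e1)
    have e4 : 0 ≤ 1 + A * ((n : ℝ) + 1) ^ β := by positivity
    refine pw_mul hK0.le (hbK k) ((pow_le_pow_left₀ e4 e3 2).trans (le_of_eq ?_))
    rw [← pow_mul]
    congr 1
    ring
  have hV0 : 0 ≤ V := by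
    rw [hV]
    positivity
  have h3 : ENNReal.ofReal (Ub k / m k * x0 ^ 2) ≤ nuX m k := by
    unfold nuX
    rw [ENNReal.ofReal_mul (by positivity), ENNReal.ofReal_pow hx0.le]
    exact mul_le_mul_right (pow_le_pow_left' (hX k) 2) _
  calc gf {t | t ∈ SAL n ∧ T2.Ext (k + i) t} ≤ ENNReal.ofReal V * ENNReal.ofReal (Ub k / 2 ^ P) :=
        h1.trans (mul_le_mul_right h2 _)
    _ = ENNReal.ofReal (V * (m k * (1 / x0 ^ 2)) * (1 / 2) ^ P) * ENNReal.ofReal (Ub k / m k * x0 ^ 2) := by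
        rw [← ENNReal.ofReal_mul hV0, ← ENNReal.ofReal_mul (by positivity)]
        congr 1
        rw [one_div_pow]
        field_simp
    _ ≤ ENNReal.ofReal (2 ^ (((bK + 2 * (b1 + (bA + b2 * β') + 1)) + ((bC + 2) + bx)) * (k + 1)) * (1 / 2) ^ P) *
          nuX m k := by
        refine mul_le_mul' (ENNReal.ofReal_le_ofReal (mul_le_mul_of_nonneg_right ?_ (by positivity))) h3
        exact pw_mul hV0 hV1 (pw_mul hmkp.le (hmk k) (hbx k))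

end FIS

end HexObs
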