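import Pool.Agent.FIS.Exact
import Pool.Agent.FIS.Lossy
import Pool.Agent.NTS.FishDefs
import Pool.Agent.EN.FactsX

/-!
FIS (the tail exponent 4): the upper side of the tail at exactly n letters, whole range.
-/

set_option autoImplicit false

namespace HexObs

namespace FIS

open Finset TS SDN NTW NTA EN

open scoped ENNReal

lemma lin_le' {a c i : ℕ} (ha : a ≤ i) (hc : c ≤ i) : a + 3 * i ≤ 2 ^ (4 * i - c) := by
  have h1 : 3 * i < 2 ^ (3 * i) := Nat.lt_two_pow_self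
  have h0 : 0 < 2 ^ (4 * i - c) := by positivity
  rcases Nat.eq_zero_or_pos i with h | h
  · omega
  have h2 : 2 ^ (3 * i) ≤ 2 ^ (4 * i - c) := Nat.pow_le_pow_right (by norm_num) (by omega)
  obtain ⟨j, rfl⟩ : ∃ j, i = j + 1 := ⟨i - 1, by omega⟩
  have h3 : 3 * j < 2 ^ (3 * j) := Nat.lt_two_pow_self
  have h4 : 2 ^ (3 * (j + 1)) = 8 * 2 ^ (3 * j) := by
    rw [mul_add, pow_add]
    ring
  have h5 : 1 ≤ 2 ^ (3 * j) := Nat.one_le_two_pow
  omega

/-- **out of the box of the scale k + i, exactly n letters** -/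
theorem out_box {m : ℕ → ℝ} (hlo : ∃ c : ℝ, 0 < c ∧ ∀ k : ℕ, c * (2 : ℝ) ^ (4 / 3 * (k : ℝ)) ≤ m k)
    (hup : ∃ C : ℝ, ∀ k : ℕ, m k ≤ C * (2 : ℝ) ^ (4 / 3 * (k : ℝ))) (hm : MLow m) (hd : MUp m) (hA : ASm m)
    (hG : GBU m) (hE : ExsX) (hX : ExtX m) : ∃ (A : ℝ) (c9 i0 : ℕ), 1 ≤ A ∧ ∀ k i n : ℕ, i0 ≤ i → 3 * i + i0 ≤ k →
    m k ≤ n → (n : ℝ) < m (k + 1) →
    gf {t | t ∈ SawN n ∧ t ∉ WL (k + i)} ≤ ENNReal.ofReal (A * (1 / 2) ^ (2 ^ (4 * i - c9))) * nuX m k := by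
  classical
  obtain ⟨B, c3, c2, hlos⟩ := lossy hlo hup hA
  obtain ⟨r0, hr0⟩ : ∃ r0, r0 = c3 + 6 + B := ⟨_, rfl⟩
  obtain ⟨A, c8, i1, hA1, hex⟩ := exact_shell hlo hup hm hd hA hG hE hX r0
  have hA0 : 0 < A := by linarith
  obtain ⟨i0, hi0⟩ : ∃ i0, i0 = i1 + c2 + c3 + c8 + r0 + 1 := ⟨_, rfl⟩
  obtain ⟨c9, hc9⟩ : ∃ c9, c9 = c8 + c3 + 1 := ⟨_, rfl⟩
  refine ⟨A + 1, c9, i0, by linarith, fun k i n hi hk hn1 hn2 => ?_⟩
  -- the first bad shell
  have hbad : ∃ j, i < j ∧ k < 2 ^ (4 * j - r0) := by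
    refine ⟨k + i + 1 + r0, by omega, ?_⟩
    calc k < 2 ^ k := Nat.lt_two_pow_self
      _ ≤ 2 ^ (4 * (k + i + 1 + r0) - r0) := Nat.pow_le_pow_right (by norm_num) (by omega)
  obtain ⟨f, hf⟩ : ∃ f, f = Nat.find hbad := ⟨_, rfl⟩
  have hf1 : i < f ∧ k < 2 ^ (4 * f - r0) := by
    rw [hf]
    exact Nat.find_spec hbad
  have hf2 : ∀ j, i < j → j < f → 2 ^ (4 * j - r0) ≤ k := by
    intro j h1 h2
    by_contra hc
    exact Nat.find_min hbad (by rwa [← hf]) ⟨h1, not_le.1 hc⟩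
  obtain ⟨e, he⟩ : ∃ e, e = f - 1 := ⟨_, rfl⟩
  have hek : 3 * e + i0 ≤ k := by
    rcases Nat.eq_or_lt_of_le (show i ≤ e by omega) with h | h
    · rw [← h]
      exact hk
    · have h1 := hf2 e h (by omega)
      have h2 : i0 + 3 * e ≤ 2 ^ (4 * e - r0) := lin_le' (by omega) (by omega)
      omega
  have h1 := hlos k e n (by omega) (by omega) hn2
  obtain ⟨Y, hY⟩ : ∃ Y : ℝ, Y = (1 / 2) ^ (2 ^ (4 * i - c9)) := ⟨_, rfl⟩
  have hY0 : 0 < Y := by rw [hY]; positivity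
  rw [← hY]
  have h2 : (2 : ℝ) ^ (B * (k + 1)) * (1 / 2) ^ (2 ^ (4 * e - c3)) ≤ Y := by
    have e1 : B * (k + 1) ≤ 2 ^ (4 * e - (c3 + 1)) := by
      have e2 : k + 1 ≤ 2 * 2 ^ (4 * f - r0) := by
        have := hf1.2
        have h3 : 1 ≤ 2 ^ (4 * f - r0) := Nat.one_le_two_pow
        omega
      calc B * (k + 1) ≤ 2 ^ B * (2 * 2 ^ (4 * f - r0)) := Nat.mul_le_mul Nat.lt_two_pow_self.le e2
        _ = 2 ^ (B + 1 + (4 * f - r0)) := by
            rw [pow_add, pow_add, pow_one]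
            ring
        _ ≤ 2 ^ (4 * e - (c3 + 1)) := Nat.pow_le_pow_right (by norm_num) (by omega)
    have e3 : 2 ^ (4 * e - c3) = 2 ^ (4 * e - (c3 + 1)) + 2 ^ (4 * e - (c3 + 1)) := by
      rw [← two_mul, ← pow_succ']
      congr 1
      omega
    calc (2 : ℝ) ^ (B * (k + 1)) * (1 / 2) ^ (2 ^ (4 * e - c3))
        ≤ 2 ^ (2 ^ (4 * e - (c3 + 1))) * (1 / 2) ^ (2 ^ (4 * e - c3)) :=
          mul_le_mul_of_nonneg_right (pow_le_pow_right₀ (by norm_num) e1) (by positivity)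
      _ = (1 / 2) ^ (2 ^ (4 * e - (c3 + 1))) := by
          rw [e3, pow_add, ← mul_assoc, ← mul_pow, show (2 : ℝ) * (1 / 2) = 1 by norm_num, one_pow, one_mul]
      _ ≤ Y := by
          rw [hY]
          exact pow_le_pow_of_le_one (by norm_num) (by norm_num) (Nat.pow_le_pow_right (by norm_num) (by omega))
  -- the covering
  have hsub : {t | t ∈ SawN n ∧ t ∉ WL (k + i)} ⊆
      (⋃ j : ℕ, {t | 2 ^ (4 * (i + 1 + j) - r0) ≤ k ∧ t ∈ WL (k + (i + 1 + j)) ∧ t ∉ WL (k + (i + 1 + j) - 1) ∧ t.length = n}) ∪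
      {t | t ∈ SAL n ∧ T2.Ext (k + e) t} := by
    rintro t ⟨⟨ht, hs⟩, hout⟩
    have hex := exists_WL (t := t) hs
    have h3 := Nat.find_spec hex
    have h5 : k + i < Nat.find hex := by
      by_contra hc
      exact hout (WL_mono (by omega) h3)
    have h6 : t ∉ WL (Nat.find hex - 1) := Nat.find_min hex (by omega)
    obtain ⟨j, hj⟩ : ∃ j, j = Nat.find hex - k - i - 1 := ⟨_, rfl⟩
    rcases Nat.lt_or_ge (i + 1 + j) f with h7 | h7
    · left
      rw [Set.mem_iUnion]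
      refine ⟨j, hf2 _ (by omega) h7, ?_, ?_, ht⟩
      · rw [show k + (i + 1 + j) = Nat.find hex by omega]
        exact h3
      · rw [show k + (i + 1 + j) - 1 = Nat.find hex - 1 by omega]
        exact h6
    · right
      refine ⟨⟨hs, ht.le⟩, ?_⟩
      have h8 : t ∉ WL (k + e) := fun h => h6 (WL_mono (by omega) h)
      have h9 : ∃ n, n ≤ t.length ∧ ∃ dir, 2 ^ (k + e) < |row dir (vx oo up t n)| := by
        by_contra hc
        push Not at hc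
        exact h8 ⟨hs, hc⟩
      obtain ⟨a, h10, dir, h11⟩ := h9
      exact ⟨a, h10, dir, h11.le⟩
  have h3 : ∀ j : ℕ, gf {t | 2 ^ (4 * (i + 1 + j) - r0) ≤ k ∧ t ∈ WL (k + (i + 1 + j)) ∧ t ∉ WL (k + (i + 1 + j) - 1) ∧
      t.length = n} ≤ ENNReal.ofReal (A * Y * (1 / 2 / 2 ^ j)) * nuX m k := by
    intro j
    by_cases hj : 2 ^ (4 * (i + 1 + j) - r0) ≤ k
    · have h4 : i0 + 3 * (i + 1 + j) ≤ 2 ^ (4 * (i + 1 + j) - r0) := lin_le' (by omega) (by omega)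
      have h5 := hex k (i + 1 + j) n (by omega) hj (by omega) hn1 hn2
      refine (gf_mono fun t ht => ht.2).trans (h5.trans (mul_le_mul_left (ENNReal.ofReal_le_ofReal ?_) _))
      have h6 : 2 ^ (4 * i - c9) + (j + 1) ≤ 2 ^ (4 * (i + 1 + j) - c8) := by
        have a1 : 2 ^ (4 * i - c9) ≤ 2 ^ (4 * i - c8) := Nat.pow_le_pow_right (by norm_num) (by omega)
        have a2 : 2 ^ (4 * (i + 1 + j) - c8) = 2 ^ (4 * i - c8) * 2 ^ (4 * (j + 1)) := by
          rw [← pow_add]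
          congr 1
          omega
        have a3 : j + 1 + 1 ≤ 2 ^ (4 * (j + 1)) := by
          calc j + 1 + 1 ≤ 2 ^ (j + 1) := Nat.lt_two_pow_self
            _ ≤ 2 ^ (4 * (j + 1)) := Nat.pow_le_pow_right (by norm_num) (by omega)
        have a4 : 1 ≤ 2 ^ (4 * i - c8) := Nat.one_le_two_pow
        rw [a2]
        nlinarith
      calc A * (1 / 2) ^ (2 ^ (4 * (i + 1 + j) - c8)) ≤ A * (1 / 2) ^ (2 ^ (4 * i - c9) + (j + 1)) :=
            mul_le_mul_of_nonneg_left (pow_le_pow_of_le_one (by norm_num) (by norm_num) h6) hA0.le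
        _ = A * Y * (1 / 2 / 2 ^ j) := by
            rw [pow_add, ← hY, pow_succ, one_div_pow]
            ring
    · refine le_trans (gf_mono (Q := ∅) ?_) (le_trans (le_of_eq gf_empty) zero_le)
      rintro t ⟨h, -⟩
      exact absurd h hj
  refine (gf_mono hsub).trans ((gf_union_le _ _).trans ?_)
  rw [add_mul, one_mul, ENNReal.ofReal_add (by positivity) hY0.le, add_mul]
  refine add_le_add ?_ (h1.trans (mul_le_mul_left (ENNReal.ofReal_le_ofReal h2) _))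
  refine (Crw.gf_iUnion_le _).trans ((ENNReal.tsum_le_tsum h3).trans ?_)
  rw [ENNReal.tsum_mul_right]
  refine mul_le_mul_left ?_ _
  rw [← ENNReal.ofReal_tsum_of_nonneg (fun j => by positivity) ((summable_geometric_two' 1).mul_left _)]
  refine ENNReal.ofReal_le_ofReal (le_of_eq ?_)
  rw [tsum_mul_left, tsum_geometric_two', mul_one]

/-- **the upper side of the tail, exponent 4, every n** -/
theorem fishX_of {m : ℕ → ℝ} (hlo : ∃ c : ℝ, 0 < c ∧ ∀ k : ℕ, c * (2 : ℝ) ^ (4 / 3 * (k : ℝ)) ≤ m k)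
    (hup : ∃ C : ℝ, ∀ k : ℕ, m k ≤ C * (2 : ℝ) ^ (4 / 3 * (k : ℝ))) (hm : MLow m) (hd : MUp m) (hA : ASm m)
    (hG : GBU m) (hE : ExsX) (hX : ExtX m) (hP : AllX m) : FishX m := by
  obtain ⟨A, c9, i0, hA1, hout⟩ := out_box hlo hup hm hd hA hG hE hX
  obtain ⟨CA, kA, hCA, hall⟩ := hP
  obtain ⟨C, hup⟩ := hup
  have hA0 : 0 < A := by linarith
  -- beyond this the event is empty
  obtain ⟨b, hb⟩ : ∃ b : ℕ, 8 * |C| < 2 ^ b := two_pow_ge _
  obtain ⟨E, hE⟩ : ∃ E, E = i0 + b + 3 := ⟨_, rfl⟩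
  obtain ⟨i2, hi2⟩ : ∃ i2, i2 = i0 + c9 + 3 := ⟨_, rfl⟩
  obtain ⟨c, hc⟩ : ∃ c : ℝ, c = Real.log 2 / 2 ^ (4 * E + 12 + c9) := ⟨_, rfl⟩
  have hc0 : 0 < c := by
    rw [hc]
    have := Real.log_pos (show (1 : ℝ) < 2 by norm_num)
    positivity
  obtain ⟨K, hK⟩ : ∃ K : ℝ, K = CA * Real.exp (c * 16 ^ (i2 + 3)) + A := ⟨_, rfl⟩
  have hK0 : 0 < K := by rw [hK]; positivity
  refine ⟨c, K, kA + 4 * i2 + 4 * i0 + 8, hc0, hK0, fun k n i hk hn1 hn2 => ?_⟩
  have hexp : ∀ (a x : ℕ), c * 16 ^ i ≤ Real.log 2 * (2 ^ x : ℕ) → (1 / 2 : ℝ) ^ (2 ^ x) ≤ Real.exp (-(c * 16 ^ i)) := by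
    intro a x hx
    have e1 : (1 / 2 : ℝ) ^ (2 ^ x) = Real.exp (-(Real.log 2 * (2 ^ x : ℕ))) := by
      rw [one_div, inv_pow, Real.exp_neg]
      congr 1
      rw [mul_comm, Real.exp_nat_mul, Real.exp_log (by norm_num)]
    rw [e1]
    exact Real.exp_le_exp.2 (by linarith)
  have hKA : ∀ x : ℕ, c * 16 ^ i ≤ Real.log 2 * (2 ^ x : ℕ) →
      ENNReal.ofReal (A * (1 / 2) ^ (2 ^ x)) * nuX m k ≤ ENNReal.ofReal (K * Real.exp (-(c * 16 ^ i))) * nuX m k := by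
    intro x hx
    refine mul_le_mul_left (ENNReal.ofReal_le_ofReal ?_) _
    have e1 : A ≤ K := by
      rw [hK]
      have : 0 < CA * Real.exp (c * 16 ^ (i2 + 3)) := by positivity
      linarith
    exact mul_le_mul e1 (hexp 0 x hx) (by positivity) hK0.le
  have hlog := Real.log_pos (show (1 : ℝ) < 2 by norm_num)
  rcases Nat.lt_or_ge i (i2 + 3) with hi | hi
  · -- small i
    refine (gf_mono fun t ht => ht.1).trans ((hall k n (by omega) hn1 hn2).trans ?_)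
    refine mul_le_mul_left (ENNReal.ofReal_le_ofReal ?_) _
    have e1 : (16 : ℝ) ^ i ≤ 16 ^ (i2 + 3) := pow_le_pow_right₀ (by norm_num) hi.le
    have e2 : 1 ≤ Real.exp (c * 16 ^ (i2 + 3)) * Real.exp (-(c * 16 ^ i)) := by
      rw [← Real.exp_add]
      apply Real.one_le_exp
      nlinarith
    calc CA = CA * 1 := (mul_one _).symm
      _ ≤ CA * (Real.exp (c * 16 ^ (i2 + 3)) * Real.exp (-(c * 16 ^ i))) := mul_le_mul_of_nonneg_left e2 hCA.le
      _ = (CA * Real.exp (c * 16 ^ (i2 + 3))) * Real.exp (-(c * 16 ^ i)) := by ring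
      _ ≤ K * Real.exp (-(c * 16 ^ i)) := by
          refine mul_le_mul_of_nonneg_right ?_ (Real.exp_pos _).le
          rw [hK]
          linarith
  -- the box
  have hbox : {t | t ∈ SawN n ∧ ∃ (dir : Bool) (j : ℕ), j ≤ n ∧ (2 : ℝ) ^ i * 2 ^ k ≤ |((lvl dir (vx oo up t j) : ℤ) : ℝ)|} ⊆
      {t | t ∈ SawN n ∧ t ∉ WL (k + (i - 3))} := by
    rintro t ⟨h1, dir, j, h2, h3⟩
    exact ⟨h1, out_of_lvl (by omega) (by rw [h1.1]; exact h2) h3⟩
  rcases Nat.lt_or_ge k (3 * (i - 3) + i0) with hki | hki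
  swap
  · refine (gf_mono hbox).trans ((hout k (i - 3) n (by omega) hki hn1 hn2).trans (hKA _ ?_))
    rw [hc, div_mul_eq_mul_div, mul_div_assoc]
    refine mul_le_mul_of_nonneg_left ?_ hlog.le
    rw [div_le_iff₀ (by positivity)]
    push_cast
    rw [← pow_add, show (16 : ℝ) = 2 ^ 4 by norm_num, ← pow_mul]
    exact pow_le_pow_right₀ (by norm_num) (by omega)
  · obtain ⟨s, hs⟩ : ∃ s, s = (k - i0) / 3 := ⟨_, rfl⟩
    rcases Nat.lt_or_ge (s + 3 + E) i with hsi | hsi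
    · -- the event is empty
      refine le_trans (gf_mono (Q := ∅) ?_) (le_trans (le_of_eq gf_empty) zero_le)
      rintro t ⟨h1, dir, j, h2, h3⟩
      exfalso
      have h4 := lvl_lip dir t j
      have h5 : |((lvl dir (vx oo up t j) : ℤ) : ℝ)| ≤ 2 * j := by
        rw [← Int.cast_abs]
        exact_mod_cast h4
      have h6 : (j : ℝ) ≤ n := by exact_mod_cast h2
      have h7 := hup (k + 1)
      have h8 : C * (2 : ℝ) ^ (4 / 3 * ((k + 1 : ℕ) : ℝ)) ≤ |C| * (2 : ℝ) ^ (4 / 3 * ((k + 1 : ℕ) : ℝ)) :=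
        mul_le_mul_of_nonneg_right (le_abs_self C) (by positivity)
      have h9 : (2 : ℝ) ^ (4 / 3 * ((k + 1 : ℕ) : ℝ)) * 2 ^ b ≤ (2 : ℝ) ^ i * 2 ^ k := by
        rw [← Real.rpow_natCast, ← Real.rpow_natCast, ← Real.rpow_natCast, ← Real.rpow_add (by norm_num),
          ← Real.rpow_add (by norm_num)]
        apply Real.rpow_le_rpow_of_exponent_le (by norm_num)
        have g1 : k ≤ 3 * s + i0 + 2 := by omega
        have g2 : (k : ℝ) ≤ 3 * s + i0 + 2 := by exact_mod_cast g1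
        have g3 : (s : ℝ) + 3 + E < i := by exact_mod_cast hsi
        have g4 : (E : ℝ) = i0 + b + 3 := by
          rw [hE]
          push_cast
          ring
        have g5 : (0 : ℝ) ≤ i0 := Nat.cast_nonneg _
        have g6 : (0 : ℝ) ≤ b := Nat.cast_nonneg _
        push_cast
        linarith
      have h10 : (0 : ℝ) < (2 : ℝ) ^ (4 / 3 * ((k + 1 : ℕ) : ℝ)) := by positivity
      have h11 : 8 * |C| * (2 : ℝ) ^ (4 / 3 * ((k + 1 : ℕ) : ℝ)) < (2 : ℝ) ^ i * 2 ^ k := by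
        refine lt_of_lt_of_le (mul_lt_mul_of_pos_right hb h10) ?_
        rw [mul_comm]
        exact h9
      have h12 : 0 ≤ |C| * (2 : ℝ) ^ (4 / 3 * ((k + 1 : ℕ) : ℝ)) := by positivity
      nlinarith
    · -- the last box
      have hss : {t | t ∈ SawN n ∧ t ∉ WL (k + (i - 3))} ⊆ {t | t ∈ SawN n ∧ t ∉ WL (k + s)} := by
        rintro t ⟨h1, h2⟩
        exact ⟨h1, fun h => h2 (WL_mono (by omega) h)⟩
      refine (gf_mono (hbox.trans hss)).trans ((hout k s n (by omega) (by omega) hn1 hn2).trans (hKA _ ?_))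
      rw [hc, div_mul_eq_mul_div, mul_div_assoc]
      refine mul_le_mul_of_nonneg_left ?_ hlog.le
      rw [div_le_iff₀ (by positivity)]
      push_cast
      rw [← pow_add, show (16 : ℝ) = 2 ^ 4 by norm_num, ← pow_mul]
      exact pow_le_pow_right₀ (by norm_num) (by omega)

end FIS

end HexObs
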