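import Pool.Agent.FIS.FishM
import Pool.Agent.VF.SharpZ
import Pool.Agent.VF.MeanZ

/-!
FIS (the tail exponent 4): the upper side of the tail, no hypothesis.
-/

set_option autoImplicit false

namespace HexObs

namespace FIS

/-- **the upper side of the tail, every n, no hypothesis** -/
theorem fishX_M : NTW.FishX (fun k => PW.mZ (2 ^ k)) := by
  obtain ⟨C, _, h⟩ := VF.mUp VF.sharpZ
  exact fishX_G (VF.mLow VF.sharpZ) ⟨C, h⟩

end FIS

end HexObs
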