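import Pool.Agent.VF.XiLow
import Pool.Agent.NTA.LQWord
import Pool.Agent.SDN.NormO
import Pool.Agent.EN.EspB

/-!
FIS (lower side of the modulus): free bridges without a group of N short first passage words.
-/

set_option autoImplicit false

namespace HexObs

namespace FIS

open Finset TS SDN NTW NTA

open scoped ENNReal

/-- Z starts with r words of S -/
def StS (S : Set (List Bool)) : ℕ → List Bool → Prop
  | 0, Z => Z ∈ BU
  | r + 1, Z => ∃ Y ∈ S, ∃ Z', Z = Y ++ Z' ∧ StS S r Z'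

/-- Z contains N consecutive words of S behind a cut level -/
def StrS (S : Set (List Bool)) (N : ℕ) (Z : List Bool) : Prop := ∃ A ∈ BU, ∃ Z', Z = A ++ Z' ∧ StS S N Z'

lemma nil_BU : ([] : List Bool) ∈ BU := ⟨0, nil_mem_Brd⟩

lemma FCW_BU {T : ℕ} {Y : List Bool} (h : Y ∈ FCW T) : Y ∈ BU := by
  obtain ⟨j, hj⟩ := h
  exact ⟨j, hj.1⟩

/-- the step: the first passage word of Z -/
lemma grp_step {T0 N n r : ℕ} {S : Set (List Bool)} :
    gf {Z | (∃ h, h ≤ n ∧ Z ∈ Brd h) ∧ ¬ StrS S N Z ∧ ¬ StS S (r + 1) Z} ≤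
      gf {Z | ∃ h, h < T0 ∧ Z ∈ Brd h} +
      (gf S * gf {Z | (∃ h, h ≤ n ∧ Z ∈ Brd h) ∧ ¬ StrS S N Z ∧ ¬ StS S r Z} +
      gf (FCW T0 \ S) * gf {Z | (∃ h, h ≤ n ∧ Z ∈ Brd h) ∧ ¬ StrS S N Z}) := by
  have hsub : {Z | (∃ h, h ≤ n ∧ Z ∈ Brd h) ∧ ¬ StrS S N Z ∧ ¬ StS S (r + 1) Z} ⊆
      {Z | ∃ h, h < T0 ∧ Z ∈ Brd h} ∪
      ({Z | ∃ a ∈ S, ∃ b ∈ {Z | (∃ h, h ≤ n ∧ Z ∈ Brd h) ∧ ¬ StrS S N Z ∧ ¬ StS S r Z}, Z = a ++ b} ∪
      {Z | ∃ a ∈ FCW T0 \ S, ∃ b ∈ {Z | (∃ h, h ≤ n ∧ Z ∈ Brd h) ∧ ¬ StrS S N Z}, Z = a ++ b}) := by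
    rintro Z ⟨⟨h, hn, hZ⟩, h1, h2⟩
    rcases Nat.lt_or_ge h T0 with h3 | h3
    · exact Or.inl ⟨h, h3, hZ⟩
    right
    obtain ⟨j, a, u, h4, h5, ha, hu, rfl⟩ := FC_dec h3 hZ
    have haB : a ∈ BU := ⟨j, ha.1⟩
    have hstr : ¬ StrS S N u := by
      rintro ⟨A, hA, Z', rfl, h6⟩
      exact h1 ⟨a ++ A, NTA.LQ.BU_app haB hA, Z', by rw [List.append_assoc], h6⟩
    by_cases haS : a ∈ S
    · left
      refine ⟨a, haS, u, ⟨⟨h - j, by omega, hu⟩, hstr, fun h6 => h2 ⟨a, haS, u, rfl, h6⟩⟩, rfl⟩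
    · right
      exact ⟨a, ⟨⟨j, ha⟩, haS⟩, u, ⟨⟨h - j, by omega, hu⟩, hstr⟩, rfl⟩
  refine (gf_mono hsub).trans ((gf_union_le _ _).trans (add_le_add le_rfl ((gf_union_le _ _).trans
    (add_le_add (gf_le_mul fun t ht => ht) (gf_le_mul fun t ht => ht)))))

lemma gf_fin (n : ℕ) : gf {Z | ∃ h, h ≤ n ∧ Z ∈ Brd h} ≤ ENNReal.ofReal (UU n) := by
  have h1 : {Z | ∃ h, h ≤ n ∧ Z ∈ Brd h} ⊆ ⋃ h : Fin (n + 1), Brd h.1 := by
    rintro Z ⟨h, hn, hZ⟩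
    exact Set.mem_iUnion.2 ⟨⟨h, by omega⟩, hZ⟩
  refine (gf_mono h1).trans ((Crw.gf_iUnion_le _).trans ?_)
  rw [tsum_fintype]
  unfold UU
  rw [ENNReal.ofReal_sum_of_nonneg (f := uu) (fun t _ => ENNReal.toReal_nonneg), ← Fin.sum_univ_eq_sum_range
    (fun t => ENNReal.ofReal (uu t)) (n + 1)]
  exact Finset.sum_le_sum fun h _ => le_of_eq (NO_gf h.1)

lemma gf_low (T0 : ℕ) : gf {Z | ∃ h, h < T0 ∧ Z ∈ Brd h} ≤ ENNReal.ofReal (UU T0) := by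
  refine (gf_mono ?_).trans (gf_fin T0)
  rintro Z ⟨h, h1, h2⟩
  exact ⟨h, h1.le, h2⟩

/-- **the free bridges without a group of N words of S** -/
theorem grp_mass {T0 N n : ℕ} {S : Set (List Bool)} (hS : S ⊆ FCW T0) :
    gf S ^ N * gf {Z | (∃ h, h ≤ n ∧ Z ∈ Brd h) ∧ ¬ StrS S N Z} ≤ N * ENNReal.ofReal (UU T0) := by
  obtain ⟨f, hf⟩ : ∃ f : ℝ≥0∞, f = gf {Z | (∃ h, h ≤ n ∧ Z ∈ Brd h) ∧ ¬ StrS S N Z} := ⟨_, rfl⟩
  obtain ⟨U0, hU0⟩ : ∃ U0 : ℝ≥0∞, U0 = ENNReal.ofReal (UU T0) := ⟨_, rfl⟩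
  have hftop : f ≠ ⊤ := by
    rw [hf]
    refine ne_top_of_le_ne_top ENNReal.ofReal_ne_top ((gf_mono ?_).trans (gf_fin n))
    rintro Z ⟨h, -⟩
    exact h
  have hF : gf S + gf (FCW T0 \ S) = 1 := by
    have h1 : gf (FCW T0) = 1 := by
      rw [← tsum_FCW T0]
      unfold gf
      exact tsum_subtype (FCW T0) wE
    rw [← h1]
    have h2 : ∀ A : Set (List Bool), gf A = ∑' t : List Bool, A.indicator wE t := fun A => tsum_subtype A wE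
    rw [h2 S, h2 (FCW T0 \ S), h2 (FCW T0), ← ENNReal.tsum_add]
    refine tsum_congr fun t => ?_
    by_cases ht : t ∈ S
    · rw [Set.indicator_of_mem ht, Set.indicator_of_notMem (fun h => h.2 ht), Set.indicator_of_mem (hS ht), add_zero]
    · rw [Set.indicator_of_notMem ht, zero_add]
      by_cases ht2 : t ∈ FCW T0
      · rw [Set.indicator_of_mem ht2, Set.indicator_of_mem (show t ∈ FCW T0 \ S from ⟨ht2, ht⟩)]
      · rw [Set.indicator_of_notMem ht2, Set.indicator_of_notMem (fun h => ht2 h.1)]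
  have key : ∀ r : ℕ, gf {Z | (∃ h, h ≤ n ∧ Z ∈ Brd h) ∧ ¬ StrS S N Z ∧ ¬ StS S r Z} + gf S ^ r * f ≤ r * U0 + f := by
    intro r
    induction r with
    | zero =>
      have h1 : gf {Z | (∃ h, h ≤ n ∧ Z ∈ Brd h) ∧ ¬ StrS S N Z ∧ ¬ StS S 0 Z} ≤ 0 := by
        refine (gf_mono (Q := ∅) ?_).trans (le_of_eq ?_)
        · rintro Z ⟨⟨h, -, hZ⟩, -, h2⟩
          exact h2 ⟨h, hZ⟩
        · unfold gf
          simp
      rw [pow_zero, one_mul, Nat.cast_zero, zero_mul, zero_add]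
      calc _ ≤ 0 + f := add_le_add h1 le_rfl
        _ = f := zero_add f
    | succ r ih =>
      have h1 := grp_step (T0 := T0) (N := N) (n := n) (r := r) (S := S)
      rw [← hf] at h1
      have h2 := gf_low T0
      rw [← hU0] at h2
      calc gf {Z | (∃ h, h ≤ n ∧ Z ∈ Brd h) ∧ ¬ StrS S N Z ∧ ¬ StS S (r + 1) Z} + gf S ^ (r + 1) * f
          ≤ (U0 + (gf S * gf {Z | (∃ h, h ≤ n ∧ Z ∈ Brd h) ∧ ¬ StrS S N Z ∧ ¬ StS S r Z} + gf (FCW T0 \ S) * f)) +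
              gf S ^ (r + 1) * f := add_le_add (h1.trans (add_le_add h2 le_rfl)) le_rfl
        _ = U0 + gf (FCW T0 \ S) * f + gf S * (gf {Z | (∃ h, h ≤ n ∧ Z ∈ Brd h) ∧ ¬ StrS S N Z ∧ ¬ StS S r Z} +
              gf S ^ r * f) := by
            rw [pow_succ]
            ring
        _ ≤ U0 + gf (FCW T0 \ S) * f + gf S * (r * U0 + f) := add_le_add le_rfl (mul_le_mul_right ih _)
        _ ≤ U0 + gf (FCW T0 \ S) * f + (r * U0 + gf S * f) := by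
            refine add_le_add le_rfl ?_
            rw [mul_add]
            refine add_le_add ?_ le_rfl
            have h3 : gf S ≤ 1 := by
              rw [← hF]
              exact le_self_add
            calc gf S * (r * U0) ≤ 1 * (r * U0) := mul_le_mul_left h3 _
              _ = _ := one_mul _
        _ = (r + 1) * U0 + (gf S + gf (FCW T0 \ S)) * f := by ring
        _ = ((r + 1 : ℕ) : ℝ≥0∞) * U0 + f := by
            rw [hF, one_mul]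
            push_cast
            rfl
  have h1 := key N
  have h2 : f ≤ gf {Z | (∃ h, h ≤ n ∧ Z ∈ Brd h) ∧ ¬ StrS S N Z ∧ ¬ StS S N Z} := by
    rw [hf]
    refine gf_mono ?_
    rintro Z ⟨h3, h4⟩
    exact ⟨h3, h4, fun h5 => h4 ⟨[], nil_BU, Z, rfl, h5⟩⟩
  rw [← hf, ← hU0]
  have h3 : f + gf S ^ N * f ≤ f + N * U0 := by
    rw [add_comm f (N * U0)]
    exact (add_le_add h2 le_rfl).trans h1
  exact (ENNReal.add_le_add_iff_left hftop).1 h3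

end FIS

end HexObs
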