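import Pool.Agent.FIS.TsBr
import Pool.Agent.VF.XiUpA
import Pool.Agent.T2.FrameT
import Pool.Agent.SDN.SplitP
import Pool.Agent.SDN.Peierls2

/-!
FIS (the tail exponent 4): a short infix with a large displacement, with a polynomial loss.
-/

set_option autoImplicit false

namespace HexObs

namespace FIS

open Finset TS SDN NTW EN

open scoped ENNReal

/-- levels in another frame -/
lemma lvl_frame_back {c : Pt} (hc : c ∈ dirs) (p v : Pt) {M : ℤ}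
    (h0 : |lvl false v| ≤ M) (h1 : |lvl true v| ≤ M) (dir : Bool) :
    |lvl dir (p + mulE c v) - lvl dir p| ≤ 2 * M := by
  rw [abs_le] at h0 h1
  simp only [dirs, mem_insert, mem_singleton] at hc
  rw [abs_le]
  rcases hc with rfl | rfl | rfl | rfl | rfl | rfl <;> cases dir <;>
    simp only [lvl, hd, ip, up, mulE, Bool.false_eq_true, if_false, if_true, Prod.fst_add, Prod.snd_add] at h0 h1 ⊢ <;>
    constructor <;> omega

/-- the infix between two distant vertices leaves a box in its own frame -/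
lemma infix_Ext {t : List Bool} {a b K : ℕ} (hab : a ≤ b) (hb : b ≤ t.length) (hK : 4 ≤ K) {dir : Bool}
    (h : (2 : ℤ) ^ K ≤ |lvl dir (vx oo up t b) - lvl dir (vx oo up t a)|) :
    T2.Ext (K - 4) ((t.drop a).take (b - a)) := by
  obtain ⟨c, hc, -, h3⟩ := drop_frame' t a
  have hlen : ((t.drop a).take (b - a)).length = b - a := by
    rw [List.length_take, List.length_drop]
    omega
  have hv : vx oo up ((t.drop a).take (b - a)) (b - a) = vx oo up (t.drop a) (b - a) := by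
    have := vx_append (v0 := oo) (d0 := up) (t := (t.drop a).take (b - a)) (s := (t.drop a).drop (b - a)) (i := b - a)
      (by rw [hlen]; omega)
    rw [List.take_append_drop] at this
    exact this.symm
  refine ⟨b - a, by rw [hlen], ?_⟩
  by_contra hcon
  push Not at hcon
  rw [hv] at hcon
  have hp : (2 : ℤ) ^ K = 16 * 2 ^ (K - 4) := by
    rw [show (16 : ℤ) = 2 ^ 4 by norm_num, ← pow_add]
    congr 1
    omega
  have hp0 : (1 : ℤ) ≤ 2 ^ (K - 4) := one_le_pow₀ (by norm_num)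
  have key : ∀ dir', |lvl dir' (vx oo up (t.drop a) (b - a))| ≤ 3 * 2 ^ (K - 4) := by
    intro dir'
    have h1 := hcon dir'
    unfold row at h1
    rw [abs_lt] at h1
    rw [abs_le]
    constructor <;> omega
  have h5 := lvl_frame_back hc (vx oo up t a) _ (key false) (key true) dir
  rw [← h3 (b - a), show a + (b - a) = b by omega] at h5
  omega

/-- a short infix with a large displacement -/
lemma inf_le (N x K : ℕ) (hK : 4 ≤ K) :
    gf {t | t ∈ SAL N ∧ ∃ a b : ℕ, a ≤ b ∧ b ≤ t.length ∧ b - a ≤ x ∧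
      ∃ dir : Bool, (2 : ℤ) ^ K ≤ |lvl dir (vx oo up t b) - lvl dir (vx oo up t a)|} ≤
    gf (SAL N) ^ 2 * gf {s | s ∈ SAL x ∧ T2.Ext (K - 4) s} := by
  have h1 : gf {t | t ∈ SAL N ∧ ∃ a b : ℕ, a ≤ b ∧ b ≤ t.length ∧ b - a ≤ x ∧
      ∃ dir : Bool, (2 : ℤ) ^ K ≤ |lvl dir (vx oo up t b) - lvl dir (vx oo up t a)|} ≤
      gf (SAL N) * gf {s | ∃ w ∈ {s | s ∈ SAL x ∧ T2.Ext (K - 4) s}, ∃ v ∈ SAL N, s = w ++ v} := by
    refine gf_le_mul ?_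
    rintro t ⟨ht, a, b, hab, hb, hx, dir, h⟩
    refine ⟨t.take a, ⟨SA_take ht.1 _, ?_⟩, t.drop a, ⟨(t.drop a).take (b - a), ⟨⟨SA_take (SA_drop ht.1 _) _, ?_⟩, ?_⟩,
      (t.drop a).drop (b - a), ⟨SA_drop (SA_drop ht.1 _) _, ?_⟩, (List.take_append_drop _ _).symm⟩,
      (List.take_append_drop _ _).symm⟩
    · have := ht.2
      rw [List.length_take]
      omega
    · rw [List.length_take]
      omega
    · exact infix_Ext hab hb hK h
    · have := ht.2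
      rw [List.length_drop, List.length_drop]
      omega
  have h2 : gf {s | ∃ w ∈ {s | s ∈ SAL x ∧ T2.Ext (K - 4) s}, ∃ v ∈ SAL N, s = w ++ v} ≤
      gf {s | s ∈ SAL x ∧ T2.Ext (K - 4) s} * gf (SAL N) := gf_le_mul fun t h => h
  refine h1.trans ((mul_le_mul_right h2 _).trans (le_of_eq ?_))
  rw [pow_two]
  ring

/-- the walks with at most N letters, N small against a power of 2 ^ k -/
lemma sal_pow (b : ℕ) : ∃ B : ℕ, ∀ k N : ℕ, N + 1 ≤ 2 ^ (b * (k + 1)) → gf (SAL N) ≤ ENNReal.ofReal (2 ^ (B * (k + 1))) := by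
  obtain ⟨C, hC, hpoly⟩ := SAL_poly
  obtain ⟨e, he⟩ : ∃ e : ℕ, C < 2 ^ e := pow_unbounded_of_one_lt C one_lt_two
  obtain ⟨f, hf⟩ : ∃ f : ℕ, C ≤ f := exists_nat_ge C
  refine ⟨b * f + e, fun k N hN => ?_⟩
  have h1 : gf (SAL N) ≤ gf (SAL (N + 1)) := gf_mono fun t ht => ⟨ht.1, by have := ht.2; omega⟩
  refine h1.trans ((hpoly (N + 1) (by omega)).trans (ENNReal.ofReal_le_ofReal ?_))
  have h2 : ((N + 1 : ℕ) : ℝ) ≤ (2 : ℝ) ^ (b * (k + 1)) := by exact_mod_cast hN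
  have h3 : (1 : ℝ) ≤ 2 ^ (b * (k + 1)) := one_le_pow₀ (by norm_num)
  have h4 : ((N + 1 : ℕ) : ℝ) ^ C ≤ (2 : ℝ) ^ (b * (k + 1) * f) := by
    calc ((N + 1 : ℕ) : ℝ) ^ C ≤ ((2 : ℝ) ^ (b * (k + 1))) ^ C :=
          Real.rpow_le_rpow (Nat.cast_nonneg _) h2 hC.le
      _ ≤ ((2 : ℝ) ^ (b * (k + 1))) ^ (f : ℝ) := Real.rpow_le_rpow_of_exponent_le h3 hf
      _ = _ := by rw [Real.rpow_natCast, ← pow_mul]
  calc ((N + 1 : ℕ) : ℝ) ^ C * C ≤ (2 : ℝ) ^ (b * (k + 1) * f) * 2 ^ e :=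
        mul_le_mul h4 he.le hC.le (by positivity)
    _ = 2 ^ (b * (k + 1) * f + e) := by rw [pow_add]
    _ ≤ _ := by
        refine pow_le_pow_right₀ (by norm_num) ?_
        nlinarith [Nat.zero_le (e * k)]

/-- the polynomial factor of the words that leave a box -/
lemma ext_pow (K0 A B0 : ℝ) (hK : 1 ≤ K0) (hA : 1 ≤ A) (hB : 0 ≤ B0) (b : ℕ) : ∃ B : ℕ, ∀ k N : ℕ,
    N + 1 ≤ 2 ^ (b * (k + 1)) → K0 * (1 + A * ((N : ℝ) + 1) ^ B0) ^ 2 ≤ 2 ^ (B * (k + 1)) := by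
  obtain ⟨e, he⟩ : ∃ e : ℕ, K0 * (2 * A) ^ 2 < 2 ^ e := pow_unbounded_of_one_lt _ one_lt_two
  obtain ⟨f, hf⟩ : ∃ f : ℕ, B0 ≤ f := exists_nat_ge B0
  refine ⟨2 * (b * f) + e, fun k N hN => ?_⟩
  have h2 : (N : ℝ) + 1 ≤ (2 : ℝ) ^ (b * (k + 1)) := by exact_mod_cast hN
  have h3 : (1 : ℝ) ≤ 2 ^ (b * (k + 1)) := one_le_pow₀ (by norm_num)
  have h4 : ((N : ℝ) + 1) ^ B0 ≤ (2 : ℝ) ^ (b * (k + 1) * f) := by
    calc ((N : ℝ) + 1) ^ B0 ≤ ((2 : ℝ) ^ (b * (k + 1))) ^ B0 :=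
          Real.rpow_le_rpow (by positivity) h2 hB
      _ ≤ ((2 : ℝ) ^ (b * (k + 1))) ^ (f : ℝ) := Real.rpow_le_rpow_of_exponent_le h3 hf
      _ = _ := by rw [Real.rpow_natCast, ← pow_mul]
  have h5 : (1 : ℝ) ≤ (2 : ℝ) ^ (b * (k + 1) * f) := one_le_pow₀ (by norm_num)
  have h6 : 1 + A * ((N : ℝ) + 1) ^ B0 ≤ 2 * A * 2 ^ (b * (k + 1) * f) := by
    have h7 : A * ((N : ℝ) + 1) ^ B0 ≤ A * 2 ^ (b * (k + 1) * f) := by gcongr
    nlinarith
  calc K0 * (1 + A * ((N : ℝ) + 1) ^ B0) ^ 2 ≤ K0 * (2 * A * 2 ^ (b * (k + 1) * f)) ^ 2 := by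
        gcongr
    _ = K0 * (2 * A) ^ 2 * (2 ^ (b * (k + 1) * f)) ^ 2 := by ring
    _ ≤ 2 ^ e * (2 ^ (b * (k + 1) * f)) ^ 2 := by gcongr
    _ = 2 ^ (e + b * (k + 1) * f * 2) := by rw [← pow_mul, ← pow_add]
    _ ≤ _ := by
        refine pow_le_pow_right₀ (by norm_num) ?_
        nlinarith [Nat.zero_le (e * k)]

/-- **a short infix with a large displacement, polynomial loss** -/
theorem inf_lossy {m : ℕ → ℝ} (hlo : ∃ c : ℝ, 0 < c ∧ ∀ k : ℕ, c * (2 : ℝ) ^ (4 / 3 * (k : ℝ)) ≤ m k)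
    (hup : ∃ C : ℝ, ∀ k : ℕ, m k ≤ C * (2 : ℝ) ^ (4 / 3 * (k : ℝ))) (hA : ASm m) :
    ∃ B c3 c2 : ℕ, ∀ (k k' i N x : ℕ), c3 ≤ i → 3 * i + c2 ≤ k' → (x : ℝ) ≤ m (k' + 1) → x ≤ N → (N : ℝ) ≤ m (k + 1) →
    gf {t | t ∈ SAL N ∧ ∃ a b : ℕ, a ≤ b ∧ b ≤ t.length ∧ b - a ≤ x ∧
      ∃ dir : Bool, (2 : ℤ) ^ (k' + i) ≤ |lvl dir (vx oo up t b) - lvl dir (vx oo up t a)|} ≤
      ENNReal.ofReal (2 ^ (B * (k + 1)) * (1 / 2) ^ (2 ^ (4 * i - c3))) := by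
  obtain ⟨c3, c2, h53, hbr⟩ := ts_br hlo hup hA 5
  obtain ⟨C, hC⟩ := hup
  obtain ⟨K0, A, B0, hK0, hA1, hB0, hext⟩ := VF.ext_le
  obtain ⟨e, he⟩ : ∃ e : ℕ, |C| + 1 < 2 ^ e := pow_unbounded_of_one_lt _ one_lt_two
  obtain ⟨b, hb⟩ : ∃ b : ℕ, b = e + 2 := ⟨_, rfl⟩
  obtain ⟨B1, hB1⟩ := sal_pow b
  obtain ⟨B2, hB2⟩ := ext_pow K0 A B0 hK0 hA1 hB0 b
  refine ⟨2 * B1 + B2 + b + 6, c3, c2 + 8, fun k k' i N x hi hk' hx hxN hN => ?_⟩
  have hNb : N + 1 ≤ 2 ^ (b * (k + 1)) := by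
    have h1 : (N : ℝ) + 1 ≤ 2 ^ (b * (k + 1)) := by
      have e1 : (2 : ℝ) ^ (4 / 3 * ((k + 1 : ℕ) : ℝ)) ≤ 2 ^ (2 * (k + 1)) := by
        rw [← Real.rpow_natCast]
        refine Real.rpow_le_rpow_of_exponent_le (by norm_num) ?_
        push_cast
        have : (0 : ℝ) ≤ k := Nat.cast_nonneg _
        linarith
      have e2 : (0 : ℝ) < (2 : ℝ) ^ (4 / 3 * ((k + 1 : ℕ) : ℝ)) := by positivity
      have e3 : (1 : ℝ) ≤ 2 ^ (2 * (k + 1)) := one_le_pow₀ (by norm_num)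
      have e4 : (N : ℝ) ≤ |C| * 2 ^ (2 * (k + 1)) := by
        calc (N : ℝ) ≤ m (k + 1) := hN
          _ ≤ C * (2 : ℝ) ^ (4 / 3 * ((k + 1 : ℕ) : ℝ)) := hC (k + 1)
          _ ≤ |C| * (2 : ℝ) ^ (4 / 3 * ((k + 1 : ℕ) : ℝ)) := mul_le_mul_of_nonneg_right (le_abs_self _) e2.le
          _ ≤ _ := mul_le_mul_of_nonneg_left e1 (abs_nonneg _)
      calc (N : ℝ) + 1 ≤ |C| * 2 ^ (2 * (k + 1)) + 2 ^ (2 * (k + 1)) := by linarith
        _ = (|C| + 1) * 2 ^ (2 * (k + 1)) := by ring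
        _ ≤ 2 ^ e * 2 ^ (2 * (k + 1)) := by gcongr
        _ = 2 ^ (e + 2 * (k + 1)) := by rw [← pow_add]
        _ ≤ _ := by
            refine pow_le_pow_right₀ (by norm_num) ?_
            rw [hb]
            nlinarith [Nat.zero_le (e * k)]
    exact_mod_cast h1
  have hxb : x + 1 ≤ 2 ^ (b * (k + 1)) := by omega
  refine (inf_le N x (k' + i) (by omega)).trans ?_
  have h1 := hB1 k N hNb
  have h2 := (hext (k' + i - 4) x (by omega)).trans (mul_le_mul_left (ENNReal.ofReal_le_ofReal (hB2 k x hxb)) _)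
  -- the bridges
  have h3 : gf (VF.TBr (2 ^ (k' + i - 4 - 1)) x) ≤ ENNReal.ofReal (2 ^ ((b + 6) * (k + 1)) * (1 / 2) ^ (2 ^ (4 * i - c3))) := by
    by_cases hkb : k' ≤ b * (k + 1) + 4
    · have h4 : gf (VF.TBr (2 ^ (k' + i - 4 - 1)) x) ≤ ENNReal.ofReal (Ub k' / 2 ^ (2 ^ (4 * i - c3))) := by
        refine (gf_mono ?_).trans (hbr k' i (x : ℝ) hi (by omega) hx)
        rintro Z ⟨⟨T, hT, hZ⟩, hl⟩
        refine ⟨T, ?_, hZ, by exact_mod_cast hl⟩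
        rwa [show k' + i - 5 = k' + i - 4 - 1 by omega]
      refine h4.trans (ENNReal.ofReal_le_ofReal ?_)
      rw [div_eq_mul_one_div, one_div_pow]
      refine mul_le_mul_of_nonneg_right ((Ub_le k').trans ?_) (by positivity)
      refine pow_le_pow_right₀ (by norm_num) ?_
      nlinarith
    · rw [not_le] at hkb
      have h4 : VF.TBr (2 ^ (k' + i - 4 - 1)) x = ∅ := by
        refine Set.eq_empty_of_forall_notMem ?_
        rintro Z ⟨⟨T, hT, hZ⟩, hl⟩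
        have h5 := P2_aux.brd_len hZ
        have h6 : 2 ^ (b * (k + 1)) ≤ 2 ^ (k' + i - 4 - 1) := Nat.pow_le_pow_right (by norm_num) (by omega)
        omega
      rw [h4, show gf (∅ : Set (List Bool)) = 0 from ?_]
      · exact zero_le
      · unfold gf
        simp
  calc gf (SAL N) ^ 2 * gf {s | s ∈ SAL x ∧ T2.Ext (k' + i - 4) s} ≤
      ENNReal.ofReal (2 ^ (B1 * (k + 1))) ^ 2 * (ENNReal.ofReal (2 ^ (B2 * (k + 1))) *
        ENNReal.ofReal (2 ^ ((b + 6) * (k + 1)) * (1 / 2) ^ (2 ^ (4 * i - c3)))) :=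
        mul_le_mul' (pow_le_pow_left' h1 2) (h2.trans (mul_le_mul_right h3 _))
    _ ≤ _ := by
        rw [← ENNReal.ofReal_pow (by positivity), ← ENNReal.ofReal_mul (by positivity), ← ENNReal.ofReal_mul (by positivity)]
        refine ENNReal.ofReal_le_ofReal (le_of_eq ?_)
        rw [← pow_mul, ← mul_assoc, ← mul_assoc, ← pow_add, ← pow_add]
        congr 2
        ring

end FIS

end HexObs
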