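import Pool.Agent.NTS.ExDefs

/-!
FIS: the lower side of the modulus of continuity, literal.
-/

set_option autoImplicit false

namespace HexObs

namespace NTW

open Finset TS SDN

open scoped ENNReal

/-- at the depth j below the scale of the walk there is a displacement of order j 2 ^ (k - j) in a time of order j m (k - j),
except on a set of relative weight 2 ^ (- c j), every n -/
def LevyX (m : ℕ → ℝ) : Prop := ∃ (c c1 C K : ℝ) (j0 : ℕ), 0 < c ∧ 0 < c1 ∧ 0 < C ∧ 0 < K ∧ ∀ j : ℕ, j0 ≤ j →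
  ∃ k0 : ℕ, ∀ k n : ℕ, k0 ≤ k → m k ≤ n → n < m (k + 1) →
  gf {t | t ∈ SawN n ∧ ¬ ∃ (dir : Bool) (a b : ℕ), a ≤ b ∧ b ≤ n ∧ (b : ℝ) - a ≤ C * j * m (k - j) ∧
    c1 * j * 2 ^ (k - j) ≤ |((lvl dir (vx oo up t b) - lvl dir (vx oo up t a) : ℤ) : ℝ)|} ≤
    ENNReal.ofReal (K * (2 : ℝ) ^ (-(c * j))) * nuX m k

end NTW

end HexObs
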