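import Pool.Agent.EN.EspB
import Pool.Agent.EN.ExDir

/-!
FIS: a run of J leaves, one of them in a class of small norm, at a free depth g, exactly n letters.
-/

set_option autoImplicit false

namespace HexObs

namespace FIS

open Finset TS SDN NTW NTA EN

open scoped ENNReal

/-- **a run at the scale k - g with a leaf of a class S of small norm** -/
theorem run_w {m : ℕ → ℝ} (hm : MLow m) (hd : MUp m) (hG : GBU m) : ∃ (J kk : ℕ) (W F : ℝ),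
    1 ≤ J ∧ 1 ≤ W ∧ 1 ≤ F ∧ ∀ (d : Fin 3) (k i n g : ℕ) (S : Set (List Bool)) (ε : ℝ), 6 ≤ g → g + kk ≤ k → 0 < ε →
    SmD DmJ (k - g) {h | h ∈ BrR (2 ^ (k - g + 4)) (2 ^ (k + i + 3)) ∧ h ∈ S} ε →
    gf {t | t.length = n ∧ t ∈ WL (k + i) ∧
      HR d (k - g) {ms | ms ∈ RJ (k - g) (2 ^ (k + i + 3)) J ∧ ∃ h ∈ ms, h ∈ S} t} ≤
      ENNReal.ofReal (F * W ^ (g + i) * ε * (Ub k / m k)) * Xb k ^ 2 := by
  classical
  obtain ⟨J0, C2, k0, hC2, hG⟩ := hG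
  obtain ⟨Ce, ke, hCe, hrun⟩ := runXn
  obtain ⟨K, hK, hbox⟩ := smD_box
  obtain ⟨Cm, hCm, hmu⟩ := hd.pow
  obtain ⟨Dx, hDx, hDX⟩ := Xb_pow
  have hCe0 : 0 < Ce := by linarith
  have hC20 : 0 < C2 := by linarith
  have hCm0 : 0 < Cm := by linarith
  have hK0 : 0 < K := by linarith
  have hDx0 : 0 < Dx := by linarith
  obtain ⟨W, hW⟩ : ∃ W : ℝ, W = Ce * 2 ^ (J0 + 2) * C2 * Cm * 2 * Dx ^ 2 := ⟨_, rfl⟩
  have hW1 : 1 ≤ W := by
    rw [hW]
    have a4 : (1 : ℝ) ≤ 2 ^ (J0 + 2) := one_le_pow₀ (by norm_num)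
    have a6 : 1 ≤ Dx ^ 2 := one_le_pow₀ hDx
    exact one_le_mul_of_one_le_of_one_le (one_le_mul_of_one_le_of_one_le (one_le_mul_of_one_le_of_one_le
      (one_le_mul_of_one_le_of_one_le (one_le_mul_of_one_le_of_one_le hCe a4) hC2) hCm) (by norm_num)) a6
  obtain ⟨F, hF⟩ : ∃ F : ℝ, F = Ce ^ 2 * (4 * K) ^ (J0 + 2) * 2 ^ (J0 + 2) * C2 ^ 2 * 4 * Dx ^ 4 := ⟨_, rfl⟩
  have hF1 : 1 ≤ F := by
    rw [hF]
    have a1 : 1 ≤ Ce ^ 2 := one_le_pow₀ hCe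
    have a3 : 1 ≤ (4 * K) ^ (J0 + 2) := one_le_pow₀ (by linarith)
    have a4 : (1 : ℝ) ≤ 2 ^ (J0 + 2) := one_le_pow₀ (by norm_num)
    have a5 : 1 ≤ C2 ^ 2 := one_le_pow₀ hC2
    have a6 : 1 ≤ Dx ^ 4 := one_le_pow₀ hDx
    exact one_le_mul_of_one_le_of_one_le (one_le_mul_of_one_le_of_one_le (one_le_mul_of_one_le_of_one_le
      (one_le_mul_of_one_le_of_one_le (one_le_mul_of_one_le_of_one_le a1 a3) a4) a5) (by norm_num)) a6
  refine ⟨J0 + 2, k0 + ke, W, F, by omega, hW1, hF1, fun d k i n g S ε hg hk hε0 hS => ?_⟩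
  obtain ⟨s, hs⟩ : ∃ s, s = k - g := ⟨_, rfl⟩
  rw [← hs] at hS ⊢
  obtain ⟨mu, hmu1⟩ : ∃ mu, mu = g + i + 1 := ⟨_, rfl⟩
  have hsm : s + mu + 2 = k + i + 3 := by omega
  have hms := hm.pos s
  have hmk := hm.pos k
  have hU := Ub_pos k
  have hq : 1 ≤ K * 2 ^ mu := one_le_mul_of_one_le_of_one_le hK (one_le_pow₀ (by norm_num))
  obtain ⟨δ, hδ⟩ : ∃ δ : ℝ, δ = (4 * (K * 2 ^ mu)) ^ (J0 + 2) * (ε * (C2 ^ (mu + 1) / m s)) := ⟨_, rfl⟩
  have hδ0 : 0 < δ := by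
    rw [hδ]
    positivity
  have h1 := smRX_marks dmP inH_box hε0.le hq (hG s (by omega) mu) (hbox s mu) hS (J0 + 2) 1
  rw [pow_one, ← hδ, hsm] at h1
  have h2 : SmRX DmJ s {ms | ms ∈ RJ s (2 ^ (k + i + 3)) (J0 + 2) ∧ ∃ h ∈ ms, h ∈ S} δ := by
    refine h1.anti ?_
    rintro gs ⟨⟨g2, g3⟩, h, hh, g4⟩
    refine ⟨g2, by omega, g3, ?_⟩
    exact List.length_pos_of_mem (a := h) (List.mem_filter.2 ⟨hh,
      @decide_eq_true _ (Classical.propDecidable _) ⟨g3 h hh, g4⟩⟩)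
  have h3 := hrun (dr d) s (g + i + 2) n _ δ (by omega) (by omega) hδ0 h2
  have h4 := gf_HR d s (k + i) {ms | ms ∈ RJ s (2 ^ (k + i + 3)) (J0 + 2) ∧ ∃ h ∈ ms, h ∈ S} (fun l => l = n)
  refine (h4.trans ((gf_mono ?_).trans h3)).trans ?_
  · rintro t ⟨h5, h6, h7⟩
    refine ⟨h5, ?_, h7⟩
    rwa [show s + (g + i + 2) = k + i + 2 by omega]
  rw [show s + (g + i + 2) = k + (i + 2) by omega]
  -- the numbers
  have hUK : Ub (k + (i + 2)) ≤ 2 ^ (i + 2) * Ub k := UU_ratio_up k (i + 2)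
  have hms2 : m k ≤ Cm ^ g * m s := by
    have := hmu s g
    rwa [show s + g = k by omega] at this
  have hUK0 := Ub_pos (k + (i + 2))
  calc ENNReal.ofReal (Ce ^ (g + i + 2) * δ * Ub (k + (i + 2))) * Xb (k + (i + 2)) ^ 2
      ≤ ENNReal.ofReal (Ce ^ (g + i + 2) * δ * Ub (k + (i + 2))) * (ENNReal.ofReal (Dx ^ (i + 2)) * Xb k) ^ 2 :=
        mul_le_mul_right (pow_le_pow_left' (hDX k (i + 2)) 2) _
    _ = ENNReal.ofReal (Ce ^ (g + i + 2) * δ * Ub (k + (i + 2)) * (Dx ^ (i + 2)) ^ 2) * Xb k ^ 2 := by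
        rw [mul_pow, ← ENNReal.ofReal_pow (by positivity), ← mul_assoc, ← ENNReal.ofReal_mul (by positivity)]
    _ ≤ _ := by
        refine mul_le_mul_left (ENNReal.ofReal_le_ofReal ?_) _
        have e1 : 1 / m s ≤ Cm ^ g / m k := by
          rw [div_le_div_iff₀ hms hmk, one_mul]
          exact hms2
        have f4 : Cm ^ g ≤ Cm ^ (g + i) := pow_le_pow_right₀ hCm (by omega)
        have f5 : (Dx ^ (i + 2)) ^ 2 ≤ Dx ^ 4 * (Dx ^ 2) ^ (g + i) := by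
          rw [← pow_mul, ← pow_mul, ← pow_add]
          exact pow_le_pow_right₀ hDx (by omega)
        have f6 : (2 : ℝ) ^ (i + 2) ≤ 4 * 2 ^ (g + i) := by
          calc (2 : ℝ) ^ (i + 2) ≤ 2 ^ (2 + (g + i)) := pow_le_pow_right₀ (by norm_num) (by omega)
            _ = 4 * 2 ^ (g + i) := by
                rw [pow_add]
                norm_num
        have f2 : (4 * (K * 2 ^ mu)) ^ (J0 + 2) = (4 * K) ^ (J0 + 2) * 2 ^ (J0 + 2) * (2 ^ (J0 + 2)) ^ (g + i) := by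
          have g1 : 4 * (K * (2 : ℝ) ^ mu) = 4 * K * 2 * 2 ^ (g + i) := by
            rw [hmu1, pow_succ]
            ring
          rw [g1, mul_pow (4 * K * 2), mul_pow (4 * K), ← pow_mul 2 (g + i), mul_comm (g + i) (J0 + 2), pow_mul]
        have f3 : C2 ^ (mu + 1) = C2 ^ 2 * C2 ^ (g + i) := by
          rw [hmu1, ← pow_add]
          congr 1
          ring
        have f1 : Ce ^ (g + i + 2) = Ce ^ 2 * Ce ^ (g + i) := by
          rw [← pow_add]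
          congr 1
          ring
        calc Ce ^ (g + i + 2) * δ * Ub (k + (i + 2)) * (Dx ^ (i + 2)) ^ 2
            = Ce ^ (g + i + 2) * (4 * (K * 2 ^ mu)) ^ (J0 + 2) * C2 ^ (mu + 1) * (Dx ^ (i + 2)) ^ 2 * (1 / m s) *
                Ub (k + (i + 2)) * ε := by
              rw [hδ]
              ring
          _ ≤ Ce ^ (g + i + 2) * (4 * (K * 2 ^ mu)) ^ (J0 + 2) * C2 ^ (mu + 1) * (Dx ^ 4 * (Dx ^ 2) ^ (g + i)) *
              (Cm ^ (g + i) / m k) * (4 * 2 ^ (g + i) * Ub k) * ε := by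
              have f7 : 1 / m s ≤ Cm ^ (g + i) / m k := e1.trans (div_le_div_of_nonneg_right f4 hmk.le)
              have f8 : Ub (k + (i + 2)) ≤ 4 * 2 ^ (g + i) * Ub k := hUK.trans (mul_le_mul_of_nonneg_right f6 hU.le)
              gcongr
          _ = F * W ^ (g + i) * ε * (Ub k / m k) := by
              rw [f1, f2, f3, hF, hW, mul_pow, mul_pow, mul_pow, mul_pow, mul_pow]
              ring

end FIS

end HexObs
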