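import Pool.Agent.FIS.LowW
import Pool.Agent.FIS.FewQ
import Pool.Agent.FIS.RunW
import Pool.Agent.FIS.LevyDefs
import Pool.Agent.EN.FactsX

/-!
FIS: the lower side of the modulus of continuity at exactly n letters.
-/

set_option autoImplicit false

namespace HexObs

namespace FIS

open Finset TS SDN NTW NTA EN

open scoped ENNReal

lemma hyst_mono {f : ℕ → ℤ} {n : ℕ} {R : ℤ} {m u : ℕ} {e : ℕ → ℕ} (h : Hyst f n R m u e) {a b : ℕ} (hab : a ≤ b)
    (hb : b ≤ m) : e a ≤ e b := by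
  obtain ⟨c, rfl⟩ := Nat.exists_eq_add_of_le hab
  induction c with
  | zero => exact le_rfl
  | succ c ih => exact (ih (by omega) (by omega)).trans (h.lt (a + c) (by omega)).le

/-- a run with a leaf that has a group of short words: a large displacement in a short time -/
lemma run_disp {S : Set (List Bool)} {T0 N0 N : ℕ} (hS : ∀ Y ∈ S, Y ∈ FCW T0 ∧ Y.length ≤ N0) {t : List Bool} (ht : t ∈ SA)
    {d : Fin 3} {s J : ℕ} {N' : ℕ} (hrun : HR d s (RJ s N' J) t)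
    (hno : ¬ ∃ (dir : Bool) (a b : ℕ), a ≤ b ∧ b ≤ t.length ∧ b - a ≤ N * N0 ∧
      ((N * T0 : ℕ) : ℤ) ≤ |lvl dir (vx oo up t b) - lvl dir (vx oo up t a)|) :
    HR d s {ms | ms ∈ RJ s N' J ∧ ∃ h ∈ ms, h ∈ {h | ¬ StrS S N h}} t := by
  obtain ⟨m, u, e, hF, l, d', h1, h2, h3, h4⟩ := hrun
  refine ⟨m, u, e, hF, l, d', h1, h2, h3, h4, lw (wd d t) (e (l + 0)) (e (l + 0 + 1)), ?_, ?_⟩
  · unfold lws
    exact List.mem_map.2 ⟨0, List.mem_range.2 (by omega), rfl⟩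
  · intro hstr
    apply hno
    obtain ⟨a, b, g1, g2, g3, g4⟩ := strS_disp hS hstr
    obtain ⟨σ, hσ, c1, c2, c3⟩ := SIM.GI.leaf_coord (wd_SA d ht) (by omega) hF (j := l + 0) (by omega) (by omega)
    obtain ⟨x, hx⟩ : ∃ x, x = e (l + 0) + 1 := ⟨_, rfl⟩
    have hle : e (l + 0 + 1) ≤ t.length := by
      have := (hyst_mono hF (show l + 0 + 1 ≤ m by omega) le_rfl).trans hF.le
      rwa [wd_length] at this
    have hxb : x + b ≤ t.length := by omega
    have e1 := (c3 a (by omega)).1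
    have e2 := (c3 b (by omega)).1
    rw [← hx] at e1 e2
    have e3 : SIM.lp (dr d) (wd d t) (x + a) = lv3 d (vx oo up t (x + a)) := lvl_wd d t (by omega)
    have e4 : SIM.lp (dr d) (wd d t) (x + b) = lv3 d (vx oo up t (x + b)) := lvl_wd d t (by omega)
    rw [e3] at e1
    rw [e4] at e2
    have e5 : 3 * ((N * T0 : ℕ) : ℤ) ≤ |lv3 d (vx oo up t (x + b)) - lv3 d (vx oo up t (x + a))| := by
      rw [e1, e2]
      rcases hσ with rfl | rfl
      · refine le_trans ?_ (le_abs_self _)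
        linarith
      · refine le_trans ?_ (neg_le_abs _)
        linarith
    have e6 : ∃ dir : Bool, ((N * T0 : ℕ) : ℤ) ≤ |lvl dir (vx oo up t (x + b)) - lvl dir (vx oo up t (x + a))| := by
      by_contra hc
      push Not at hc
      have k0 := hc false
      have k1 := hc true
      have k2 : 0 ≤ ((N * T0 : ℕ) : ℤ) := Int.natCast_nonneg _
      have hd : d = 0 ∨ d = 1 ∨ d = 2 := by
        fin_cases d
        · exact Or.inl rfl
        · exact Or.inr (Or.inl rfl)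
        · exact Or.inr (Or.inr rfl)
      rcases hd with rfl | rfl | rfl
      · rw [lv3_zero, lv3_zero] at e5
        omega
      · rw [lv3_one, lv3_one] at e5
        omega
      · rw [lv3_two, lv3_two] at e5
        rw [abs_lt] at k0 k1
        rcases abs_cases (-(lvl false (vx oo up t (x + b)) + lvl true (vx oo up t (x + b))) -
          -(lvl false (vx oo up t (x + a)) + lvl true (vx oo up t (x + a)))) with h | h <;> omega
    obtain ⟨dir, e7⟩ := e6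
    exact ⟨dir, x + a, x + b, by omega, hxb, by omega, e7⟩

/-- **the lower side of the modulus, every n** -/
theorem levyX_of {m : ℕ → ℝ} (hlo : ∃ c : ℝ, 0 < c ∧ ∀ k : ℕ, c * (2 : ℝ) ^ (4 / 3 * (k : ℝ)) ≤ m k) (hm : MLow m)
    (hd : MUp m) (hG : GBU m) (hX : ExtX m) (hS : ESPw m) (hML : ∃ C : ℝ, 0 < C ∧ T2.MeanLen (4 / 3) C) : LevyX m := by
  obtain ⟨J, kk, W, F, hJ, hW, hF, hrun⟩ := run_w hm hd hG
  obtain ⟨j1, A2, hA2, hfew⟩ := few_q hm hX hJ
  obtain ⟨K, c, hK, hc, hnorm⟩ := low_norm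
  obtain ⟨A5, i5, k5, hA5, hout⟩ := tail_out hS 4
  obtain ⟨θ, hθ, hUb⟩ := TS.UU_ratio_down
  obtain ⟨CL, hCL, hML⟩ := hML
  obtain ⟨K0, hK0, hmass⟩ := VF.mass
  obtain ⟨cm, hcm, hlo⟩ := hlo
  have hA20 : 0 < A2 := by linarith
  have hK00 : 0 < K := by linarith
  have hF0 : 0 < F := by linarith
  have hW0 : 0 < W := by linarith
  -- exponents
  obtain ⟨w, hw⟩ : ∃ w : ℕ, W * 4 < 2 ^ w := two_pow_ge _
  obtain ⟨r1, hr1⟩ : ∃ r1 : ℕ, ((5 * w + 1 : ℕ) : ℝ) / c ≤ r1 := exists_nat_ge _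
  obtain ⟨D0, hD0⟩ : ∃ D0 : ℕ, ((5 * w + 2 * r1 + 3 : ℕ) : ℝ) / θ ≤ D0 := exists_nat_ge _
  obtain ⟨D, hD⟩ : ∃ D, D = D0 + 5 + r1 := ⟨_, rfl⟩
  rw [div_le_iff₀ hc] at hr1
  rw [div_le_iff₀ hθ] at hD0
  -- the constant of the final bound
  obtain ⟨E, hE⟩ : ∃ E : ℝ, E = 16 * A5 + A2 + 2 * (F * (K * 2 ^ (8 * w) * (1 + 2 ^ (2 * r1) * 128 * (2 : ℝ) ^ (θ * 5)))) := ⟨_, rfl⟩
  have hE0 : 0 < E := by
    rw [hE]
    positivity
  refine ⟨1 / D, 1 / (2 * D), (4 * CL * (K0 : ℝ) ^ (4 / 3 : ℝ)) / cm + 1, 2 * E, D * (8 * (i5 + 2 * j1 + 4) + 16 + r1), ?_, ?_,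
    ?_, by positivity, fun j hj => ?_⟩
  · have : (0 : ℝ) < D := by
      rw [hD]
      positivity
    positivity
  · have : (0 : ℝ) < D := by
      rw [hD]
      positivity
    positivity
  · positivity
  have hDpos : 0 < D := by omega
  obtain ⟨q, hq⟩ : ∃ q, q = j / D := ⟨_, rfl⟩
  have hqj : D * q ≤ j := by
    rw [hq]
    exact Nat.mul_div_le j D
  have hjq : j < D * (q + 1) := by
    rw [hq]
    exact Nat.lt_mul_div_succ j hDpos
  have hq0 : 8 * (i5 + 2 * j1 + 4) + 16 + r1 ≤ q := by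
    rw [hq, Nat.le_div_iff_mul_le hDpos]
    rw [mul_comm]
    exact hj
  have h4q : 4 * q + 5 ≤ j := by
    have e1 : 5 * q ≤ D * q := Nat.mul_le_mul_right _ (by omega)
    omega
  refine ⟨j + kk + k5 + r1 * (q + 1) + 4 * q + 8, fun k n hk hn1 hn2 => ?_⟩
  obtain ⟨s0, hs0⟩ : ∃ s0, s0 = k - j := ⟨_, rfl⟩
  obtain ⟨i, hi⟩ : ∃ i, i = q / 4 := ⟨_, rfl⟩
  obtain ⟨kc, hkc⟩ : ∃ kc, kc = k - (4 * q + 5) := ⟨_, rfl⟩
  obtain ⟨T0, hT0⟩ : ∃ T0, T0 = 2 ^ s0 := ⟨_, rfl⟩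
  obtain ⟨N0, hN0⟩ : ∃ N0 : ℕ, N0 = ⌊4 * CL * ((K0 * T0 : ℕ) : ℝ) ^ (4 / 3 : ℝ)⌋₊ := ⟨_, rfl⟩
  obtain ⟨S, hSd⟩ : ∃ S : Set (List Bool), S = VF.Sn T0 (K0 * T0) N0 := ⟨_, rfl⟩
  have hT1 : 1 ≤ T0 := by rw [hT0]; exact Nat.one_le_two_pow
  have hSF : S ⊆ FCW T0 := by
    rw [hSd]
    rintro Y ⟨⟨j', -, h⟩, -⟩
    exact ⟨j', h⟩
  have hSF' : ∀ Y ∈ S, Y ∈ FCW T0 ∧ Y.length ≤ N0 := by
    intro Y hY
    refine ⟨hSF hY, ?_⟩
    rw [hSd] at hY
    exact hY.2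
  have hSg : ENNReal.ofReal (1 / 2) ≤ gf S := by
    rw [hSd, hN0]
    exact VF.half hML hCL (by omega) hT1 (hmass T0 hT1)
  have hmk := hm.pos k
  have hU := Ub_pos k
  have hUkc := Ub_pos kc
  obtain ⟨Y, hY⟩ : ∃ Y : ℝ, Y = (1 / 2) ^ q := ⟨_, rfl⟩
  have hY0 : 0 < Y := by rw [hY]; positivity
  -- the norm
  obtain ⟨R, hR⟩ : ∃ R, R = r1 * (q + 1) + 3 := ⟨_, rfl⟩
  obtain ⟨ε, hε⟩ : ∃ ε : ℝ, ε = K * 4 ^ (4 * q + 5 + i + 3) * ((2 : ℝ) ^ (-(c * R)) + 4 ^ R * (q * UU T0 / (1 / 2) ^ q / Ub kc)) :=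
    ⟨_, rfl⟩
  have hUT : 0 ≤ UU T0 := (Num2Aux.UU_pos _).le
  have hε0 : 0 < ε := by
    rw [hε]
    have e1 : 0 < (2 : ℝ) ^ (-(c * R)) := by positivity
    have e2 : 0 ≤ 4 ^ R * (q * UU T0 / (1 / 2) ^ q / Ub kc) := by positivity
    positivity
  have hSm : SmD DmJ kc {h | h ∈ BrR (2 ^ (kc + 4)) (2 ^ (k + i + 3)) ∧ h ∈ {h | ¬ StrS S q h}} ε := by
    have h1 := hnorm kc (4 * q + 5 + i + 3) R T0 q S (1 / 2) (by omega) (by rw [hkc]; omega) hSF (by norm_num) hSg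
    rw [← hε, show kc + (4 * q + 5 + i + 3) = k + i + 3 by omega] at h1
    exact h1
  have hsum : F * W ^ (4 * q + 5 + i) * ε ≤ F * (K * 2 ^ (8 * w) * (1 + 2 ^ (2 * r1) * 128 * (2 : ℝ) ^ (θ * 5))) * Y := by
    have a1 : W ^ (4 * q + 5 + i) * 4 ^ (4 * q + 5 + i + 3) ≤ 2 ^ (8 * w) * (2 ^ (5 * w)) ^ q := by
      calc W ^ (4 * q + 5 + i) * 4 ^ (4 * q + 5 + i + 3) ≤ W ^ (4 * q + 5 + i + 3) * 4 ^ (4 * q + 5 + i + 3) :=
            mul_le_mul_of_nonneg_right (pow_le_pow_right₀ hW (by omega)) (by positivity)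
        _ = (W * 4) ^ (4 * q + 5 + i + 3) := (mul_pow _ _ _).symm
        _ ≤ (2 ^ w) ^ (4 * q + 5 + i + 3) := pow_le_pow_left₀ (by positivity) hw.le _
        _ = 2 ^ (w * (4 * q + 5 + i + 3)) := (pow_mul _ _ _).symm
        _ ≤ 2 ^ (w * (5 * q + 8)) := pow_le_pow_right₀ (by norm_num) (Nat.mul_le_mul_left _ (by omega))
        _ = 2 ^ (8 * w) * (2 ^ (5 * w)) ^ q := by
            rw [← pow_mul, ← pow_add]
            congr 1
            ring
    have hqR : (0 : ℝ) ≤ q := Nat.cast_nonneg _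
    have a2 : (2 ^ (5 * w) : ℝ) ^ q * (2 : ℝ) ^ (-(c * R)) ≤ Y := by
      rw [hY, one_div, inv_pow, ← pow_mul, ← Real.rpow_natCast, ← Real.rpow_natCast, ← Real.rpow_neg (by norm_num),
        ← Real.rpow_add (by norm_num)]
      apply Real.rpow_le_rpow_of_exponent_le (by norm_num)
      have b1 : (R : ℝ) = r1 * (q + 1) + 3 := by
        rw [hR]
        push_cast
        ring
      rw [b1]
      push_cast at hr1 ⊢
      have b2 : (5 * (w : ℝ) + 1) * (q + 1) ≤ r1 * c * (q + 1) := mul_le_mul_of_nonneg_right hr1 (by linarith)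
      have b3 : (0 : ℝ) ≤ w := Nat.cast_nonneg _
      nlinarith
    have a3 : (2 ^ (5 * w) : ℝ) ^ q * (4 ^ R * (q * UU T0 / (1 / 2) ^ q / Ub kc)) ≤
        2 ^ (2 * r1) * 128 * (2 : ℝ) ^ (θ * 5) * Y := by
      have b1 : UU T0 / Ub kc ≤ 2 * (2 : ℝ) ^ (-(θ * ((kc - s0 : ℕ) : ℝ))) := by
        have := hUb s0 (kc - s0)
        rw [show s0 + (kc - s0) = kc by omega] at this
        rw [hT0]
        exact this
      have b2 : ((kc - s0 : ℕ) : ℝ) ≥ (D0 + 1) * q - 5 := by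
        have b3 : (D0 + 1) * q ≤ kc - s0 + 5 := by
          have b4 : (D0 + 1) * q + 4 * q ≤ D * q := by
            rw [← add_mul]
            exact Nat.mul_le_mul_right _ (by omega)
          omega
        have b5 : (((D0 + 1) * q : ℕ) : ℝ) ≤ ((kc - s0 + 5 : ℕ) : ℝ) := by exact_mod_cast b3
        push_cast at b5
        linarith
      have b6 : (q : ℝ) ≤ 2 ^ q := by exact_mod_cast Nat.lt_two_pow_self.le
      have b7 : (q : ℝ) * UU T0 / (1 / 2) ^ q / Ub kc = q * 2 ^ q * (UU T0 / Ub kc) := by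
        rw [one_div_pow]
        field_simp
      have b8 : (4 : ℝ) ^ R = 64 * 2 ^ (2 * r1) * (2 ^ (2 * r1)) ^ q := by
        rw [hR, pow_add, show (4 : ℝ) = 2 ^ 2 by norm_num, ← pow_mul, ← pow_mul, ← pow_mul]
        rw [show 2 * (r1 * (q + 1)) = 2 * r1 + 2 * r1 * q by ring, pow_add]
        norm_num
        ring
      rw [b7]
      calc (2 ^ (5 * w) : ℝ) ^ q * (4 ^ R * (q * 2 ^ q * (UU T0 / Ub kc)))
          ≤ (2 ^ (5 * w) : ℝ) ^ q * (4 ^ R * (2 ^ q * 2 ^ q * (2 * (2 : ℝ) ^ (-(θ * ((kc - s0 : ℕ) : ℝ)))))) := by gcongr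
        _ = 2 ^ (2 * r1) * 128 * ((2 ^ (5 * w) : ℝ) ^ q * (2 ^ (2 * r1)) ^ q * (2 ^ q * 2 ^ q) *
              (2 : ℝ) ^ (-(θ * ((kc - s0 : ℕ) : ℝ)))) := by
            rw [b8]
            ring
        _ ≤ 2 ^ (2 * r1) * 128 * ((2 : ℝ) ^ (θ * 5) * Y) := by
            refine mul_le_mul_of_nonneg_left ?_ (by positivity)
            rw [hY, one_div, inv_pow, ← pow_mul, ← pow_mul, ← Real.rpow_natCast, ← Real.rpow_natCast, ← Real.rpow_natCast,
              ← Real.rpow_neg (by norm_num), ← Real.rpow_add (by norm_num), ← Real.rpow_add (by norm_num),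
              ← Real.rpow_add (by norm_num), ← Real.rpow_add (by norm_num), ← Real.rpow_add (by norm_num)]
            apply Real.rpow_le_rpow_of_exponent_le (by norm_num)
            push_cast at hD0 ⊢
            have b9 : (5 * (w : ℝ) + 2 * r1 + 3) * q ≤ D0 * θ * q := mul_le_mul_of_nonneg_right hD0 hqR
            have b10 : θ * ((D0 + 1) * q - 5) ≤ θ * ((kc - s0 : ℕ) : ℝ) := mul_le_mul_of_nonneg_left b2 hθ.le
            have b11 : 0 ≤ θ * q := mul_nonneg hθ.le hqR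
            nlinarith
        _ = _ := by ring
    calc F * W ^ (4 * q + 5 + i) * ε
        = F * K * (W ^ (4 * q + 5 + i) * 4 ^ (4 * q + 5 + i + 3)) *
            ((2 : ℝ) ^ (-(c * R)) + 4 ^ R * (q * UU T0 / (1 / 2) ^ q / Ub kc)) := by
          rw [hε]
          ring
      _ ≤ F * K * (2 ^ (8 * w) * (2 ^ (5 * w)) ^ q) *
            ((2 : ℝ) ^ (-(c * R)) + 4 ^ R * (q * UU T0 / (1 / 2) ^ q / Ub kc)) := by gcongr
      _ = F * K * 2 ^ (8 * w) * ((2 ^ (5 * w) : ℝ) ^ q * (2 : ℝ) ^ (-(c * R)) +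
            (2 ^ (5 * w) : ℝ) ^ q * (4 ^ R * (q * UU T0 / (1 / 2) ^ q / Ub kc))) := by ring
      _ ≤ F * K * 2 ^ (8 * w) * (Y + 2 ^ (2 * r1) * 128 * (2 : ℝ) ^ (θ * 5) * Y) :=
          mul_le_mul_of_nonneg_left (add_le_add a2 a3) (by positivity)
      _ = _ := by ring
  -- the three parts
  have hsub : {t | t ∈ SawN n ∧ ¬ ∃ (dir : Bool) (a b : ℕ), a ≤ b ∧ b ≤ n ∧
      (b : ℝ) - a ≤ ((4 * CL * (K0 : ℝ) ^ (4 / 3 : ℝ)) / cm + 1) * j * m (k - j) ∧
      1 / (2 * D) * j * 2 ^ (k - j) ≤ |((lvl dir (vx oo up t b) - lvl dir (vx oo up t a) : ℤ) : ℝ)|} ⊆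
      {t | t ∈ SA ∧ t.length = n ∧ t ∉ WL (k + i)} ∪
      ({t | t.length = n ∧ t ∈ WL (k + i) ∧ ∀ d, d = (0 : Fin 3) ∨ d = (1 : Fin 3) →
        ¬ HR d (k - (4 * q + 5)) (RJ (k - (4 * q + 5)) (2 ^ (k + i + 3)) J) t} ∪
      ⋃ d : Fin 2, {t | t.length = n ∧ t ∈ WL (k + i) ∧ HR (if d = 0 then (0 : Fin 3) else 1) (k - (4 * q + 5))
        {ms | ms ∈ RJ (k - (4 * q + 5)) (2 ^ (k + i + 3)) J ∧ ∃ h ∈ ms, h ∈ {h | ¬ StrS S q h}} t}) := by
    rintro t ⟨⟨hl, hs⟩, hno⟩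
    by_cases hw1 : t ∈ WL (k + i)
    swap
    · exact Or.inl ⟨hs, hl, hw1⟩
    right
    have hno' : ¬ ∃ (dir : Bool) (a b : ℕ), a ≤ b ∧ b ≤ t.length ∧ b - a ≤ q * N0 ∧
        ((q * T0 : ℕ) : ℤ) ≤ |lvl dir (vx oo up t b) - lvl dir (vx oo up t a)| := by
      rintro ⟨dir, a, b, g1, g2, g3, g4⟩
      refine hno ⟨dir, a, b, g1, by omega, ?_, ?_⟩
      · have e1 : (b : ℝ) - a ≤ q * N0 := by
          have : ((b - a : ℕ) : ℝ) ≤ ((q * N0 : ℕ) : ℝ) := by exact_mod_cast g3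
          rw [Nat.cast_sub g1] at this
          push_cast at this
          exact this
        have e2 : (N0 : ℝ) ≤ 4 * CL * ((K0 * T0 : ℕ) : ℝ) ^ (4 / 3 : ℝ) := by
          rw [hN0]
          exact Nat.floor_le (by positivity)
        have e3 : ((K0 * T0 : ℕ) : ℝ) ^ (4 / 3 : ℝ) = (K0 : ℝ) ^ (4 / 3 : ℝ) * (2 : ℝ) ^ (4 / 3 * (s0 : ℝ)) := by
          push_cast
          rw [Real.mul_rpow (Nat.cast_nonneg _) (Nat.cast_nonneg _), hT0]
          push_cast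
          rw [← Real.rpow_natCast, ← Real.rpow_mul (by norm_num)]
          congr 2
          ring
        have e4 : (2 : ℝ) ^ (4 / 3 * (s0 : ℝ)) ≤ m s0 / cm := by
          rw [le_div_iff₀ hcm, mul_comm]
          exact hlo s0
        have e5 : (q : ℝ) ≤ j := by
          have : q ≤ j := (Nat.le_mul_of_pos_left q hDpos).trans hqj
          exact_mod_cast this
        have hms := hm.pos s0
        rw [← hs0]
        calc (b : ℝ) - a ≤ q * N0 := e1
          _ ≤ j * (4 * CL * ((K0 : ℝ) ^ (4 / 3 : ℝ) * (m s0 / cm))) := by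
              refine mul_le_mul e5 (e2.trans ?_) (Nat.cast_nonneg _) (Nat.cast_nonneg _)
              rw [e3]
              gcongr
          _ = (4 * CL * (K0 : ℝ) ^ (4 / 3 : ℝ)) / cm * j * m s0 := by
              field_simp
          _ ≤ ((4 * CL * (K0 : ℝ) ^ (4 / 3 : ℝ)) / cm + 1) * j * m s0 := by
              have : (0 : ℝ) ≤ j * m s0 := by positivity
              nlinarith
      · have e1 : ((q * T0 : ℕ) : ℝ) ≤ |((lvl dir (vx oo up t b) - lvl dir (vx oo up t a) : ℤ) : ℝ)| := by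
          rw [← Int.cast_abs]
          exact_mod_cast g4
        refine le_trans ?_ e1
        rw [← hs0, hT0]
        push_cast
        refine mul_le_mul_of_nonneg_right ?_ (by positivity)
        have e2 : (j : ℝ) ≤ 2 * D * q := by
          have : j ≤ 2 * D * q := by
            have e3 : D ≤ D * q := Nat.le_mul_of_pos_right D (by omega)
            have e4 : D * (q + 1) = D * q + D := by ring
            have e5 : 2 * D * q = D * q + D * q := by ring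
            omega
          exact_mod_cast this
        have hDR : (0 : ℝ) < D := by exact_mod_cast hDpos
        rw [one_div, inv_mul_le_iff₀ (by positivity)]
        exact e2
    by_cases h0 : HR 0 (k - (4 * q + 5)) (RJ (k - (4 * q + 5)) (2 ^ (k + i + 3)) J) t
    · right
      rw [Set.mem_iUnion]
      refine ⟨0, hl, hw1, ?_⟩
      rw [if_pos rfl]
      exact run_disp hSF' hs h0 hno'
    by_cases h1 : HR 1 (k - (4 * q + 5)) (RJ (k - (4 * q + 5)) (2 ^ (k + i + 3)) J) t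
    · right
      rw [Set.mem_iUnion]
      refine ⟨1, hl, hw1, ?_⟩
      rw [if_neg (by decide)]
      exact run_disp hSF' hs h1 hno'
    left
    refine ⟨hl, hw1, ?_⟩
    rintro d (rfl | rfl)
    · exact h0
    · exact h1
  have p1 : gf {t | t ∈ SA ∧ t.length = n ∧ t ∉ WL (k + i)} ≤ ENNReal.ofReal (16 * A5 * Y * (Ub k / m k)) * Xb k ^ 2 := by
    refine (hout k i n (by omega) (by omega) hn1 hn2).trans ?_
    unfold nuX
    rw [← mul_assoc, ← ENNReal.ofReal_mul (by positivity)]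
    refine mul_le_mul_left (ENNReal.ofReal_le_ofReal (mul_le_mul_of_nonneg_right ?_ (by positivity))) _
    rw [hY, one_div_pow, mul_one_div, div_le_div_iff₀ (by positivity) (by positivity)]
    have e1 : (2 : ℝ) ^ q ≤ 16 * 2 ^ (4 * i) := by
      calc (2 : ℝ) ^ q ≤ 2 ^ (4 + 4 * i) := pow_le_pow_right₀ (by norm_num) (by omega)
        _ = 16 * 2 ^ (4 * i) := by
            rw [pow_add]
            norm_num
    calc A5 * 2 ^ q ≤ A5 * (16 * 2 ^ (4 * i)) := mul_le_mul_of_nonneg_left e1 hA5.le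
      _ = _ := by ring
  have p2 := hfew 0 1 (by decide) k i q n (by omega) (by omega) hn1
  have p3 : ∀ d : Fin 2, gf {t | t.length = n ∧ t ∈ WL (k + i) ∧ HR (if d = 0 then (0 : Fin 3) else 1) (k - (4 * q + 5))
      {ms | ms ∈ RJ (k - (4 * q + 5)) (2 ^ (k + i + 3)) J ∧ ∃ h ∈ ms, h ∈ {h | ¬ StrS S q h}} t} ≤
      ENNReal.ofReal (F * (K * 2 ^ (8 * w) * (1 + 2 ^ (2 * r1) * 128 * (2 : ℝ) ^ (θ * 5))) * Y * (Ub k / m k)) * Xb k ^ 2 := by
    intro d
    refine (hrun _ k i n (4 * q + 5) {h | ¬ StrS S q h} ε (by omega) (by omega) hε0 (by rw [← hkc]; exact hSm)).trans ?_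
    exact mul_le_mul_left (ENNReal.ofReal_le_ofReal (mul_le_mul_of_nonneg_right hsum (by positivity))) _
  have p4 : gf (⋃ d : Fin 2, {t | t.length = n ∧ t ∈ WL (k + i) ∧ HR (if d = 0 then (0 : Fin 3) else 1) (k - (4 * q + 5))
      {ms | ms ∈ RJ (k - (4 * q + 5)) (2 ^ (k + i + 3)) J ∧ ∃ h ∈ ms, h ∈ {h | ¬ StrS S q h}} t}) ≤
      ENNReal.ofReal (2 * (F * (K * 2 ^ (8 * w) * (1 + 2 ^ (2 * r1) * 128 * (2 : ℝ) ^ (θ * 5))) * Y * (Ub k / m k))) *
        Xb k ^ 2 := by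
    refine (Crw.gf_iUnion_le _).trans ?_
    rw [tsum_fintype]
    refine (Finset.sum_le_card_nsmul _ _ _ fun d _ => p3 d).trans (le_of_eq ?_)
    rw [Finset.card_univ, Fintype.card_fin, nsmul_eq_mul, ENNReal.ofReal_mul (show (0 : ℝ) ≤ 2 by norm_num),
      ENNReal.ofReal_ofNat, ← mul_assoc, Nat.cast_ofNat]
  refine (gf_mono hsub).trans ((gf_union_le _ _).trans ((add_le_add p1 ((gf_union_le _ _).trans (add_le_add p2 p4))).trans ?_))
  rw [← add_mul, ← add_mul, ← ENNReal.ofReal_add (by positivity) (by positivity), ← ENNReal.ofReal_add (by positivity)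
    (by positivity)]
  unfold nuX
  rw [← mul_assoc (ENNReal.ofReal _) (ENNReal.ofReal _) (Xb k ^ 2), ← ENNReal.ofReal_mul (by positivity)]
  refine mul_le_mul_left (ENNReal.ofReal_le_ofReal ?_) _
  have hYj : Y ≤ 2 * (2 : ℝ) ^ (-(1 / (D : ℝ) * j)) := by
    have e1 : (2 : ℝ) * (2 : ℝ) ^ (-(1 / (D : ℝ) * j)) = (2 : ℝ) ^ (1 - 1 / (D : ℝ) * j) := by
      rw [sub_eq_add_neg, Real.rpow_add (by norm_num), Real.rpow_one]
    rw [e1, hY, one_div, inv_pow, ← Real.rpow_natCast, ← Real.rpow_neg (by norm_num)]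
    apply Real.rpow_le_rpow_of_exponent_le (by norm_num)
    have hDR : (0 : ℝ) < D := by exact_mod_cast hDpos
    have e2 : (j : ℝ) ≤ D * (q + 1) := by exact_mod_cast hjq.le
    have e3 : 1 / (D : ℝ) * j ≤ q + 1 := by
      rw [one_div, inv_mul_le_iff₀ hDR]
      exact e2
    linarith
  rw [← hY]
  have e0 : 0 ≤ Ub k / m k := by positivity
  calc 16 * A5 * Y * (Ub k / m k) + (A2 * Y * (Ub k / m k) +
        2 * (F * (K * 2 ^ (8 * w) * (1 + 2 ^ (2 * r1) * 128 * (2 : ℝ) ^ (θ * 5))) * Y * (Ub k / m k)))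
      = E * Y * (Ub k / m k) := by
        rw [hE]
        ring
    _ ≤ E * (2 * (2 : ℝ) ^ (-(1 / (D : ℝ) * j))) * (Ub k / m k) := by gcongr
    _ = _ := by ring

end FIS

end HexObs
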