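import Pool.Agent.FIS.LevyLow
import Pool.Agent.EN.FactsZ

/-!
FIS: the lower side of the modulus of continuity for the mean lengths of the critical bridges.
-/

set_option autoImplicit false

namespace HexObs

namespace FIS

open EN

/-- **the lower side of the modulus from the order 4 / 3 of the mean lengths** -/
theorem levyX_G (hlo : ∃ c : ℝ, 0 < c ∧ ∀ k : ℕ, c * (2 : ℝ) ^ (4 / 3 * (k : ℝ)) ≤ PW.mZ (2 ^ k))
    (hML : ∃ C : ℝ, 0 < C ∧ T2.MeanLen (4 / 3) C) : NTW.LevyX (fun k => PW.mZ (2 ^ k)) := by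
  obtain ⟨J00, hg⟩ := gbm_M
  exact levyX_of hlo NTA.mlow_M NTA.mup_M (gbu_of (hg J00 le_rfl)) (extX_of (ext_M (hg J00 le_rfl))) espw_M hML

end FIS

end HexObs
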