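import Pool.Agent.FIS.TsBr
import Pool.Agent.EN.TallN
import Pool.Agent.EN.EspB

/-!
FIS (the tail exponent 4): the norm of the tall and short leaves.
-/

set_option autoImplicit false

namespace HexObs

namespace FIS

open Finset TS SDN NTW NTA EN

open scoped ENNReal

lemma ub_ratio (L k1 : ℕ) : Ub L / Ub k1 ≤ 2 ^ (L - k1) := by
  have hUk := Ub_pos k1
  rw [div_le_iff₀ hUk]
  rcases le_total L k1 with h | h
  · rw [Nat.sub_eq_zero_of_le h, pow_zero, one_mul]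
    exact Ub_mono h
  · have h2 : UU (2 ^ (k1 + (L - k1))) ≤ 2 ^ (L - k1) * Ub k1 := UU_ratio_up k1 (L - k1)
    rw [Nat.add_sub_cancel' h] at h2
    exact h2

/-- **the norm of the tall leaves with few letters** -/
theorem ts_norm {m : ℕ → ℝ} (hlo : ∃ c : ℝ, 0 < c ∧ ∀ k : ℕ, c * (2 : ℝ) ^ (4 / 3 * (k : ℝ)) ≤ m k)
    (hup : ∃ C : ℝ, ∀ k : ℕ, m k ≤ C * (2 : ℝ) ^ (4 / 3 * (k : ℝ))) (hA : ASm m) (cH r0 : ℕ) :
    ∃ (K : ℝ) (r c2 : ℕ), 1 ≤ K ∧ r0 ≤ r ∧ ∀ (k i n k1 g : ℕ), c2 ≤ i → 3 * i + c2 ≤ k → 2 ^ (4 * i - r0) + g + c2 ≤ k →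
    (n : ℝ) < m (k + 1) → k ≤ k1 + g → k1 ≤ k + i + 8 →
    SmD DmJ k1 {g | g ∈ BrR (2 ^ (k1 + 4)) (2 ^ (k + i + 10)) ∧ 2 ^ (k + i - cH) ≤ hgt g ∧ g.length ≤ n}
      (K * 8 ^ (g + i) * (1 / 2) ^ (2 ^ (4 * i - r))) := by
  obtain ⟨c3, c1, hc3, hts⟩ := ts_br hlo hup hA (cH + 1)
  obtain ⟨K, c, hK, hc, hwin⟩ := sp_win
  obtain ⟨r1, hr1⟩ : ∃ r1, r1 = r0 + c3 + 2 := ⟨_, rfl⟩
  obtain ⟨q, hq⟩ : ∃ q : ℕ, 1 / c < 2 ^ q := two_pow_ge _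
  have hK0 : 0 < K := by linarith
  have hq' : 1 ≤ c * 2 ^ q := by
    rw [div_lt_iff₀ hc] at hq
    linarith
  refine ⟨K * 8 * 4 ^ 10 * 4 ^ (cH + 10), r1 + q, c1 + r1 + q + cH + 10, ?_, by omega, ?_⟩
  · have h1 : (1 : ℝ) ≤ 4 ^ 10 := by norm_num
    have h2 : (1 : ℝ) ≤ 4 ^ (cH + 10) := one_le_pow₀ (by norm_num)
    have h3 : 1 ≤ K * 8 := by linarith
    exact one_le_mul_of_one_le_of_one_le (one_le_mul_of_one_le_of_one_le h3 h1) h2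
  intro k i n k1 g hi hk hkg hn hk1 hk2
  obtain ⟨R, hR⟩ : ∃ R, R = 2 ^ (4 * i - r1) := ⟨_, rfl⟩
  have hRle : R ≤ 2 ^ (4 * i - r0) := by
    rw [hR]
    exact Nat.pow_le_pow_right (by norm_num) (by omega)
  have hR4 : 4 ≤ R := by
    rw [hR]
    calc 4 = 2 ^ 2 := by norm_num
      _ ≤ 2 ^ (4 * i - r1) := Nat.pow_le_pow_right (by norm_num) (by omega)
  obtain ⟨e, he⟩ : ∃ e, e = min k1 (k + i - cH - 2) := ⟨_, rfl⟩
  have hRe : R ≤ e := by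
    rw [he]
    exact le_min (by omega) (by omega)
  have hek : e ≤ k1 := by rw [he]; exact min_le_left _ _
  have heH : e + 2 ≤ k + i - cH := by
    have : e ≤ k + i - cH - 2 := by rw [he]; exact min_le_right _ _
    omega
  have hke : k1 - e ≤ cH + 10 := by
    rw [he]
    rcases le_total k1 (k + i - cH - 2) with h | h
    · rw [min_eq_left h]
      omega
    · rw [min_eq_right h]
      omega
  have hUk := Ub_pos k
  have hUk1 := Ub_pos k1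
  obtain ⟨P, hP⟩ : ∃ P : ℕ, P = 2 ^ (4 * i - c3) := ⟨_, rfl⟩
  obtain ⟨A, hAd⟩ : ∃ A : ℝ, A = Ub k / 2 ^ P := ⟨_, rfl⟩
  have hA0 : 0 ≤ A := by
    rw [hAd]
    positivity
  have hgf : gf {Z | ∃ T, 2 ^ (k + i - cH - 1) ≤ T ∧ Z ∈ Brd T ∧ (Z.length : ℝ) < m (k + 1)} ≤ ENNReal.ofReal A := by
    rw [hAd, hP]
    refine (gf_mono ?_).trans (hts k i (m (k + 1)) (by omega) (by omega) le_rfl)
    rintro Z ⟨T, h1, h2, h3⟩
    exact ⟨T, by rwa [show k + i - (cH + 1) = k + i - cH - 1 by omega], h2, h3.le⟩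
  have h1 := hwin k1 (2 ^ (k + i + 10)) e (e - R) A _ (by omega) hek hA0 (fun g hg => hg.1)
    (ez_tall (D := 2 ^ (k1 + 4)) (N := 2 ^ (k + i + 10)) heH hgf)
  refine SmD_le ?_ (smD_anti ?_ h1)
  swap
  · rintro g ⟨h4, h5, h6⟩
    refine ⟨h4, h5, ?_⟩
    have : (g.length : ℝ) ≤ n := by exact_mod_cast h6
    linarith
  -- the numbers
  obtain ⟨Y, hY⟩ : ∃ Y : ℝ, Y = (1 / 2) ^ (2 ^ (4 * i - (r1 + q))) := ⟨_, rfl⟩
  have hY0 : 0 < Y := by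
    rw [hY]
    positivity
  rw [← hY]
  obtain ⟨V, hV⟩ : ∃ V : ℝ, V = UU (2 ^ (k + i + 10)) / Ub k1 := ⟨_, rfl⟩
  have hUN : V ≤ 2 ^ (g + i + 10) := by
    rw [hV]
    refine (ub_ratio (k + i + 10) k1).trans (pow_le_pow_right₀ (by norm_num) (by omega))
  have hV0 : 0 ≤ V := by
    rw [hV]
    exact div_nonneg (Num2Aux.UU_pos _).le hUk1.le
  rw [← hV]
  have h2g : (1 : ℝ) ≤ 2 ^ (g + i + 10) := one_le_pow₀ (by norm_num)
  have hρ : 1 + V ≤ 2 * 2 ^ (g + i + 10) := by linarith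
  have hρ0 : 0 ≤ 1 + V := by linarith
  have hρ2 : (1 + V) ^ 2 ≤ 4 * 4 ^ (g + i + 10) := by
    calc (1 + V) ^ 2 ≤ (2 * 2 ^ (g + i + 10)) ^ 2 := pow_le_pow_left₀ hρ0 hρ 2
      _ = 4 * 4 ^ (g + i + 10) := by
          rw [mul_pow, ← pow_mul, mul_comm (g + i + 10) 2, pow_mul]
          norm_num
  have h4e : (4 : ℝ) ^ (k1 - e) ≤ 4 ^ (cH + 10) := pow_le_pow_right₀ (by norm_num) hke
  have hpow : 2 ^ (4 * i - (r1 + q)) * 2 ^ q = R := by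
    rw [hR, ← pow_add]
    congr 1
    omega
  have t1 : (2 : ℝ) ^ (-(c * ((e : ℝ) - ((e - R : ℕ) : ℝ)))) ≤ Y := by
    rw [Nat.cast_sub hRe, hY, one_div, inv_pow, ← Real.rpow_natCast, ← Real.rpow_neg (by norm_num)]
    apply Real.rpow_le_rpow_of_exponent_le (by norm_num)
    have e1 : ((2 ^ (4 * i - (r1 + q)) : ℕ) : ℝ) * 2 ^ q = R := by exact_mod_cast hpow
    have e2 : (0 : ℝ) ≤ ((2 ^ (4 * i - (r1 + q)) : ℕ) : ℝ) := Nat.cast_nonneg _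
    have e3 : ((2 ^ (4 * i - (r1 + q)) : ℕ) : ℝ) ≤ c * R := by
      rw [← e1]
      calc ((2 ^ (4 * i - (r1 + q)) : ℕ) : ℝ) = ((2 ^ (4 * i - (r1 + q)) : ℕ) : ℝ) * 1 := (mul_one _).symm
        _ ≤ ((2 ^ (4 * i - (r1 + q)) : ℕ) : ℝ) * (c * 2 ^ q) := mul_le_mul_of_nonneg_left hq' e2
        _ = _ := by ring
    linarith
  have hRP : 2 * R + R ≤ P := by
    have e1 : 2 ^ 2 * R ≤ P := by
      rw [hR, hP, ← pow_add]
      exact Nat.pow_le_pow_right (by norm_num) (by omega)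
    omega
  have hYR : (1 / 2 : ℝ) ^ R ≤ Y := by
    rw [hY, hR]
    exact pow_le_pow_of_le_one (by norm_num) (by norm_num) (Nat.pow_le_pow_right (by norm_num) (by omega))
  have t2 : (4 : ℝ) ^ (k1 - (e - R)) * (A / Ub k1) ≤ 4 ^ (cH + 10) * (2 ^ g * Y) := by
    have e1 : k1 - (e - R) = (k1 - e) + R := by omega
    rw [e1, pow_add]
    have e2 : A / Ub k1 ≤ 2 ^ g / 2 ^ P := by
      rw [hAd, div_div, mul_comm, ← div_div]
      refine div_le_div_of_nonneg_right ((ub_ratio k k1).trans (pow_le_pow_right₀ (by norm_num) (by omega))) (by positivity)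
    have e3 : (4 : ℝ) ^ R * (2 ^ g / 2 ^ P) ≤ 2 ^ g * Y := by
      refine le_trans ?_ (mul_le_mul_of_nonneg_left hYR (by positivity))
      rw [← mul_div_assoc, div_le_iff₀ (by positivity)]
      have e4 : (4 : ℝ) ^ R ≤ (1 / 2) ^ R * 2 ^ P := by
        rw [one_div, inv_pow, ← div_eq_inv_mul, le_div_iff₀ (by positivity), show (4 : ℝ) = 2 ^ 2 by norm_num, ← pow_mul,
          ← pow_add]
        exact pow_le_pow_right₀ (by norm_num) hRP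
      calc (4 : ℝ) ^ R * 2 ^ g = 2 ^ g * 4 ^ R := mul_comm _ _
        _ ≤ 2 ^ g * ((1 / 2) ^ R * 2 ^ P) := mul_le_mul_of_nonneg_left e4 (by positivity)
        _ = _ := by ring
    calc (4 : ℝ) ^ (k1 - e) * 4 ^ R * (A / Ub k1) ≤ 4 ^ (cH + 10) * 4 ^ R * (2 ^ g / 2 ^ P) := by gcongr
      _ = 4 ^ (cH + 10) * (4 ^ R * (2 ^ g / 2 ^ P)) := by ring
      _ ≤ _ := by gcongr
  have t3 : (4 : ℝ) ^ (k1 - e) * (2 : ℝ) ^ (-(c * ((e : ℝ) - ((e - R : ℕ) : ℝ)))) ≤ 4 ^ (cH + 10) * (2 ^ g * Y) := by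
    calc (4 : ℝ) ^ (k1 - e) * (2 : ℝ) ^ (-(c * ((e : ℝ) - ((e - R : ℕ) : ℝ)))) ≤ 4 ^ (cH + 10) * Y := by gcongr
      _ = 4 ^ (cH + 10) * (1 * Y) := by rw [one_mul]
      _ ≤ _ := by
          have : (1 : ℝ) ≤ 2 ^ g := one_le_pow₀ (by norm_num)
          gcongr
  calc K * (1 + V) ^ 2 * (4 ^ (k1 - e) * (2 : ℝ) ^ (-(c * ((e : ℝ) - ((e - R : ℕ) : ℝ)))) +
        4 ^ (k1 - (e - R)) * (A / Ub k1))
      ≤ K * (4 * 4 ^ (g + i + 10)) * (4 ^ (cH + 10) * (2 ^ g * Y) + 4 ^ (cH + 10) * (2 ^ g * Y)) := by gcongr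
    _ = K * 8 * 4 ^ 10 * 4 ^ (cH + 10) * (4 ^ (g + i) * 2 ^ g) * Y := by
        rw [pow_add 4 (g + i) 10]
        ring
    _ ≤ K * 8 * 4 ^ 10 * 4 ^ (cH + 10) * 8 ^ (g + i) * Y := by
        have e1 : (4 : ℝ) ^ (g + i) * 2 ^ g ≤ 8 ^ (g + i) := by
          calc (4 : ℝ) ^ (g + i) * 2 ^ g ≤ 4 ^ (g + i) * 2 ^ (g + i) := by
                gcongr
                · norm_num
                · omega
            _ = 8 ^ (g + i) := by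
                rw [← mul_pow]
                norm_num
        gcongr

end FIS

end HexObs
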