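import Pool.Agent.FIS.Grp
import Pool.Agent.FIS.TsNorm
import Pool.Agent.SIM.Dens
import Pool.Agent.SIM.GeoIrg

/-!
FIS (lower side of the modulus): the leaves without a group of N short words have a small norm.
-/

set_option autoImplicit false

namespace HexObs

namespace FIS

open Finset TS SDN NTW NTA EN

open scoped ENNReal

lemma StS_app {S : Set (List Bool)} {B : List Bool} (hB : B ∈ BU) : ∀ (r : ℕ) {Z : List Bool}, StS S r Z → StS S r (Z ++ B) := by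
  intro r
  induction r with
  | zero => exact fun {Z} h => NTA.LQ.BU_app h hB
  | succ r ih =>
    rintro Z ⟨Y, hY, Z', rfl, h⟩
    exact ⟨Y, hY, Z' ++ B, by rw [List.append_assoc], ih h⟩

lemma StrS_mid {S : Set (List Bool)} {N : ℕ} {M Z B : List Bool} (hM : M ∈ BU) (hB : B ∈ BU) (h : StrS S N Z) :
    StrS S N (M ++ (Z ++ B)) := by
  obtain ⟨A, hA, Z', rfl, h1⟩ := h
  exact ⟨M ++ A, NTA.LQ.BU_app hM hA, Z' ++ B, by simp only [List.append_assoc], StS_app hB N h1⟩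

/-- the group of N words -/
lemma StS_grp {S : Set (List Bool)} {T0 N0 : ℕ} (hS : ∀ Y ∈ S, Y ∈ FCW T0 ∧ Y.length ≤ N0) : ∀ (r : ℕ) {Z : List Bool},
    StS S r Z → ∃ (h : ℕ) (G B : List Bool), Z = G ++ B ∧ G ∈ Brd h ∧ r * T0 ≤ h ∧ G.length ≤ r * N0 ∧ B ∈ BU := by
  intro r
  induction r with
  | zero =>
    intro Z hZ
    exact ⟨0, [], Z, rfl, nil_mem_Brd, by omega, by simp, hZ⟩
  | succ r ih =>
    rintro Z ⟨Y, hY, Z', rfl, h⟩
    obtain ⟨h', G, B, rfl, h1, h2, h3, h4⟩ := ih h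
    obtain ⟨⟨j, hj⟩, hl⟩ := hS Y hY
    refine ⟨j + h', Y ++ G, B, by rw [List.append_assoc], Brd_append hj.1 h1, ?_, ?_, h4⟩
    · have := hj.2.1
      rw [add_mul, one_mul]
      omega
    · rw [List.length_append, add_mul, one_mul]
      omega

/-- a leaf with a group has a large displacement in a short time -/
lemma strS_disp {S : Set (List Bool)} {T0 N0 N : ℕ} (hS : ∀ Y ∈ S, Y ∈ FCW T0 ∧ Y.length ≤ N0) {g : List Bool}
    (h : StrS S N g) : ∃ a b, a ≤ b ∧ b ≤ g.length ∧ b - a ≤ N * N0 ∧ 3 * ((N * T0 : ℕ) : ℤ) ≤ lev g b - lev g a := by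
  obtain ⟨A, ⟨a, hA⟩, Z', rfl, h1⟩ := h
  obtain ⟨h', G, B, rfl, h2, h3, h4, h5⟩ := StS_grp hS N h1
  refine ⟨A.length, A.length + G.length, by omega, by simp only [List.length_append]; omega, by omega, ?_⟩
  have e1 : lev (A ++ (G ++ B)) A.length = 3 * a := by
    rw [lev_append (by omega)]
    exact (mem_Brd.1 hA).2.2.2
  have e2 : lev (A ++ (G ++ B)) (A.length + G.length) = 3 * ((a + h' : ℕ) : ℤ) := by
    rw [← List.append_assoc, lev_append (by rw [List.length_append]; omega)]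
    have := (mem_Brd.1 (Brd_append hA h2)).2.2.2
    rwa [List.length_append] at this
  rw [e1, e2]
  have : ((N * T0 : ℕ) : ℤ) ≤ h' := by exact_mod_cast h3
  push_cast at this ⊢
  linarith

/-- the free middle parts of a leaf without a group -/
lemma ez_str {D N' e N T0 : ℕ} {S : Set (List Bool)} {s : ℝ} (hS : S ⊆ FCW T0) (hs : 0 < s)
    (hgf : ENNReal.ofReal s ≤ gf S) :
    EZ D N' e {g | g ∈ BrR D N' ∧ ¬ StrS S N g} (N * UU T0 / s ^ N) := by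
  classical
  intro M hM P1 hP1 P2 hP2 Q hQ h1 h2
  have hMP := NTA.LQ.BU_app hM (IU_BU hP1)
  have hPQ := NTA.LQ.BU_app (IU_BU hP2) hQ
  have hUU : 0 ≤ UU T0 := (Num2Aux.UU_pos _).le
  have key : ∀ n : ℕ, gf {Z | Z ∈ Brd n ∧ M ++ (P1 ++ (Z ++ (P2 ++ Q))) ∈ {g | g ∈ BrR D N' ∧ ¬ StrS S N g} ∧
      M ++ (P1 ++ (Z ++ (P2 ++ Q))) ∈ BrR D N'} ≤ gf {Z | Z ∈ Brd n ∧ ¬ StrS S N Z} := by
    intro n
    refine gf_mono ?_
    rintro Z ⟨hZ, ⟨-, h3⟩, -⟩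
    refine ⟨hZ, fun h4 => h3 ?_⟩
    have h5 := StrS_mid hMP hPQ h4
    rwa [List.append_assoc] at h5
  refine (ENNReal.tsum_le_tsum key).trans (ENNReal.tsum_le_of_sum_range_le fun n => ?_)
  have h3 := SIM.gf_sum_le (Finset.range n) (fun n => {Z | Z ∈ Brd n ∧ ¬ StrS S N Z})
    (G := {Z | (∃ h, h ≤ n ∧ Z ∈ Brd h) ∧ ¬ StrS S N Z}) (fun i j hij => by
      rw [Set.disjoint_left]
      rintro Z ⟨h4, -⟩ ⟨h5, -⟩
      exact hij (Brd_height h4 h5)) (by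
      rintro i hi Z ⟨h4, h5⟩
      rw [Finset.mem_range] at hi
      exact ⟨⟨i, hi.le, h4⟩, h5⟩)
  refine h3.trans ?_
  have h4 := grp_mass (T0 := T0) (N := N) (n := n) hS
  have h5 : ENNReal.ofReal (s ^ N) * gf {Z | (∃ h, h ≤ n ∧ Z ∈ Brd h) ∧ ¬ StrS S N Z} ≤ ENNReal.ofReal (N * UU T0) := by
    rw [ENNReal.ofReal_pow hs.le, ENNReal.ofReal_mul (Nat.cast_nonneg _), ENNReal.ofReal_natCast]
    exact (mul_le_mul_left (pow_le_pow_left' hgf N) _).trans h4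
  rw [ENNReal.ofReal_div_of_pos (by positivity), ENNReal.le_div_iff_mul_le (Or.inl (by positivity))
    (Or.inl ENNReal.ofReal_ne_top), mul_comm]
  exact h5

/-- **the norm of the leaves without a group** -/
theorem low_norm : ∃ K c : ℝ, 1 ≤ K ∧ 0 < c ∧ ∀ (kc J R T0 N : ℕ) (S : Set (List Bool)) (s : ℝ), 3 ≤ R → R ≤ kc →
    S ⊆ FCW T0 → 0 < s → ENNReal.ofReal s ≤ gf S →
    SmD DmJ kc {g | g ∈ BrR (2 ^ (kc + 4)) (2 ^ (kc + J)) ∧ ¬ StrS S N g}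
      (K * 4 ^ J * ((2 : ℝ) ^ (-(c * R)) + 4 ^ R * (N * UU T0 / s ^ N / Ub kc))) := by
  obtain ⟨K, c, hK, hc, hwin⟩ := sp_win
  have hK0 : 0 < K := by linarith
  refine ⟨K * 4, c, by linarith, hc, fun kc J R T0 N S s hR hRk hS hs hgf => ?_⟩
  have hUU : 0 ≤ UU T0 := (Num2Aux.UU_pos _).le
  have hUk := Ub_pos kc
  have hA0 : 0 ≤ N * UU T0 / s ^ N := by positivity
  have h1 := hwin kc (2 ^ (kc + J)) kc (kc - R) (N * UU T0 / s ^ N) _ (by omega) le_rfl hA0 (fun g hg => hg.1)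
    (ez_str (D := 2 ^ (kc + 4)) (N' := 2 ^ (kc + J)) (e := kc) hS hs hgf)
  refine SmD_le ?_ h1
  obtain ⟨V, hV⟩ : ∃ V : ℝ, V = UU (2 ^ (kc + J)) / Ub kc := ⟨_, rfl⟩
  have hUN : V ≤ 2 ^ J := by
    rw [hV]
    refine (ub_ratio (kc + J) kc).trans (pow_le_pow_right₀ (by norm_num) (by omega))
  have hV0 : 0 ≤ V := by
    rw [hV]
    exact div_nonneg (Num2Aux.UU_pos _).le hUk.le
  rw [← hV]
  have h2g : (1 : ℝ) ≤ 2 ^ J := one_le_pow₀ (by norm_num)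
  have hρ2 : (1 + V) ^ 2 ≤ 4 * 4 ^ J := by
    calc (1 + V) ^ 2 ≤ (2 * 2 ^ J) ^ 2 := pow_le_pow_left₀ (by linarith) (by linarith) 2
      _ = 4 * 4 ^ J := by
          rw [mul_pow, ← pow_mul, mul_comm J 2, pow_mul]
          norm_num
  have e1 : (kc : ℝ) - ((kc - R : ℕ) : ℝ) = R := by
    rw [Nat.cast_sub hRk]
    ring
  rw [Nat.sub_self, pow_zero, one_mul, e1, show kc - (kc - R) = R by omega]
  have e2 : 0 ≤ (2 : ℝ) ^ (-(c * R)) + 4 ^ R * (N * UU T0 / s ^ N / Ub kc) := by positivity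
  calc K * (1 + V) ^ 2 * ((2 : ℝ) ^ (-(c * R)) + 4 ^ R * (N * UU T0 / s ^ N / Ub kc))
      ≤ K * (4 * 4 ^ J) * ((2 : ℝ) ^ (-(c * R)) + 4 ^ R * (N * UU T0 / s ^ N / Ub kc)) :=
        mul_le_mul_of_nonneg_right (mul_le_mul_of_nonneg_left hρ2 hK0.le) e2
    _ = _ := by ring

end FIS

end HexObs
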