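import Pool.Agent.FIS.PieceRun
import Pool.Agent.EN.Third

/-!
FIS (the tail exponent 4): a piece of a walk with a displacement of many blocks, in one of the three directions: a tall leaf or
a run of interior leaves inside the piece with a large sum of heights and at most as many letters as the piece.
-/

set_option autoImplicit false

namespace HexObs

namespace FIS

open Finset TS SDN NTW NTA EN SIM

open scoped ENNReal

/-- **from a piece with a large displacement to a tall leaf or a run inside the piece, three directions** -/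
theorem run_geo : ∀ s : ℕ, 5 ≤ s → ∃ c : ℕ, ∀ (d : Fin 3) (kc K V i j a u : ℕ) (t : List Bool) (e : ℕ → ℕ), kc + 2 ≤ K →
    t ∈ WL K → 1 ≤ V → Lf (dr d) (kc + 5) (wd d t) a u e → i ≤ j → j ≤ t.length →
    2 ^ c * ((V : ℤ) * 2 ^ kc) ≤ |lv3 d (vx oo up t j) - lv3 d (vx oo up t i)| →
    (∃ p, p < a ∧ 3 * ((V : ℤ) * 2 ^ (kc + s)) ≤ |lp (dr d) (wd d t) (e (p + 1)) - lp (dr d) (wd d t) (e p)|) ∨
    ∃ l c' : ℕ, 2 ≤ l ∧ 1 ≤ c' ∧ l + c' + 1 ≤ a ∧
      V ≤ ((lws (wd d t) e l c').map fun g => hgt g / 2 ^ (kc + s) + 1).sum ∧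
      ((lws (wd d t) e l c').map List.length).sum ≤ j - i ∧
      ∀ g ∈ lws (wd d t) e l c', g ∈ CL (kc + 5) ∧ g ∈ HB (2 ^ (kc + 4)) := by
  intro s _
  refine ⟨s + 13, fun d kc K V i j a u t e _ ht hV hF hij hj hbig => ?_⟩
  by_cases htall : ∃ p, p < a ∧ 3 * ((V : ℤ) * 2 ^ (kc + s)) ≤ |lp (dr d) (wd d t) (e (p + 1)) - lp (dr d) (wd d t) (e p)|
  · exact Or.inl htall
  · push Not at htall
    have h1 : lp (dr d) (wd d t) j = lv3 d (vx oo up t j) := lvl_wd d t (by omega)
    have h2 : lp (dr d) (wd d t) i = lv3 d (vx oo up t i) := lvl_wd d t (by omega)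
    rw [← h1, ← h2] at hbig
    have hVz : (1 : ℤ) ≤ V := by exact_mod_cast hV
    have h3 : 96 * ((V + 1 : ℤ) * 2 ^ (kc + s + 5)) ≤ |lp (dr d) (wd d t) j - lp (dr d) (wd d t) i| := by
      refine le_trans ?_ hbig
      have e1 : (2 : ℤ) ^ (s + 13) * (V * 2 ^ kc) = 256 * V * 2 ^ (kc + s + 5) := by
        rw [show kc + s + 5 = kc + (s + 5) by ring, pow_add 2 kc, show s + 13 = s + 5 + 8 by ring, pow_add 2 (s + 5) 8]
        ring
      rw [e1]
      have h4 : (0 : ℤ) < 2 ^ (kc + s + 5) := by positivity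
      nlinarith
    obtain ⟨l, c', b1, b2, b3, -, -, b4, b5, b6⟩ := piece_run (wd_WL d ht) hF htall hij (by rw [wd_length]; exact hj) h3
    exact Or.inr ⟨l, c', b1, b2, b3, b5, b6, b4⟩

end FIS

end HexObs
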