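import Pool.Agent.FIS.RunL
import Pool.Agent.FIS.RunGeo
import Pool.Agent.SIM.TallX
import Pool.Agent.SIM.AdjG
import Pool.Agent.SIM.EvX
import Pool.Agent.EN.EspM

/-!
FIS, the exact modulus (T2): the walks with exactly n letters and many leaves in a direction that have a large displacement
in this direction by a short piece.
-/

set_option autoImplicit false

namespace HexObs

namespace FIS

open Finset TS SDN NTW NTA EN SIM

open scoped ENNReal

open Classical in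
lemma runL_half {k s N V : ℕ} {S : Set (List Bool)} {a b : List (List Bool)} (ha : a ≠ []) (hb : b ≠ [])
    (h : a ++ b ∈ RunL k s S N V) : a ∈ RunL k s S N (V / 2) ∨ b ∈ RunL k s S N (V / 2) := by
  obtain ⟨-, h2, h3, h4⟩ := h
  rw [List.map_append, List.sum_append] at h4
  rw [List.filter_append, List.length_append] at h3
  rcases le_total ((b.map fun g => hgt g / 2 ^ (k + s) + 1).sum) ((a.map fun g => hgt g / 2 ^ (k + s) + 1).sum) with h5 | h5
  · exact Or.inl ⟨ha, fun g hg => h2 g (List.mem_append_left _ hg), by omega, by omega⟩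
  · exact Or.inr ⟨hb, fun g hg => h2 g (List.mem_append_right _ hg), by omega, by omega⟩

lemma runL_le {k s N V V' : ℕ} {S : Set (List Bool)} (h : V ≤ V') : RunL k s S N V' ⊆ RunL k s S N V :=
  fun _ hgs => ⟨hgs.1, hgs.2.1, hgs.2.2.1, h.trans hgs.2.2.2⟩

lemma runL_mono {k s s' N V : ℕ} {S : Set (List Bool)} (h : s ≤ s') : RunL k s' S N V ⊆ RunL k s S N V := by
  rintro gs ⟨h1, h2, h3, h4⟩
  refine ⟨h1, h2, h3, h4.trans (List.sum_le_sum fun g _ => ?_)⟩
  have : hgt g / 2 ^ (k + s') ≤ hgt g / 2 ^ (k + s) :=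
    Nat.div_le_div_left (Nat.pow_le_pow_right (by norm_num) (by omega)) (by positivity)
  omega

lemma inH_runL {k s N V : ℕ} {S : Set (List Bool)} : InH (2 ^ (k + 4)) (RunL k s S N V) :=
  fun _ hgs g hg => (hgs.2.1 g hg).2

/-- **a run of RunL in a word with many leaves** -/
theorem hr_adj_runL {d : Fin 3} {kc K J1 m u l c s N V : ℕ} {S : Set (List Bool)} {t : List Bool} {e : ℕ → ℕ}
    (ht : t ∈ WL K) (hK : kc + 2 ≤ K) (hJ : 1 ≤ J1) (hF : Lf (dr d) (kc + 5) (wd d t) m u e) (hl : 2 ≤ l) (hc : 1 ≤ c)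
    (hm : l + c + 1 ≤ m) (hR : lws (wd d t) e l c ∈ RunL kc s S N V) (hbig : 4 * J1 + 3 ≤ m) :
    HR d kc (Adj kc (2 ^ (K + 3)) J1 (RunL kc s S N (V / 2))) t := by
  rcases Nat.lt_or_ge c (2 * J1) with h | h
  · exact hr_adj_short ht hK hJ hF hl hc hm (runL_le (Nat.div_le_self _ _) hR) (by omega)
  · obtain ⟨b, rfl⟩ : ∃ b, c = J1 + b := ⟨c - J1, by omega⟩
    rw [lws_add] at hR
    rcases runL_half (lws_ne hJ) (lws_ne (by omega)) hR with h1 | h1
    · exact hr_adj ht hK hJ hF hl hJ (by omega) h1 (Or.inr (by omega))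
    · exact hr_adj ht hK hJ hF (by omega) (by omega) (by omega) h1 (Or.inl (by omega))

open Classical in
/-- the number of the long leaves -/
lemma card_long {gs : List (List Bool)} {S : Set (List Bool)} {lam x : ℝ} (hS : ∀ g, g ∉ S → lam ≤ (g.length : ℝ))
    (h : ((gs.map List.length).sum : ℝ) ≤ x) : ((gs.filter fun g => g ∉ S).length : ℝ) * lam ≤ x := by
  refine le_trans ?_ h
  clear h
  induction gs with
  | nil => simp
  | cons g gs ih =>
    rw [List.map_cons, List.sum_cons, Nat.cast_add]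
    by_cases hg : g ∈ S
    · rw [List.filter_cons_of_neg (by simpa using hg)]
      have : (0 : ℝ) ≤ (g.length : ℝ) := Nat.cast_nonneg _
      linarith
    · rw [List.filter_cons_of_pos (by simpa using hg), List.length_cons, Nat.cast_add, add_mul, Nat.cast_one, one_mul]
      linarith [hS g hg]

/-- **R3: a large displacement by a short piece, exactly n letters** -/
theorem modD_of {m : ℕ → ℝ} (hm : ∀ k, 0 < m k) (hMG : MG m) (hEv : EvAX m) (hS : ShortM m) (hT : TallX m) : ModD m := by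
  classical
  obtain ⟨s1, J0, e0, T, he0, hT1, hrun⟩ := run_few
  obtain ⟨s2, kT, JT, CT, hCT, htall⟩ := hT
  obtain ⟨C1, kX, J1, hC1, hJ1, hX⟩ := hEv
  obtain ⟨Cm, hCm, hmg⟩ := hMG
  obtain ⟨A, hA, hshort⟩ := hS 1
  have hA0 : 0 < A := by linarith
  obtain ⟨y, hy⟩ : ∃ y : ℝ, y = min 1 (e0 / (A * 4 ^ J0)) := ⟨_, rfl⟩
  have hy0 : 0 < y := by
    rw [hy]
    exact lt_min one_pos (by positivity)
  have hy1 : y ≤ 1 := by
    rw [hy]
    exact min_le_left _ _
  have hye : A * 4 ^ J0 * y ^ 1 ≤ e0 := by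
    have h1 : y ≤ e0 / (A * 4 ^ J0) := by
      rw [hy]
      exact min_le_right _ _
    rw [le_div_iff₀ (by positivity)] at h1
    rw [pow_one]
    linarith
  obtain ⟨q, hq⟩ : ∃ q : ℕ, 1 / y ≤ q := exists_nat_ge _
  rw [div_le_iff₀ hy0] at hq
  obtain ⟨s, hs⟩ : ∃ s, s = s1 + s2 + 5 := ⟨_, rfl⟩
  obtain ⟨c, hgeo⟩ := run_geo s (by omega)
  have hC0 : 1 ≤ C1 + CT := by linarith
  have hTq : 1 ≤ T ^ q := one_le_pow₀ hT1
  have hCC : 1 ≤ 2 * Cm * (4 * (C1 + CT)) :=
    one_le_mul_of_one_le_of_one_le (by linarith) (by linarith)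
  refine ⟨2 * Cm * (4 * (C1 + CT)), T ^ q, kT + kX, 8 * J1 + 8 + 2 * JT + 4, c + 1, hCC, hTq,
    fun d kc J n N V hk hJ hV => ?_⟩
  have hmk := hm kc
  have hmK := hm (kc + J)
  have hU := Ub_pos (kc + J)
  obtain ⟨S, hSd⟩ : ∃ S : Set (List Bool), S = {g | (g.length : ℝ) < y * m kc} := ⟨_, rfl⟩
  obtain ⟨R, hRd⟩ : ∃ R : Set (List (List Bool)), R = RunL kc s S (q * N) V := ⟨_, rfl⟩
  obtain ⟨δ, hδ⟩ : ∃ δ : ℝ, δ = (T ^ q) ^ N / 2 ^ V := ⟨_, rfl⟩
  have hδ0 : 0 < δ := by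
    rw [hδ]
    positivity
  -- the norm
  have hnorm : SmR DmJ kc R δ := by
    have h1 : SmD DmJ kc {g | g ∈ BrR (2 ^ (kc + 4)) (2 ^ (kc + J0)) ∧ g ∈ S} e0 := by
      refine SmD_le hye (smD_anti ?_ (hshort kc J0 y hy0 hy1))
      rintro g ⟨h1, h2⟩
      rw [hSd] at h2
      exact ⟨h1, h2⟩
    have h2 := hrun kc S h1 (q * N) V
    rw [hRd, hδ, ← pow_mul]
    exact SIM.SmR_mono (runL_mono (by omega)) h2
  have hH : InH (2 ^ (kc + 4)) R := by
    rw [hRd]
    exact inH_runL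
  obtain ⟨E1, hE1⟩ : ∃ E1 : Set (List Bool), E1 = {t | t.length = n ∧ t ∈ WL (kc + J) ∧
      HR d kc (Adj kc (2 ^ (kc + J + 3)) J1 R) t} := ⟨_, rfl⟩
  obtain ⟨E2, hE2⟩ : ∃ E2 : Set (List Bool), E2 = {t | t.length = n ∧ t ∈ WL (kc + J) ∧ ∃ (a u : ℕ) (e : ℕ → ℕ),
      Lf (dr d) (kc + 5) (wd d t) a u e ∧ JT ≤ a ∧ ∃ j, j < a ∧ 3 * (((2 * V : ℕ) : ℤ) * 2 ^ (kc + s2)) ≤
      |lp (dr d) (wd d t) (e (j + 1)) - lp (dr d) (wd d t) (e j)|} := ⟨_, rfl⟩
  have h1 : gf E1 ≤ ENNReal.ofReal (C1 ^ J * δ * (Ub (kc + J) / m kc)) * Xb (kc + J) ^ 2 := by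
    rw [hE1]
    exact hX d kc J n R δ (by omega) hJ hδ0 hH hnorm
  have h2 : gf E2 ≤ ENNReal.ofReal (CT ^ J / 2 ^ (2 * V) * (Ub (kc + J) / m kc)) * Xb (kc + J) ^ 2 := by
    rw [hE2]
    exact htall d kc J n (2 * V) (by omega) hJ (by omega)
  -- the cover
  have hcov : {t | (t.length = n ∧ t ∈ WL (kc + J)) ∧
      Alt (fun a => lv3 d (vx oo up t a)) t.length (8 * J1 + 8 + 2 * JT + 4) (RR (kc + 5)) ∧
      ∃ i j : ℕ, i ≤ j ∧ j ≤ t.length ∧ (j : ℝ) - i ≤ N * m kc ∧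
        (2 : ℤ) ^ (c + 1) * ((V : ℤ) * 2 ^ kc) ≤ |lv3 d (vx oo up t j) - lv3 d (vx oo up t i)|} ⊆ E1 ∪ E2 := by
    rintro t ⟨⟨hn, ht⟩, hAlt, i, j, hij, hj, hlen, hbig⟩
    obtain ⟨a, u, e, hF⟩ := lf_exists (dr d) (kc + 5) (wd d t)
    have ha : 8 * J1 + 8 + 2 * JT + 4 ≤ 2 * a + 3 := by
      have h3 := hF
      unfold Lf at h3
      refine count_hyst h3 le_rfl ?_
      rw [wd_length]
      exact alt_congr hAlt fun i hi => (lvl_wd d t (by omega)).symm
    have hbig' : (2 : ℤ) ^ c * (((2 * V : ℕ) : ℤ) * 2 ^ kc) ≤ |lv3 d (vx oo up t j) - lv3 d (vx oo up t i)| := by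
      refine le_trans (le_of_eq ?_) hbig
      push_cast
      ring
    rcases hgeo d kc (kc + J) (2 * V) i j a u t e (by omega) ht (by omega) hF hij hj hbig' with
      ⟨p, hp, h3⟩ | ⟨l, c', hl, hc', hlc, hsum, hlet, hcl⟩
    · right
      rw [hE2]
      refine ⟨hn, ht, a, u, e, hF, by omega, p, hp, le_trans ?_ h3⟩
      have e1 : (2 : ℤ) ^ (kc + s2) ≤ 2 ^ (kc + s) := pow_le_pow_right₀ (by norm_num) (by omega)
      have e2 : (0 : ℤ) ≤ ((2 * V : ℕ) : ℤ) := by positivity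
      nlinarith
    · left
      rw [hE1]
      refine ⟨hn, ht, ?_⟩
      have hmem : lws (wd d t) e l c' ∈ RunL kc s S (q * N) (2 * V) := by
        refine ⟨lws_ne hc', hcl, ?_, hsum⟩
        have hy2 : 0 < y * m kc := by positivity
        have h3 : (((lws (wd d t) e l c').map List.length).sum : ℝ) ≤ N * m kc := by
          have h4 : ((((lws (wd d t) e l c').map List.length).sum : ℕ) : ℝ) ≤ ((j - i : ℕ) : ℝ) := by exact_mod_cast hlet
          rw [Nat.cast_sub hij] at h4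
          exact h4.trans hlen
        have hSl : ∀ g, g ∉ S → y * m kc ≤ (g.length : ℝ) := by
          intro g hg
          rw [hSd] at hg
          exact not_lt.1 hg
        have h4 := card_long hSl h3
        have h5 : (((lws (wd d t) e l c').filter fun g => g ∉ S).length : ℝ) ≤ ((q * N : ℕ) : ℝ) := by
          push_cast
          by_contra hcon
          push Not at hcon
          have h6 : (q : ℝ) * N * (y * m kc) < N * m kc := (mul_lt_mul_of_pos_right hcon hy2).trans_le h4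
          have h7 : (N : ℝ) * m kc ≤ q * N * (y * m kc) := by
            have h8 : 0 ≤ (N : ℝ) * m kc := by positivity
            calc (N : ℝ) * m kc = 1 * (N * m kc) := (one_mul _).symm
              _ ≤ (q * y) * (N * m kc) := mul_le_mul_of_nonneg_right hq h8
              _ = _ := by ring
          linarith
        exact_mod_cast h5
      have h3 := hr_adj_runL ht (by omega) hJ1 hF hl hc' hlc hmem (by omega)
      rw [Nat.mul_div_cancel_left V (by norm_num), ← hRd] at h3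
      exact h3
  have hq0 : 0 ≤ Ub (kc + J) / m kc := by positivity
  refine (gf_mono hcov).trans ((gf_union_le _ _).trans ((add_le_add h1 h2).trans ?_))
  rw [← add_mul, ← ENNReal.ofReal_add (by positivity) (by positivity)]
  refine mul_le_mul_left (ENNReal.ofReal_le_ofReal ?_) _
  rw [← hδ]
  have e1 : C1 ^ J ≤ (C1 + CT) ^ J := pow_le_pow_left₀ (by linarith) (by linarith) _
  have e2 : CT ^ J ≤ (C1 + CT) ^ J := pow_le_pow_left₀ (by linarith) (by linarith) _
  have e3 : 1 / 2 ^ (2 * V) ≤ δ := by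
    rw [hδ]
    have e4 : (1 : ℝ) ≤ (T ^ q) ^ N := one_le_pow₀ hTq
    have e5 : (1 : ℝ) / 2 ^ (2 * V) ≤ 1 / 2 ^ V := by
      apply one_div_le_one_div_of_le (by positivity)
      exact pow_le_pow_right₀ (by norm_num) (by omega)
    exact e5.trans (div_le_div_of_nonneg_right e4 (by positivity))
  have e6 : 1 / m kc ≤ Cm * 4 ^ J / m (kc + J) := by
    rw [div_le_div_iff₀ hmk hmK, one_mul]
    refine (hmg kc J).trans ?_
    have e7 : (2 : ℝ) ^ (3 / 2 * (J : ℝ)) ≤ 4 ^ J := by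
      calc (2 : ℝ) ^ (3 / 2 * (J : ℝ)) ≤ (2 : ℝ) ^ (2 * (J : ℝ)) := by
            apply Real.rpow_le_rpow_of_exponent_le (by norm_num)
            have h0 : (0 : ℝ) ≤ J := Nat.cast_nonneg _
            linarith
        _ = 4 ^ J := by
            rw [Real.rpow_mul (by norm_num), Real.rpow_natCast]
            norm_num
    gcongr
  have e8 : Ub (kc + J) / m kc ≤ Ub (kc + J) * (Cm * 4 ^ J / m (kc + J)) := by
    rw [div_eq_mul_one_div]
    gcongr
  have e9 : CT ^ J / 2 ^ (2 * V) ≤ (C1 + CT) ^ J * δ := by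
    rw [div_eq_mul_one_div]
    exact mul_le_mul e2 e3 (by positivity) (by positivity)
  calc C1 ^ J * δ * (Ub (kc + J) / m kc) + CT ^ J / 2 ^ (2 * V) * (Ub (kc + J) / m kc)
      ≤ (C1 + CT) ^ J * δ * (Ub (kc + J) / m kc) + (C1 + CT) ^ J * δ * (Ub (kc + J) / m kc) := by gcongr
    _ = 2 * ((C1 + CT) ^ J * δ) * (Ub (kc + J) / m kc) := by ring
    _ ≤ 2 * ((C1 + CT) ^ J * δ) * (Ub (kc + J) * (Cm * 4 ^ J / m (kc + J))) := by gcongr
    _ = (2 * Cm) * ((4 * (C1 + CT)) ^ J * δ * (Ub (kc + J) / m (kc + J))) := by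
        rw [mul_pow]
        ring
    _ ≤ (2 * Cm) ^ J * ((4 * (C1 + CT)) ^ J * δ * (Ub (kc + J) / m (kc + J))) := by
        have e10 : 2 * Cm ≤ (2 * Cm) ^ J := by
          calc 2 * Cm = (2 * Cm) ^ 1 := by rw [pow_one]
            _ ≤ _ := pow_le_pow_right₀ (by linarith) (by omega)
        gcongr
    _ = _ := by
        rw [mul_pow (2 * Cm)]
        ring

/-- **R3, the scale of mZ** -/
theorem modD_M : ModD (fun k => PW.mZ (2 ^ k)) :=
  modD_of (fun _ => PW.mZ_pos Nat.one_le_two_pow) mg_M evAX (shortM_M asm_M) tallX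

end FIS

end HexObs
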