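import Pool.Agent.NTS.FishDefs

/-!
FIS, the exact modulus of continuity at every number of letters (T2): numbers for the sum over the scales.
-/

set_option autoImplicit false

namespace HexObs

namespace FIS

open Finset TS SDN NTW

namespace MSum

/-- the number of octaves for the scale r -/
lemma pick16 {A : ℝ} {i0 : ℕ} (h0 : (16 : ℝ) ^ i0 ≤ A) (r : ℕ) :
    ∃ i : ℕ, i0 + 1 ≤ i ∧ A * (1 + r) ≤ 16 ^ i ∧ (16 : ℝ) ^ i ≤ 16 * (A * (1 + r)) := by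
  have hA : 1 ≤ A := (one_le_pow₀ (by norm_num)).trans h0
  have hr : (0 : ℝ) ≤ r := Nat.cast_nonneg r
  have hx : 1 ≤ A * (1 + r) := by nlinarith
  obtain ⟨n, h1, h2⟩ := exists_nat_pow_near hx (show (1 : ℝ) < 16 by norm_num)
  refine ⟨n + 1, ?_, h2.le, ?_⟩
  · have h3 : (16 : ℝ) ^ i0 < 16 ^ (n + 1) := by nlinarith
    have h4 := (pow_lt_pow_iff_right₀ (show (1 : ℝ) < 16 by norm_num)).1 h3
    omega
  · rw [pow_succ]
    linarith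

/-- the sum over the scales -/
lemma num_sum (C T : ℝ) (hC : 1 ≤ C) (hT : 1 ≤ T) (N0 J : ℕ) {e : ℝ} (he : 0 < e) : ∃ (V0 : ℕ) (A : ℝ), 1 ≤ V0 ∧
    1 ≤ A ∧ ∀ r i : ℕ, A * (1 + r) ≤ 16 ^ i →
    C ^ (J + r + 3 * i) * (T ^ (N0 * 16 ^ i) / 2 ^ (V0 * 16 ^ i)) ≤ e / 2 ^ (r + 1) := by
  obtain ⟨b, hb⟩ : ∃ b : ℕ, C < 2 ^ b := pow_unbounded_of_one_lt C one_lt_two
  obtain ⟨τ, hτ⟩ : ∃ b : ℕ, T < 2 ^ b := pow_unbounded_of_one_lt T one_lt_two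
  obtain ⟨q, hq⟩ : ∃ b : ℕ, 1 / e < 2 ^ b := pow_unbounded_of_one_lt (1 / e) one_lt_two
  refine ⟨τ * N0 + 3 * b + 1, ((b * J + b + q + 2 : ℕ) : ℝ), by omega, by exact_mod_cast (by omega), fun r i h => ?_⟩
  have hN : (b * J + b + q + 2) * (1 + r) ≤ 16 ^ i := by exact_mod_cast h
  have hi : i ≤ 16 ^ i := (Nat.lt_pow_self (by norm_num)).le
  have hexp : b * (J + r + 3 * i) + τ * (N0 * 16 ^ i) + (r + 1) + q ≤ (τ * N0 + 3 * b + 1) * 16 ^ i := by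
    have h1 : 3 * b * i ≤ 3 * b * 16 ^ i := Nat.mul_le_mul_left _ hi
    have h2 : b * (J + r + 3 * i) + (r + 1) + q ≤ (b * J + b + q + 2) * (1 + r) + 3 * b * i := by
      have h3 : (b * J + b + q + 2) * (1 + r) = b * J + b * r + r + 2 + q + b + r * (b * J + q) + r := by ring
      rw [h3]
      have h4 : b * (J + r + 3 * i) = b * J + b * r + 3 * b * i := by ring
      rw [h4]
      have h5 := Nat.zero_le (r * (b * J + q))
      omega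
    have h3 : (τ * N0 + 3 * b + 1) * 16 ^ i = τ * (N0 * 16 ^ i) + 3 * b * 16 ^ i + 16 ^ i := by ring
    omega
  have h1 : C ^ (J + r + 3 * i) ≤ 2 ^ (b * (J + r + 3 * i)) := by
    refine (pow_le_pow_left₀ (by linarith) hb.le _).trans (le_of_eq ?_)
    rw [← pow_mul]
  have h2 : T ^ (N0 * 16 ^ i) ≤ 2 ^ (τ * (N0 * 16 ^ i)) := by
    refine (pow_le_pow_left₀ (by linarith) hτ.le _).trans (le_of_eq ?_)
    rw [← pow_mul]
  have h3 : 1 ≤ e * 2 ^ q := by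
    rw [div_lt_iff₀ he] at hq
    linarith
  rw [← mul_div_assoc, div_le_div_iff₀ (by positivity) (by positivity)]
  calc C ^ (J + r + 3 * i) * T ^ (N0 * 16 ^ i) * 2 ^ (r + 1) ≤
      2 ^ (b * (J + r + 3 * i)) * 2 ^ (τ * (N0 * 16 ^ i)) * 2 ^ (r + 1) := by gcongr
    _ ≤ 2 ^ (b * (J + r + 3 * i)) * 2 ^ (τ * (N0 * 16 ^ i)) * 2 ^ (r + 1) * (e * 2 ^ q) :=
        le_mul_of_one_le_right (by positivity) h3
    _ = e * 2 ^ (b * (J + r + 3 * i) + τ * (N0 * 16 ^ i) + (r + 1) + q) := by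
        rw [pow_add, pow_add, pow_add]
        ring
    _ ≤ _ := by
        refine mul_le_mul_of_nonneg_left ?_ he.le
        exact pow_le_pow_right₀ (by norm_num) hexp

/-- the modulus from below -/
lemma psi_low {c h : ℝ} (hc : 0 < c) (hc1 : c ≤ 1) {r : ℕ} (h0 : c * (2 : ℝ) ^ (-(4 / 3 * (r : ℝ))) ≤ h) (h1 : h ≤ 1) :
    c / 2 * (1 + (r : ℝ)) ^ (1 / 4 : ℝ) ≤ 2 ^ r * psi h := by
  obtain ⟨u, hu⟩ : ∃ u, u = c * (2 : ℝ) ^ (-(4 / 3 * (r : ℝ))) := ⟨_, rfl⟩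
  have hr : (0 : ℝ) ≤ r := Nat.cast_nonneg r
  have hp : (0 : ℝ) < (2 : ℝ) ^ (-(4 / 3 * (r : ℝ))) := Real.rpow_pos_of_pos two_pos _
  have hu0 : 0 < u := by rw [hu]; positivity
  have h2 : psi u ≤ psi h := psi_mono hu0.le (by rw [hu]; exact h0) h1
  have h3 : c * (2 ^ r)⁻¹ ≤ u ^ (3 / 4 : ℝ) := by
    rw [hu, Real.mul_rpow hc.le hp.le, ← Real.rpow_mul (by norm_num)]
    have e1 : (2 : ℝ) ^ (-(4 / 3 * (r : ℝ)) * (3 / 4)) = (2 ^ r)⁻¹ := by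
      rw [show -(4 / 3 * (r : ℝ)) * (3 / 4) = -(r : ℝ) by ring, Real.rpow_neg (by norm_num), Real.rpow_natCast]
    rw [e1]
    refine mul_le_mul_of_nonneg_right ?_ (by positivity)
    calc c = c ^ (1 : ℝ) := (Real.rpow_one c).symm
      _ ≤ _ := Real.rpow_le_rpow_of_exponent_ge hc hc1 (by norm_num)
  have h4 : (1 + (r : ℝ)) / 16 ≤ 1 - Real.log u := by
    have e1 : Real.log u = Real.log c + -(4 / 3 * (r : ℝ)) * Real.log 2 := by
      rw [hu, Real.log_mul hc.ne' hp.ne', Real.log_rpow two_pos]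
    have e2 : Real.log c ≤ 0 := Real.log_nonpos hc.le hc1
    have e3 := Real.log_two_gt_d9
    rw [e1]
    nlinarith
  have h5 : (1 + (r : ℝ)) ^ (1 / 4 : ℝ) / 2 ≤ (1 - Real.log u) ^ (1 / 4 : ℝ) := by
    have e1 : (1 + (r : ℝ)) ^ (1 / 4 : ℝ) / 2 = ((1 + (r : ℝ)) / 16) ^ (1 / 4 : ℝ) := by
      rw [Real.div_rpow (by positivity) (by norm_num)]
      congr 1
      rw [show (16 : ℝ) = 2 ^ (4 : ℝ) by norm_num, ← Real.rpow_mul (by norm_num)]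
      norm_num
    rw [e1]
    exact Real.rpow_le_rpow (by positivity) h4 (by norm_num)
  have h6 : 0 ≤ (1 + (r : ℝ)) ^ (1 / 4 : ℝ) := by positivity
  calc c / 2 * (1 + (r : ℝ)) ^ (1 / 4 : ℝ) = 2 ^ r * (c * (2 ^ r)⁻¹ * ((1 + (r : ℝ)) ^ (1 / 4 : ℝ) / 2)) := by
        field_simp
    _ ≤ 2 ^ r * (u ^ (3 / 4 : ℝ) * (1 - Real.log u) ^ (1 / 4 : ℝ)) := by gcongr
    _ = 2 ^ r * psi u := rfl
    _ ≤ _ := by gcongr

/-- two to the number of octaves against the modulus -/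
lemma key_num {c h A : ℝ} (hc : 0 < c) (hc1 : c ≤ 1) (hA : 1 ≤ A) {r i : ℕ}
    (h0 : c * (2 : ℝ) ^ (-(4 / 3 * (r : ℝ))) ≤ h) (h1 : h ≤ 1) (hi : (16 : ℝ) ^ i ≤ 16 * (A * (1 + r))) :
    (2 : ℝ) ^ i ≤ 4 * A / c * (2 ^ r * psi h) := by
  have h2 := psi_low hc hc1 h0 h1
  have hr : (0 : ℝ) ≤ r := Nat.cast_nonneg r
  obtain ⟨y, hy⟩ : ∃ y, y = (1 + (r : ℝ)) ^ (1 / 4 : ℝ) := ⟨_, rfl⟩
  have hy0 : 0 ≤ y := by rw [hy]; positivity
  have hy4 : y ^ 4 = 1 + r := by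
    rw [hy, ← Real.rpow_natCast, ← Real.rpow_mul (by positivity)]
    norm_num
  have h3 : (2 : ℝ) ^ i ≤ 2 * A * y := by
    refine le_of_pow_le_pow_left₀ (show (4 : ℕ) ≠ 0 by norm_num) (by positivity) ?_
    have e1 : ((2 : ℝ) ^ i) ^ 4 = 16 ^ i := by
      rw [← pow_mul, mul_comm, pow_mul]
      norm_num
    have e2 : A ≤ A ^ 4 := by
      calc A = A ^ 1 := (pow_one A).symm
        _ ≤ A ^ 4 := pow_le_pow_right₀ hA (by norm_num)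
    rw [e1, mul_pow, mul_pow, hy4]
    calc (16 : ℝ) ^ i ≤ 16 * (A * (1 + r)) := hi
      _ ≤ 16 * (A ^ 4 * (1 + r)) := by gcongr
      _ = _ := by ring
  rw [← hy] at h2
  calc (2 : ℝ) ^ i ≤ 2 * A * y := h3
    _ = 4 * A / c * (c / 2 * y) := by
        field_simp
        ring
    _ ≤ _ := by gcongr

/-- the scale of a piece of x letters -/
lemma scale_pick {m : ℕ → ℝ} (hmono : Monotone m) {cl Cu : ℝ} (hcl : 0 < cl) (hCu : 1 ≤ Cu)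
    (hlo : ∀ k : ℕ, cl * (2 : ℝ) ^ (4 / 3 * (k : ℝ)) ≤ m k) (hup : ∀ k : ℕ, m k ≤ Cu * (2 : ℝ) ^ (4 / 3 * (k : ℝ)))
    {k n x : ℕ} (hx : 1 ≤ x) (hxn : x ≤ n) (hn : (n : ℝ) < m (k + 1)) :
    ∃ r : ℕ, r ≤ k ∧ (x : ℝ) < m (k - r + 1) ∧ min cl 1 / (4 * Cu) * (2 : ℝ) ^ (-(4 / 3 * (r : ℝ))) ≤ (x : ℝ) / n := by
  classical
  have hn0 : (0 : ℝ) < n := by exact_mod_cast (by omega : 0 < n)
  have hx1 : (1 : ℝ) ≤ x := by exact_mod_cast hx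
  have hmin : 0 < min cl 1 := lt_min hcl one_pos
  -- the lower bound
  have key : ∀ r : ℕ, r ≤ k → min cl 1 * (2 : ℝ) ^ (4 / 3 * ((k - r : ℕ) : ℝ)) ≤ x →
      min cl 1 / (4 * Cu) * (2 : ℝ) ^ (-(4 / 3 * (r : ℝ))) ≤ (x : ℝ) / n := by
    intro r hr h
    have e1 : (n : ℝ) ≤ Cu * (4 * (2 : ℝ) ^ (4 / 3 * (k : ℝ))) := by
      refine hn.le.trans ((hup (k + 1)).trans (mul_le_mul_of_nonneg_left ?_ (by linarith)))
      have : (4 : ℝ) * (2 : ℝ) ^ (4 / 3 * (k : ℝ)) = (2 : ℝ) ^ (2 + 4 / 3 * (k : ℝ)) := by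
        rw [Real.rpow_add two_pos]
        norm_num
      rw [this]
      refine Real.rpow_le_rpow_of_exponent_le (by norm_num) ?_
      push_cast
      linarith
    have e2 : (2 : ℝ) ^ (4 / 3 * ((k - r : ℕ) : ℝ)) = (2 : ℝ) ^ (4 / 3 * (k : ℝ)) * (2 : ℝ) ^ (-(4 / 3 * (r : ℝ))) := by
      rw [← Real.rpow_add two_pos, Nat.cast_sub hr]
      congr 1
      ring
    rw [e2] at h
    have hp : (0 : ℝ) < (2 : ℝ) ^ (4 / 3 * (k : ℝ)) := Real.rpow_pos_of_pos two_pos _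
    have hq : (0 : ℝ) < (2 : ℝ) ^ (-(4 / 3 * (r : ℝ))) := Real.rpow_pos_of_pos two_pos _
    rw [le_div_iff₀ hn0]
    calc min cl 1 / (4 * Cu) * (2 : ℝ) ^ (-(4 / 3 * (r : ℝ))) * n ≤
          min cl 1 / (4 * Cu) * (2 : ℝ) ^ (-(4 / 3 * (r : ℝ))) * (Cu * (4 * (2 : ℝ) ^ (4 / 3 * (k : ℝ)))) := by gcongr
      _ = min cl 1 * ((2 : ℝ) ^ (4 / 3 * (k : ℝ)) * (2 : ℝ) ^ (-(4 / 3 * (r : ℝ)))) := by
          field_simp
      _ ≤ x := h
  by_cases hex : ∃ r : ℕ, r ≤ k ∧ m (k - r) ≤ x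
  · obtain ⟨h1, h2⟩ := Nat.find_spec hex
    refine ⟨Nat.find hex, h1, ?_, key _ h1 ?_⟩
    · rcases Nat.eq_zero_or_pos (Nat.find hex) with h0 | h0
      · rw [h0]
        have : (x : ℝ) ≤ n := by exact_mod_cast hxn
        exact this.trans_lt hn
      · have h3 := Nat.find_min hex (show Nat.find hex - 1 < Nat.find hex by omega)
        push Not at h3
        have h4 := h3 (by omega)
        rwa [show k - (Nat.find hex - 1) = k - Nat.find hex + 1 by omega] at h4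
    · refine le_trans (mul_le_mul_of_nonneg_right (min_le_left _ _) (by positivity)) ((hlo _).trans h2)
  · push Not at hex
    refine ⟨k, le_rfl, ?_, key k le_rfl ?_⟩
    · have := hex k le_rfl
      rw [Nat.sub_self] at this
      exact this.trans_le (hmono (Nat.zero_le _))
    · rw [Nat.sub_self, Nat.cast_zero, mul_zero, Real.rpow_zero, mul_one]
      exact (min_le_right _ _).trans hx1

end MSum

end FIS

end HexObs
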