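import Pool.Agent.FIS.ModD
import Pool.Agent.FIS.ModSum
import Pool.Agent.SIM.FewX
import Pool.Agent.EN.FactsZ
import Pool.Agent.VF.MeanZ
import Pool.Agent.VF.SharpZ

/-!
FIS, the exact modulus of continuity at every number of letters (T2), no hypothesis.
-/

set_option autoImplicit false

namespace HexObs

namespace FIS

open NTW EN

/-- **the exact modulus of continuity, every number of letters, no hypothesis** -/
theorem moduX_M : ModuX (fun k => PW.mZ (2 ^ k)) :=
  modSum (fun _ => PW.mZ_pos Nat.one_le_two_pow) (fun _ _ h => PW.mZ_mono (Nat.pow_le_pow_right (by norm_num) h))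
    (VF.mLow VF.sharpZ) (let ⟨C, _, h⟩ := VF.mUp VF.sharpZ; ⟨C, h⟩) espw_M SIM.fewX_M modD_M

end FIS

end HexObs
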