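import Pool.Agent.SIM.GeoIrg

/-!
FIS (the tail exponent 4): a piece of a walk with a large displacement and without a tall leaf contains a run of interior
leaves with a large sum of heights; the leaves of the run have at most as many letters as the piece.
-/

set_option autoImplicit false

namespace HexObs

namespace FIS

open Finset TS SDN NTW NTA SIM SIM.GI

open scoped ENNReal

/-- the letters of consecutive leaves -/
lemma lws_letters {t : List Bool} {e : ℕ → ℕ} (l : ℕ) : ∀ d : ℕ, (∀ i, i < d → (lw t (e (l + i)) (e (l + i + 1))).length +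
    e (l + i) ≤ e (l + i + 1)) → ((lws t e l d).map List.length).sum + e l ≤ e (l + d) := by
  intro d
  induction d with
  | zero =>
    intro _
    rw [show lws t e l 0 = [] from rfl]
    simp
  | succ d ih =>
    intro h
    have h1 := ih fun i hi => h i (by omega)
    have h2 := h d (by omega)
    have h3 : ((lws t e l (d + 1)).map List.length).sum = ((lws t e l d).map List.length).sum +
        (lw t (e (l + d)) (e (l + d + 1))).length := by
      unfold lws
      rw [List.range_succ]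
      simp only [List.map_append, List.map_cons, List.map_nil, List.sum_append, List.sum_cons, List.sum_nil, add_zero]
    rw [h3]
    have : e (l + (d + 1)) = e (l + d + 1) := by rw [← add_assoc]
    omega

/-- **from a piece with a large displacement to a run inside the piece** -/
theorem piece_run {dir : Bool} {k K s V m u x y : ℕ} {t : List Bool} {e : ℕ → ℕ} (htW : t ∈ WL K)
    (hF : Lf dir (k + 5) t m u e) (htall : ∀ j, j < m → |lp dir t (e (j + 1)) - lp dir t (e j)| < 3 * ((V : ℤ) * 2 ^ (k + s)))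
    (hxy : x ≤ y) (hy : y ≤ t.length) (hbig : 96 * ((V + 1 : ℤ) * 2 ^ (k + s + 5)) ≤ |lp dir t y - lp dir t x|) :
    ∃ l d : ℕ, 2 ≤ l ∧ 1 ≤ d ∧ l + d + 1 ≤ m ∧ x ≤ e l ∧ e (l + d) ≤ y ∧
      (∀ g ∈ lws t e l d, g ∈ CL (k + 5) ∧ g ∈ HB (2 ^ (k + 4))) ∧
      V ≤ ((lws t e l d).map fun g => hgt g / 2 ^ (k + s) + 1).sum ∧ ((lws t e l d).map List.length).sum ≤ y - x := by
  have ht := htW.1
  obtain ⟨T, hT⟩ : ∃ T : ℤ, T = 3 * ((V + 1 : ℤ) * 2 ^ (k + s + 5)) := ⟨_, rfl⟩
  have hV0 : (0 : ℤ) ≤ V := Int.natCast_nonneg V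
  have hp1 : (1 : ℤ) ≤ 2 ^ (k + s) := one_le_pow₀ (by norm_num)
  have hp5 : (2 : ℤ) ^ (k + s + 5) = 32 * 2 ^ (k + s) := by rw [pow_add]; ring
  have hT0 : 0 ≤ T := by rw [hT]; positivity
  have hTR : RR (k + 5) ≤ T := by
    have h1 : (2 : ℤ) ^ (k + 5) ≤ 2 ^ (k + s + 5) := pow_le_pow_right₀ (by norm_num) (by omega)
    have h2 : (0 : ℤ) < 2 ^ (k + s + 5) := by positivity
    unfold RR
    rw [hT]
    nlinarith
  have hTj : ∀ j, j < m → |lp dir t (e (j + 1)) - lp dir t (e j)| ≤ T := by
    intro j hj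
    refine (htall j hj).le.trans ?_
    rw [hT, hp5]
    nlinarith
  obtain ⟨a, ha⟩ : ∃ a, a = T2.cpt t.length m e := ⟨_, rfl⟩
  have a0 : a 0 = 0 := by rw [ha]; exact T2.cpt_zero _ _ _
  have aM : a (m + 2) = t.length := by rw [ha]; exact T2.cpt_end _ _ _
  have am : ∀ p, p < m + 2 → a p ≤ a (p + 1) := by
    intro p hp
    rw [ha]
    exact cpt_mono hF hp
  have ai : ∀ i, i ≤ m → a (i + 1) = e i := by
    intro i hi
    rw [ha]
    exact T2.cpt_mid _ _ _ hi
  have amm : ∀ i j, i ≤ j → j ≤ m + 2 → a i ≤ a j := by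
    intro i j hij
    induction j, hij using Nat.le_induction with
    | base => intro _; exact le_rfl
    | succ j hj ih => intro hjM; exact (ih (by omega)).trans (am j (by omega))
  have hpc : ∀ p, p < m + 2 → ∀ i j, a p ≤ i → i ≤ a (p + 1) → a p ≤ j → j ≤ a (p + 1) →
      |lp dir t i - lp dir t j| ≤ T := by
    intro p hp i j hi hi' hj hj'
    rw [ha] at hi hi' hj hj'
    exact lf_osc hF hTj hTR hp hi hi' hj hj'
  have hxy' : x < y := by
    rcases Nat.eq_or_lt_of_le hxy with h1 | h1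
    · rw [h1, sub_self, abs_zero] at hbig
      have : (0 : ℤ) < (V + 1 : ℤ) * 2 ^ (k + s + 5) := by positivity
      omega
    · exact h1
  obtain ⟨p0, d, hpd, hx1, hx2, hy1, hy2⟩ := cut_restrict a0 aM am hxy' hy
  obtain ⟨la, hla⟩ : ∃ la, la = max p0 2 := ⟨_, rfl⟩
  obtain ⟨lb, hlb⟩ : ∃ lb, lb = min (p0 + d - 1) (m - 1) := ⟨_, rfl⟩
  obtain ⟨d', hd'⟩ : ∃ d', d' = lb - la := ⟨_, rfl⟩
  rcases Nat.eq_zero_or_pos d' with h0 | h0
  · -- no run
    exfalso
    have h1 := few_osc hT0 hpc (z := x) (d + 1) p0 y (by omega) hx1 hxy (by rw [← add_assoc]; exact hy2)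
    have h2 : ((d + 1 : ℕ) : ℤ) ≤ 6 := by
      have : d + 1 ≤ 6 := by omega
      exact_mod_cast this
    have h3 : ((d + 1 : ℕ) : ℤ) * T ≤ 6 * T := mul_le_mul_of_nonneg_right h2 hT0
    have h4 : (0 : ℤ) < (V + 1 : ℤ) * 2 ^ (k + s + 5) := by positivity
    rw [hT] at h3
    rw [hT] at h1
    linarith
  · -- a run
    have e1 : la + d' ≤ m - 1 := by omega
    have hlbe : lb = la + d' := by omega
    have z1 : a (la + 1) = e la := ai la (by omega)
    have z2 : a (lb + 1) = e lb := ai lb (by omega)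
    have hz1 : x ≤ a (la + 1) := hx2.le.trans (amm _ _ (by omega) (by omega))
    have hz2 : a (lb + 1) ≤ y := (amm _ (p0 + d) (by omega) (by omega)).trans hy1.le
    have hz12 : a (la + 1) ≤ a (lb + 1) := amm _ _ (by omega) (by omega)
    have h1 := few_osc hT0 hpc (z := x) (la + 1 - p0) p0 (a (la + 1)) (by omega) hx1 hz1
      (by rw [show p0 + (la + 1 - p0) = la + 1 by omega])
    have h2 := few_osc hT0 hpc (z := a (lb + 1)) (p0 + d - lb) (lb + 1) y (by omega) le_rfl hz2
      (by rw [show lb + 1 + (p0 + d - lb) = p0 + d + 1 by omega]; exact hy2)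
    have h3 := sum_osc (F := lp dir t) (e := e) (D := fun i => 3 * (hgt (lw t (e (la + i)) (e (la + i + 1))) : ℤ) + 1) la d'
      (fun i hi => by
        obtain ⟨n, n1, -, -, n4⟩ := NC.int_leafD ht (by omega : 1 ≤ k + 5) hF (j := la + i) (by omega) (by omega)
        show _ ≤ 3 * (hgt (lw t (e (la + i)) (e (la + i + 1))) : ℤ) + 1
        rw [hgt_eq n1]
        exact n4.le)
    rw [← hlbe] at h3
    have c1 : ((la + 1 - p0 : ℕ) : ℤ) ≤ 3 := by
      have : la + 1 - p0 ≤ 3 := by omega
      exact_mod_cast this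
    have c2 : ((p0 + d - lb : ℕ) : ℤ) ≤ 3 := by
      have : p0 + d - lb ≤ 3 := by omega
      exact_mod_cast this
    have c3 : ((la + 1 - p0 : ℕ) : ℤ) * T ≤ 3 * T := mul_le_mul_of_nonneg_right c1 hT0
    have c4 : ((p0 + d - lb : ℕ) : ℤ) * T ≤ 3 * T := mul_le_mul_of_nonneg_right c2 hT0
    rw [z1] at h1
    rw [z2] at h2
    have h4 : |lp dir t y - lp dir t x| ≤ |lp dir t y - lp dir t (e lb)| + |lp dir t (e lb) - lp dir t (e la)| +
        |lp dir t (e la) - lp dir t x| := by
      have b1 := abs_sub_le (lp dir t y) (lp dir t (e lb)) (lp dir t x)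
      have b2 := abs_sub_le (lp dir t (e lb)) (lp dir t (e la)) (lp dir t x)
      linarith
    -- the sum of the heights
    have hbr : ∀ g ∈ lws t e la d', ∃ n : ℕ, g ∈ Brd n ∧ 2 ^ (k + 4) ≤ n ∧ g ∈ CL (k + 5) := by
      intro g hg
      obtain ⟨i, hi, rfl⟩ := NC.lws_mem hg
      obtain ⟨n, n1, n2, n3, -⟩ := NC.int_leafD ht (by omega : 1 ≤ k + 5) hF (j := la + i) (by omega) (by omega)
      refine ⟨n, n1, ?_, n3⟩
      have h5 : 2 ^ (k + 5) = 2 * 2 ^ (k + 4) := by rw [← pow_succ']
      have h6 := Nat.one_le_two_pow (n := k + 4)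
      omega
    have hsum : (∑ i ∈ range d', (3 * (hgt (lw t (e (la + i)) (e (la + i + 1))) : ℤ) + 1)) ≤
        4 * (((lws t e la d').map hgt).sum : ℤ) := by
      rw [sum_lws hgt t e la d']
      push_cast
      rw [Finset.mul_sum]
      refine Finset.sum_le_sum fun i hi => ?_
      obtain ⟨n, n1, n2, n3, -⟩ := NC.int_leafD ht (by omega : 1 ≤ k + 5) hF (j := la + i)
        (by omega) (by rw [Finset.mem_range] at hi; omega)
      rw [hgt_eq n1]
      have h5 : 2 ≤ 2 ^ (k + 5) := by
        calc 2 = 2 ^ 1 := rfl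
          _ ≤ 2 ^ (k + 5) := Nat.pow_le_pow_right (by norm_num) (by omega)
      have h6 : (1 : ℤ) ≤ n := by
        have : 1 ≤ n := by omega
        exact_mod_cast this
      linarith
    have hVsum : V ≤ ((lws t e la d').map fun g => hgt g / 2 ^ (k + s) + 1).sum := by
      by_contra hcon
      rw [not_le] at hcon
      have h5 : ((lws t e la d').map hgt).sum ≤
          2 ^ (k + s) * ((lws t e la d').map fun g => hgt g / 2 ^ (k + s) + 1).sum := by
        generalize lws t e la d' = gs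
        induction gs with
        | nil => simp
        | cons g gs ih =>
          rw [List.map_cons, List.sum_cons, List.map_cons, List.sum_cons, mul_add]
          refine Nat.add_le_add ?_ ih
          exact (Nat.lt_mul_div_succ (hgt g) (by positivity)).le
      have h6 : 2 ^ (k + s) * ((lws t e la d').map fun g => hgt g / 2 ^ (k + s) + 1).sum ≤ 2 ^ (k + s) * V :=
        Nat.mul_le_mul_left _ hcon.le
      have h7 : (((lws t e la d').map hgt).sum : ℤ) ≤ 2 ^ (k + s) * V := by exact_mod_cast h5.trans h6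
      obtain ⟨P, hP⟩ : ∃ P : ℤ, P = (V + 1 : ℤ) * 2 ^ (k + s) := ⟨_, rfl⟩
      have h8 : 0 < P := by
        rw [hP]
        positivity
      have h9 : (2 : ℤ) ^ (k + s) * V ≤ P := by
        rw [hP, add_mul, one_mul, mul_comm]
        linarith
      have h10 : (V + 1 : ℤ) * 2 ^ (k + s + 5) = 32 * P := by
        rw [hP, hp5]
        ring
      rw [h10] at hbig hT
      linarith
    have hlet := lws_letters (t := t) (e := e) la d' (fun i hi => by
      obtain ⟨σ, hσ, hl, hlt, -⟩ := leaf_coord ht (by omega : 1 ≤ k + 5) hF (j := la + i) (by omega) (by omega)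
      rw [hl]
      omega)
    rw [z1] at hz1
    rw [z2] at hz2
    rw [← hlbe] at hlet
    refine ⟨la, d', by omega, h0, by omega, hz1, by rw [← hlbe]; exact hz2, fun g hg => ?_, hVsum, by omega⟩
    obtain ⟨n, n1, n2, n3⟩ := hbr g hg
    exact ⟨n3, n, n2, n1⟩

end FIS

end HexObs
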