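import Pool.Agent.SIM.RegDefs
import Pool.Agent.EN.EmoDefs

/-!
FIS, the exact modulus of continuity at every number of letters (T2): the literals.
-/

set_option autoImplicit false

namespace HexObs

namespace FIS

open Finset TS SDN NTW NTA EN

open scoped ENNReal

open Classical in
/-- runs of leaves without backtracks, at most N of them outside S, with a large sum of heights (in units 2 ^ (k + s)) -/
def RunL (k s : ℕ) (S : Set (List Bool)) (N V : ℕ) : Set (List (List Bool)) :=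
  {gs | gs ≠ [] ∧ (∀ g ∈ gs, g ∈ CL (k + 5) ∧ g ∈ HB (2 ^ (k + 4))) ∧ (gs.filter fun g => g ∉ S).length ≤ N ∧
    V ≤ (gs.map fun g => hgt g / 2 ^ (k + s) + 1).sum}

/-- a large displacement by a short piece, one direction, exactly n letters, many leaves in this direction -/
def ModD (m : ℕ → ℝ) : Prop := ∃ (C T : ℝ) (k0 M0 s : ℕ), 1 ≤ C ∧ 1 ≤ T ∧
  ∀ (d : Fin 3) (kc J n N V : ℕ), k0 ≤ kc → 6 ≤ J → 1 ≤ V →
  gf {t | (t.length = n ∧ t ∈ WL (kc + J)) ∧ Alt (fun a => lv3 d (vx oo up t a)) t.length M0 (RR (kc + 5)) ∧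
    ∃ i j : ℕ, i ≤ j ∧ j ≤ t.length ∧ (j : ℝ) - i ≤ N * m kc ∧
      (2 : ℤ) ^ s * ((V : ℤ) * 2 ^ kc) ≤ |lv3 d (vx oo up t j) - lv3 d (vx oo up t i)|} ≤
    ENNReal.ofReal (C ^ J * (T ^ N / 2 ^ V) * (Ub (kc + J) / m (kc + J))) * Xb (kc + J) ^ 2

end FIS

end HexObs
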