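import Pool.Agent.SIM.RunB
import Pool.Agent.SIM.Reg
import Pool.Agent.FIS.T2Defs

/-!
FIS, the exact modulus (T2): the norm of the runs of leaves with at most N leaves outside a small class and a large sum of
heights.
-/

set_option autoImplicit false

namespace HexObs

namespace FIS

open Finset TS SDN SDN.CN SDN.CCh NTW NTA SIM.TvSA

open scoped ENNReal

namespace RLA

open Classical in
/-- the weight of a leaf: 1 in S, r outside S -/
noncomputable def rho (S : Set (List Bool)) (r : ℝ≥0∞) (g : List Bool) : ℝ≥0∞ := if g ∈ S then 1 else r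

/-- the sum over the next n leaves, with the exponential moment, then the functional Φ of the last leaf -/
noncomputable def FG2 (S : Set (List Bool)) (r : ℝ≥0∞) (Φ : List Bool → ℝ≥0∞) (k s : ℕ) : ℕ → List Bool → ℝ≥0∞
  | 0 => Φ
  | n + 1 => fun t => ∑' j : ℕ, 2 ^ j * (vA (2 ^ (k + 4)) (SK S k s j) (FG2 S r Φ k s n) t +
      r * vA (2 ^ (k + 4)) (SK Sᶜ k s j) (FG2 S r Φ k s n) t)

lemma FG2_her (S : Set (List Bool)) (r : ℝ≥0∞) (Φ : List Bool → ℝ≥0∞) (k s n : ℕ) :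
    HerD (2 ^ (k + 4)) (FG2 S r Φ k s (n + 1)) := by
  constructor
  · intro a ha t
    exact ENNReal.tsum_le_tsum fun j => mul_le_mul_right (add_le_add (CN.hered_vA _ _ _ a ha t)
      (mul_le_mul_right (CN.hered_vA _ _ _ a ha t) _)) _
  · intro a t ht _
    exact ENNReal.tsum_le_tsum fun j => mul_le_mul_right (add_le_add (vA_suf (Nat.one_le_two_pow) _ _ ht)
      (mul_le_mul_right (vA_suf (Nat.one_le_two_pow) _ _ ht) _)) _

lemma near_one {S : Set (List Bool)} {r : ℝ≥0∞} {a b : ℕ → ℝ} {θ : ℝ} {k s : ℕ}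
    (hs : ∑' j : ℕ, (2 : ℝ≥0∞) ^ j * (ENNReal.ofReal (a j) + r * ENNReal.ofReal (b j)) ≤ ENNReal.ofReal θ)
    (h : ∀ n : ℕ, SmD DmJ k (SK S k s n) (a n)) (h' : ∀ n : ℕ, SmD DmJ k (SK Sᶜ k s n) (b n))
    {x : ℝ≥0∞} {F : List Bool → ℝ≥0∞} (hF : DmJ k x F) :
    xT (2 ^ (k + 4)) k (fun t => ∑' j : ℕ, 2 ^ j * (vA (2 ^ (k + 4)) (SK S k s j) F t +
      r * vA (2 ^ (k + 4)) (SK Sᶜ k s j) F t)) ≤ ENNReal.ofReal θ * x := by
  refine (xT_tsum _ _ _).trans ?_
  have h1 : ∀ j : ℕ, xT (2 ^ (k + 4)) k (fun t => 2 ^ j * (vA (2 ^ (k + 4)) (SK S k s j) F t +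
      r * vA (2 ^ (k + 4)) (SK Sᶜ k s j) F t)) ≤ 2 ^ j * (ENNReal.ofReal (a j) + r * ENNReal.ofReal (b j)) * x := by
    intro j
    refine (SDN.xT_smul _ _ _ _).trans ?_
    rw [mul_assoc]
    refine mul_le_mul_right ?_ _
    refine (SDN.xT_add _ _ _ _).trans ?_
    rw [add_mul, mul_assoc]
    exact add_le_add ((h j).near x F hF) ((SDN.xT_smul _ _ _ _).trans (mul_le_mul_right ((h' j).near x F hF) _))
  refine (ENNReal.tsum_le_tsum h1).trans ?_
  rw [ENNReal.tsum_mul_right]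
  exact mul_le_mul_left hs _

lemma Dm_FG2 {S : Set (List Bool)} {r : ℝ≥0∞} {a b : ℕ → ℝ} {θ : ℝ} {k s : ℕ} (hθ : 0 ≤ θ)
    (hs : ∑' j : ℕ, (2 : ℝ≥0∞) ^ j * (ENNReal.ofReal (a j) + r * ENNReal.ofReal (b j)) ≤ ENNReal.ofReal θ)
    (h : ∀ n : ℕ, SmD DmJ k (SK S k s n) (a n)) (h' : ∀ n : ℕ, SmD DmJ k (SK Sᶜ k s n) (b n))
    {x : ℝ≥0∞} {Φ : List Bool → ℝ≥0∞} (hΦ : DmJ k x Φ) (n : ℕ) :
    DmJ k (ENNReal.ofReal (θ ^ n) * x) (FG2 S r Φ k s n) ∧
      xT (2 ^ (k + 4)) k (FG2 S r Φ k s (n + 1)) ≤ ENNReal.ofReal (θ ^ (n + 1)) * x := by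
  induction n with
  | zero =>
    have h0 : DmJ k (ENNReal.ofReal (θ ^ 0) * x) (FG2 S r Φ k s 0) := by
      rw [pow_zero, ENNReal.ofReal_one, one_mul]
      exact hΦ
    refine ⟨h0, ?_⟩
    rw [zero_add, pow_one]
    exact near_one hs h h' hΦ
  | succ n ih =>
    have h0 : DmJ k (ENNReal.ofReal (θ ^ (n + 1)) * x) (FG2 S r Φ k s (n + 1)) :=
      (DmJ_dm k _ (FG2_her S r Φ k s n)).mono ih.2
    refine ⟨h0, ?_⟩
    refine (near_one hs h h' h0).trans (le_of_eq ?_)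
    rw [← mul_assoc, ← ENNReal.ofReal_mul hθ]
    congr 2
    rw [pow_succ θ (n + 1)]
    ring

open Classical in
/-- chains behind the leaf g -/
noncomputable def TG2 (S : Set (List Bool)) (r : ℝ≥0∞) (Φ : List Bool → ℝ≥0∞) (k s n : ℕ) (g : List Bool) : ℝ≥0∞ :=
  ∑' gs : List (List Bool), if gs.length = n ∧ (g :: gs).IsChain LFold ∧ (∀ u ∈ gs, u ∈ Sg k) then
    (gs.map (rho S r)).prod * (wv k s gs * Φ (gs.getLastD g)) else 0

lemma sum_leaf2 (S : Set (List Bool)) (r : ℝ≥0∞) (k s : ℕ) (R : List Bool → Prop) (Φ : List Bool → ℝ≥0∞)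
    (F G : ℕ → ℝ≥0∞) (hF : ∀ j, Rec8.sw {g | g ∈ SK S k s j ∧ R g} Φ ≤ F j)
    (hG : ∀ j, Rec8.sw {g | g ∈ SK Sᶜ k s j ∧ R g} Φ ≤ G j) :
    Rec8.sw {g | g ∈ Sg k ∧ R g} (fun g => 2 ^ (hgt g / 2 ^ (k + s)) * (rho S r g * Φ g)) ≤
      ∑' j : ℕ, 2 ^ j * (F j + r * G j) := by
  classical
  refine sum_leaf k s R (fun g => rho S r g * Φ g) _ fun j => ?_
  refine le_trans ?_ (add_le_add (hF j) (mul_le_mul_right (hG j) r))
  rw [Rec8.sw_ind, Rec8.sw_ind, Rec8.sw_ind, ← ENNReal.tsum_mul_left, ← ENNReal.tsum_add]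
  refine ENNReal.tsum_le_tsum fun g => ?_
  by_cases h0 : g ∈ {g | g ∈ CK (k + 5) (k + s) j ∩ HB (2 ^ (k + 4)) ∧ R g}
  · rw [if_pos h0]
    by_cases hS : g ∈ S
    · rw [if_pos (show g ∈ {g | g ∈ SK S k s j ∧ R g} from ⟨⟨h0.1, hS⟩, h0.2⟩)]
      unfold rho
      rw [if_pos hS, one_mul]
      exact le_self_add
    · rw [if_pos (show g ∈ {g | g ∈ SK Sᶜ k s j ∧ R g} from ⟨⟨h0.1, hS⟩, h0.2⟩)]
      unfold rho
      rw [if_neg hS]
      refine le_trans (le_of_eq ?_) le_add_self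
      ring
  · rw [if_neg h0]
    exact zero_le

lemma TG2_le (S : Set (List Bool)) (r : ℝ≥0∞) (Φ : List Bool → ℝ≥0∞) (k s n : ℕ) : ∀ g ∈ HB (2 ^ (k + 4)),
    TG2 S r Φ k s n g ≤ FG2 S r Φ k s n g := by
  classical
  induction n with
  | zero =>
    intro g _
    unfold TG2
    rw [tsum_eq_single []]
    · split_ifs
      · simp [wv, FG2]
      · exact zero_le
    · intro gs hgs
      rw [if_neg]
      rintro ⟨h, -⟩
      exact hgs (List.length_eq_zero_iff.1 h)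
  | succ n ih =>
    intro g hg
    have h1 : TG2 S r Φ k s (n + 1) g ≤ Rec8.sw {g' | g' ∈ Sg k ∧ RT (2 ^ (k + 4)) LFold g g'}
        (fun g' => 2 ^ (hgt g' / 2 ^ (k + s)) * (rho S r g' * FG2 S r Φ k s n g')) := by
      unfold TG2
      refine (tsum_list _ ?_).trans ?_
      · rw [if_neg]
        rintro ⟨h, -⟩
        simp at h
      · rw [Rec8.sw_ind]
        refine ENNReal.tsum_le_tsum fun g' => ?_
        by_cases h2 : g' ∈ Sg k ∧ LFold g g'
        · have h3 : g' ∈ {g' | g' ∈ Sg k ∧ RT (2 ^ (k + 4)) LFold g g'} := ⟨h2.1, RT_of hg h2.2⟩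
          rw [if_pos h3]
          have h4 : wE g' * (2 ^ (hgt g' / 2 ^ (k + s)) * (rho S r g' * FG2 S r Φ k s n g')) =
              w1 k s g' * (rho S r g' * FG2 S r Φ k s n g') := by
            unfold w1
            ring
          rw [h4]
          refine le_trans ?_ (mul_le_mul_right (mul_le_mul_right (ih g' h2.1.2) _) _)
          unfold TG2
          rw [← ENNReal.tsum_mul_left, ← ENNReal.tsum_mul_left]
          refine ENNReal.tsum_le_tsum fun gs => ?_
          by_cases h5 : (g' :: gs).length = n + 1 ∧ (g :: g' :: gs).IsChain LFold ∧ ∀ u ∈ g' :: gs, u ∈ Sg k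
          · rw [if_pos h5, if_pos]
            · unfold wv
              rw [List.map_cons, List.prod_cons, List.map_cons, List.prod_cons, List.getLastD_cons]
              refine le_of_eq ?_
              ring
            · refine ⟨?_, ?_, ?_⟩
              · have := h5.1
                rw [List.length_cons] at this
                omega
              · exact (List.isChain_cons_cons.1 h5.2.1).2
              · exact fun u hu => h5.2.2 u (List.mem_cons_of_mem _ hu)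
          · rw [if_neg h5]
            exact zero_le
        · have h3 : ∀ gs : List (List Bool), (if (g' :: gs).length = n + 1 ∧ (g :: g' :: gs).IsChain LFold ∧
              (∀ u ∈ g' :: gs, u ∈ Sg k) then ((g' :: gs).map (rho S r)).prod * (wv k s (g' :: gs) *
              Φ ((g' :: gs).getLastD g)) else 0) = 0 := by
            intro gs
            rw [if_neg]
            rintro ⟨-, h4, h5⟩
            exact h2 ⟨h5 g' List.mem_cons_self, (List.isChain_cons_cons.1 h4).1⟩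
          rw [tsum_congr h3, tsum_zero]
          exact zero_le
    refine h1.trans ?_
    exact sum_leaf2 S r k s (fun g' => RT (2 ^ (k + 4)) LFold g g') (FG2 S r Φ k s n)
      (fun j => vA (2 ^ (k + 4)) (SK S k s j) (FG2 S r Φ k s n) g)
      (fun j => vA (2 ^ (k + 4)) (SK Sᶜ k s j) (FG2 S r Φ k s n) g) (fun j => le_rfl) (fun j => le_rfl)

open Classical in
/-- the runs of m leaves, at most N outside S, the sum of the heights at least V -/
def RN (S : Set (List Bool)) (k s N V m : ℕ) : Set (List (List Bool)) :=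
  {gs | gs ∈ NC.TvR k s m V ∧ (gs.filter fun g => g ∉ S).length ≤ N}

open Classical in
lemma rho_prod {S : Set (List Bool)} {r : ℝ≥0∞} (hr : r ≤ 1) {N : ℕ} (gs : List (List Bool))
    (h : (gs.filter fun g => g ∉ S).length ≤ N) : r ^ N ≤ (gs.map (rho S r)).prod := by
  have h1 : ∀ gs : List (List Bool), (gs.map (rho S r)).prod = r ^ (gs.filter fun g => g ∉ S).length := by
    intro gs
    induction gs with
    | nil => simp
    | cons g gs ih =>
      rw [List.map_cons, List.prod_cons, ih]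
      unfold rho
      by_cases hg : g ∈ S
      · rw [if_pos hg, one_mul, List.filter_cons_of_neg (by simpa using hg)]
      · rw [if_neg hg, List.filter_cons_of_pos (by simpa using hg), List.length_cons, pow_succ']
  rw [h1]
  exact pow_le_pow_right_of_le_one' hr h

open Classical in
/-- the run functional -/
lemma runF_le2 {S : Set (List Bool)} {r : ℝ≥0∞} (hr : r ≤ 1) {k s n N V : ℕ} (Φ : List Bool → ℝ≥0∞) (g : List Bool) :
    r ^ N * 2 ^ V * runF (RN S k s N V (n + 1)) Φ g ≤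
      if g ∈ Sg k then 2 ^ (hgt g / 2 ^ (k + s)) * (rho S r g * TG2 S r Φ k s n g) else 0 := by
  by_cases hg : g ∈ Sg k
  · rw [if_pos hg]
    unfold runF TG2
    rw [← ENNReal.tsum_mul_left, ← ENNReal.tsum_mul_left, ← ENNReal.tsum_mul_left]
    refine ENNReal.tsum_le_tsum fun ms => ?_
    by_cases h1 : (g :: ms) ∈ RN S k s N V (n + 1) ∧ (g :: ms).IsChain LFold
    · obtain ⟨⟨⟨a1, a2, a3⟩, a5⟩, a4⟩ := h1
      rw [if_pos ⟨⟨⟨a1, a2, a3⟩, a5⟩, a4⟩, if_pos ⟨by rw [List.length_cons] at a1; omega, a4,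
        fun u hu => a2 u (List.mem_cons_of_mem _ hu)⟩, List.getLastD_cons, NC.TvA.wv_eq]
      rw [List.map_cons, List.sum_cons] at a3
      have h2 : (2 : ℝ≥0∞) ^ V ≤ 2 ^ (hgt g / 2 ^ (k + s)) * 2 ^ (ms.map fun g => hgt g / 2 ^ (k + s)).sum := by
        rw [← pow_add]
        exact pow_le_pow_right₀ (by norm_num) a3
      have h3 := rho_prod hr (g :: ms) a5
      rw [List.map_cons, List.prod_cons] at h3
      calc r ^ N * 2 ^ V * (SDN.wl ms * Φ (ms.getLastD g))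
          ≤ (rho S r g * (ms.map (rho S r)).prod) *
            (2 ^ (hgt g / 2 ^ (k + s)) * 2 ^ (ms.map fun g => hgt g / 2 ^ (k + s)).sum) *
            (SDN.wl ms * Φ (ms.getLastD g)) := mul_le_mul_left (mul_le_mul' h3 h2) _
        _ = _ := by ring
    · rw [if_neg h1, mul_zero]
      exact zero_le
  · rw [if_neg hg]
    unfold runF
    refine le_of_eq ?_
    rw [ENNReal.tsum_eq_zero.2, mul_zero]
    intro ms
    rw [if_neg]
    rintro ⟨⟨⟨-, a2, -⟩, a5⟩, -⟩
    exact hg (a2 g List.mem_cons_self)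

/-- **the runs of m leaves, at most N of them outside S** -/
theorem smR_RN {S : Set (List Bool)} {a b : ℕ → ℝ} {θ T : ℝ} {k s : ℕ} (hθ : 0 ≤ θ) (hT : 1 ≤ T) (ha : ∀ n, 0 ≤ a n)
    (hb : ∀ n, 0 ≤ b n)
    (hs : ∑' j : ℕ, (2 : ℝ≥0∞) ^ j * (ENNReal.ofReal (a j) + ENNReal.ofReal (1 / T) * ENNReal.ofReal (b j)) ≤
      ENNReal.ofReal θ)
    (h : ∀ n : ℕ, SmD DmJ k (SK S k s n) (a n)) (h' : ∀ n : ℕ, SmD DmJ k (SK Sᶜ k s n) (b n)) (m N V : ℕ) (hm : 1 ≤ m) :
    SmR DmJ k (RN S k s N V m) (T ^ N * (θ ^ m / 2 ^ V)) := by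
  classical
  obtain ⟨n, rfl⟩ : ∃ n, m = n + 1 := ⟨m - 1, by omega⟩
  have hUk := (Ub_pos k).le
  have hT0 : 0 < T := by linarith
  obtain ⟨r, hr⟩ : ∃ r : ℝ≥0∞, r = ENNReal.ofReal (1 / T) := ⟨_, rfl⟩
  rw [← hr] at hs
  have hr1 : r ≤ 1 := by
    rw [hr, ← ENNReal.ofReal_one]
    apply ENNReal.ofReal_le_ofReal
    rw [div_le_one hT0]
    exact hT
  obtain ⟨c, hc⟩ : ∃ c : ℝ≥0∞, c = ENNReal.ofReal (T ^ N / 2 ^ V) := ⟨_, rfl⟩
  have e2 : c * (r ^ N * (2 : ℝ≥0∞) ^ V) = 1 := by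
    have : (2 : ℝ≥0∞) ^ V = ENNReal.ofReal (2 ^ V) := by
      rw [ENNReal.ofReal_pow (by norm_num)]
      congr 1
      norm_num
    rw [this, hc, hr, ← ENNReal.ofReal_pow (by positivity), ← ENNReal.ofReal_mul (by positivity),
      ← ENNReal.ofReal_mul (by positivity), show T ^ N / 2 ^ V * ((1 / T) ^ N * 2 ^ V) = 1 by
        rw [one_div, inv_pow]
        field_simp, ENNReal.ofReal_one]
  have hrun : ∀ (Φ : List Bool → ℝ≥0∞) (g : List Bool), runF (RN S k s N V (n + 1)) Φ g ≤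
      c * (if g ∈ Sg k then 2 ^ (hgt g / 2 ^ (k + s)) * (rho S r g * FG2 S r Φ k s n g) else 0) := by
    intro Φ g
    calc runF (RN S k s N V (n + 1)) Φ g = c * (r ^ N * 2 ^ V * runF (RN S k s N V (n + 1)) Φ g) := by
          rw [← mul_assoc, e2, one_mul]
      _ ≤ c * (if g ∈ Sg k then 2 ^ (hgt g / 2 ^ (k + s)) * (rho S r g * TG2 S r Φ k s n g) else 0) :=
          mul_le_mul_right (runF_le2 hr1 Φ g) _
      _ ≤ _ := by
          refine mul_le_mul_right ?_ _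
          by_cases hg : g ∈ Sg k
          · rw [if_pos hg, if_pos hg]
            exact mul_le_mul_right (mul_le_mul_right (TG2_le S r Φ k s n g hg.2) _) _
          · rw [if_neg hg, if_neg hg]
  refine ⟨fun x Φ hΦ => ?_, fun y x Ψ Φ hΨ hf hΦ => ?_⟩
  · obtain ⟨-, h1⟩ := Dm_FG2 hθ hs h h' hΦ n
    have h4 : ∀ t, vA (2 ^ (k + 4)) (HB (2 ^ (k + 4))) (runF (RN S k s N V (n + 1)) Φ) t ≤
        c * FG2 S r Φ k s (n + 1) t := by
      intro t
      have h5 : vA (2 ^ (k + 4)) (HB (2 ^ (k + 4))) (runF (RN S k s N V (n + 1)) Φ) t ≤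
          c * Rec8.sw {g | g ∈ Sg k ∧ RT (2 ^ (k + 4)) LFold t g}
            (fun g => 2 ^ (hgt g / 2 ^ (k + s)) * (rho S r g * FG2 S r Φ k s n g)) := by
        unfold vA
        rw [← Rec8.sw_mul_left, Rec8.sw_ind, Rec8.sw_ind]
        refine ENNReal.tsum_le_tsum fun g => ?_
        by_cases hg : g ∈ {g' | g' ∈ HB (2 ^ (k + 4)) ∧ RT (2 ^ (k + 4)) LFold t g'}
        · rw [if_pos hg]
          have h6 := hrun Φ g
          by_cases h0 : g ∈ Sg k
          · rw [if_pos (show g ∈ {g | g ∈ Sg k ∧ RT (2 ^ (k + 4)) LFold t g} from ⟨h0, hg.2⟩)]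
            rw [if_pos h0] at h6
            exact mul_le_mul_right h6 _
          · rw [if_neg h0, mul_zero, nonpos_iff_eq_zero] at h6
            rw [h6, mul_zero]
            exact zero_le
        · rw [if_neg hg]
          exact zero_le
      refine h5.trans (mul_le_mul_right ?_ _)
      exact sum_leaf2 S r k s (fun g => RT (2 ^ (k + 4)) LFold t g) (FG2 S r Φ k s n)
        (fun j => vA (2 ^ (k + 4)) (SK S k s j) (FG2 S r Φ k s n) t)
        (fun j => vA (2 ^ (k + 4)) (SK Sᶜ k s j) (FG2 S r Φ k s n) t) (fun j => le_rfl) (fun j => le_rfl)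
    refine (xT_mono h4).trans ((SDN.xT_smul _ _ _ _).trans ((mul_le_mul_right h1 _).trans (le_of_eq ?_)))
    rw [hc, ← mul_assoc, ← ENNReal.ofReal_mul (by positivity)]
    congr 2
    ring
  · obtain ⟨h1, -⟩ := Dm_FG2 hθ hs h h' hΦ n
    have h4 : Rec8.sw (HB (2 ^ (k + 4))) (fun g => Ψ (rev g) * runF (RN S k s N V (n + 1)) Φ g) ≤
        c * Rec8.sw {g | g ∈ Sg k ∧ True}
          (fun g => 2 ^ (hgt g / 2 ^ (k + s)) * (rho S r g * (Ψ (rev g) * FG2 S r Φ k s n g))) := by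
      rw [← Rec8.sw_mul_left, Rec8.sw_ind, Rec8.sw_ind]
      refine ENNReal.tsum_le_tsum fun g => ?_
      by_cases hg : g ∈ HB (2 ^ (k + 4))
      · rw [if_pos hg]
        have h6 := hrun Φ g
        by_cases h0 : g ∈ Sg k
        · rw [if_pos (show g ∈ {g | g ∈ Sg k ∧ True} from ⟨h0, trivial⟩)]
          rw [if_pos h0] at h6
          refine mul_le_mul_right ?_ _
          calc Ψ (rev g) * runF (RN S k s N V (n + 1)) Φ g
              ≤ Ψ (rev g) * (c * (2 ^ (hgt g / 2 ^ (k + s)) * (rho S r g * FG2 S r Φ k s n g))) := mul_le_mul_right h6 _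
            _ = _ := by ring
        · rw [if_neg h0, mul_zero, nonpos_iff_eq_zero] at h6
          rw [h6, mul_zero, mul_zero]
          exact zero_le
      · rw [if_neg hg]
        exact zero_le
    refine h4.trans ?_
    obtain ⟨W, hW⟩ : ∃ W : ℝ≥0∞, W = ENNReal.ofReal (Ub k) * (y * (ENNReal.ofReal (θ ^ n) * x)) := ⟨_, rfl⟩
    have h5 := sum_leaf2 S r k s (fun _ => True) (fun g => Ψ (rev g) * FG2 S r Φ k s n g)
      (fun j => ENNReal.ofReal (a j) * W) (fun j => ENNReal.ofReal (b j) * W) (fun j => by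
        refine (Rec8.sw_mono (fun g hg => hg.1) fun _ _ => le_rfl).trans (((h j).free y _ Ψ _ hΨ hf h1).trans
          (le_of_eq ?_))
        rw [hW, ENNReal.ofReal_mul (ha j), mul_assoc]) (fun j => by
        refine (Rec8.sw_mono (fun g hg => hg.1) fun _ _ => le_rfl).trans (((h' j).free y _ Ψ _ hΨ hf h1).trans
          (le_of_eq ?_))
        rw [hW, ENNReal.ofReal_mul (hb j), mul_assoc])
    refine (mul_le_mul_right h5 _).trans ?_
    have h6 : ∀ j : ℕ, (2 : ℝ≥0∞) ^ j * (ENNReal.ofReal (a j) * W + r * (ENNReal.ofReal (b j) * W)) =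
        (2 : ℝ≥0∞) ^ j * (ENNReal.ofReal (a j) + r * ENNReal.ofReal (b j)) * W := fun j => by ring
    rw [tsum_congr h6, ENNReal.tsum_mul_right]
    refine le_trans (mul_le_mul_right (mul_le_mul_left hs W) c) (le_of_eq ?_)
    rw [hW]
    calc c * (ENNReal.ofReal θ * (ENNReal.ofReal (Ub k) * (y * (ENNReal.ofReal (θ ^ n) * x))))
        = (c * (ENNReal.ofReal θ * ENNReal.ofReal (θ ^ n)) * ENNReal.ofReal (Ub k)) * (y * x) := by ring
      _ = _ := by
          rw [hc, ← ENNReal.ofReal_mul hθ, ← ENNReal.ofReal_mul (by positivity), ← ENNReal.ofReal_mul (by positivity)]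
          congr 2
          rw [pow_succ]
          ring

end RLA

open Classical in
/-- the number of the leaves -/
lemma runL_sub {k s N V : ℕ} {S : Set (List Bool)} : RunL k s S N V ⊆ ⋃ i, RLA.RN S k s N (V - (i + 1)) (i + 1) := by
  rintro gs ⟨h1, h2, h3, h4⟩
  have hl : gs.length ≠ 0 := fun h => h1 (List.length_eq_zero_iff.1 h)
  rw [SIM.sum_add_one] at h4
  exact Set.mem_iUnion.2 ⟨gs.length - 1, ⟨by omega, h2, by omega⟩, h3⟩

open SIM.TvSA in
/-- **R1: the norm of the runs with at most N leaves outside a small class** -/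
theorem run_few : ∃ (s J0 : ℕ) (e0 T : ℝ), 0 < e0 ∧ 1 ≤ T ∧
    ∀ (k : ℕ) (S : Set (List Bool)), SmD DmJ k {g | g ∈ BrR (2 ^ (k + 4)) (2 ^ (k + J0)) ∧ g ∈ S} e0 →
      ∀ N V : ℕ, SmR DmJ k (RunL k s S N V) (T ^ N / 2 ^ V) := by
  obtain ⟨K, s, hK, h⟩ := NC.clean_D
  have hK0 : 0 < K := by linarith
  obtain ⟨ε, hε, hsum⟩ := SIM.tilt_sum hK (show (0 : ℝ) < 1 / 16 by norm_num)
  obtain ⟨q0, hq0⟩ : ∃ q0 : ℕ, K / ε ≤ 4 ^ q0 := by
    obtain ⟨n, hn⟩ := pow_unbounded_of_one_lt (K / ε) (show (1 : ℝ) < 4 by norm_num)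
    exact ⟨n, hn.le⟩
  rw [div_le_iff₀ hε] at hq0
  obtain ⟨q1, hq1⟩ : ∃ q1 : ℕ, q0 ≤ 2 ^ q1 := ⟨q0, Nat.lt_two_pow_self.le⟩
  obtain ⟨T, hT⟩ : ∃ T : ℝ, T = 32 * K := ⟨_, rfl⟩
  have hT1 : 1 ≤ T := by rw [hT]; linarith
  have hT0 : 0 < T := by linarith
  refine ⟨s, s + q1, ε, T, hε, hT1, fun k S hS N V => ?_⟩
  -- the sum of the weights
  have hw : ∑' j : ℕ, (2 : ℝ≥0∞) ^ j * (ENNReal.ofReal (min ε (K / 4 ^ j)) +
      ENNReal.ofReal (1 / T) * ENNReal.ofReal (K / 4 ^ j)) ≤ ENNReal.ofReal (1 / 8) := by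
    have e1 : ∀ j : ℕ, (2 : ℝ≥0∞) ^ j = ENNReal.ofReal (2 ^ j) := by
      intro j
      rw [ENNReal.ofReal_pow (by norm_num)]
      congr 1
      norm_num
    have e3 : ∀ j : ℕ, (2 : ℝ≥0∞) ^ j * (ENNReal.ofReal (min ε (K / 4 ^ j)) +
        ENNReal.ofReal (1 / T) * ENNReal.ofReal (K / 4 ^ j)) =
        (2 : ℝ≥0∞) ^ j * ENNReal.ofReal (min ε (K / 4 ^ j)) + ENNReal.ofReal (1 / 32 * (1 / 2) ^ j) := by
      intro j
      rw [mul_add]
      congr 1
      rw [e1, ← ENNReal.ofReal_mul (by positivity), ← ENNReal.ofReal_mul (by positivity)]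
      congr 1
      rw [hT, show (4 : ℝ) ^ j = 2 ^ j * 2 ^ j by rw [← mul_pow]; norm_num, one_div (2 : ℝ), inv_pow]
      field_simp
    rw [tsum_congr e3, ENNReal.tsum_add]
    have hsm : Summable fun i : ℕ => (1 / 2 : ℝ) ^ i := summable_geometric_of_lt_one (by norm_num) (by norm_num)
    have e4 : ∑' j : ℕ, ENNReal.ofReal (1 / 32 * (1 / 2) ^ j) = ENNReal.ofReal (1 / 16) := by
      rw [← ENNReal.ofReal_tsum_of_nonneg (fun i => by positivity) (hsm.mul_left _), tsum_mul_left,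
        tsum_geometric_of_lt_one (by norm_num) (by norm_num)]
      congr 1
      norm_num
    rw [e4]
    refine (add_le_add hsum le_rfl).trans ?_
    rw [← ENNReal.ofReal_add (by norm_num) (by norm_num)]
    apply ENNReal.ofReal_le_ofReal
    norm_num
  have hb : ∀ n : ℕ, SmD DmJ k (SIM.TvSA.SK Sᶜ k s n) (K / 4 ^ n) := fun n => QF.SmD_mono (fun g hg => hg.1) (h k n)
  have ha : ∀ n : ℕ, SmD DmJ k (SIM.TvSA.SK S k s n) (min ε (K / 4 ^ n)) := by
    intro n
    rcases Nat.lt_or_ge n q0 with hn | hn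
    · have h2 : SmD DmJ k (SIM.TvSA.SK S k s n) ε := by
        refine QF.SmD_mono ?_ hS
        rintro g ⟨⟨⟨-, a, -, a2, a3⟩, b, b1, b2⟩, g3⟩
        have hab : a = b := (hgt_eq a3).symm.trans (hgt_eq b2)
        refine ⟨⟨a, by omega, ?_, a3⟩, g3⟩
        have h4 : (n + 1) * 2 ^ (k + s) ≤ 2 ^ q1 * 2 ^ (k + s) := Nat.mul_le_mul_right _ (by omega)
        rw [← pow_add, show q1 + (k + s) = k + (s + q1) by ring] at h4
        omega
      rcases min_cases ε (K / 4 ^ n) with h1 | h1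
      · rw [h1.1]
        exact h2
      · rw [h1.1]
        exact QF.SmD_mono (fun g hg => hg.1) (h k n)
    · have h1 : K / 4 ^ n ≤ ε := by
        rw [div_le_iff₀ (by positivity)]
        have h2 : (4 : ℝ) ^ q0 ≤ 4 ^ n := pow_le_pow_right₀ (by norm_num) hn
        nlinarith
      rw [min_eq_right h1]
      exact QF.SmD_mono (fun g hg => hg.1) (h k n)
  refine SIM.SmR_mono runL_sub (SIM.smR_iUnion (δ := fun i => T ^ N * ((1 / 8) ^ (i + 1) / 2 ^ (V - (i + 1))))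
    (fun i => by positivity) ?_ (by positivity) fun i => RLA.smR_RN (a := fun j => min ε (K / 4 ^ j))
      (b := fun j => K / 4 ^ j) (by norm_num) hT1 (fun n => by positivity) (fun n => by positivity) hw ha hb (i + 1) N _
      (by omega))
  have e5 : ∀ i : ℕ, ENNReal.ofReal (T ^ N * ((1 / 8) ^ (i + 1) / 2 ^ (V - (i + 1)))) =
      ENNReal.ofReal (T ^ N) * ENNReal.ofReal ((1 / 8) ^ (i + 1) / 2 ^ (V - (i + 1))) := fun i =>
    ENNReal.ofReal_mul (by positivity)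
  rw [tsum_congr e5, ENNReal.tsum_mul_left]
  refine (mul_le_mul_right (SIM.runB_num V) _).trans (le_of_eq ?_)
  rw [← ENNReal.ofReal_mul (by positivity)]
  congr 1
  ring

end FIS

end HexObs
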