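import Pool.Agent.EN.EspA
import Pool.Agent.NT.TallT

/-!
FIS (the tail exponent 4): the total weight of the tall bridges with few letters, blocks of the best size.
-/

set_option autoImplicit false

namespace HexObs

namespace FIS

open Finset TS SDN NTW EN

open scoped ENNReal

/-- **the bridges of at least `2 ^ (k + i - a)` rows with less than `m (k + 1)` letters** -/
theorem ts_br {m : ℕ → ℝ} (hlo : ∃ c : ℝ, 0 < c ∧ ∀ k : ℕ, c * (2 : ℝ) ^ (4 / 3 * (k : ℝ)) ≤ m k)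
    (hup : ∃ C : ℝ, ∀ k : ℕ, m k ≤ C * (2 : ℝ) ^ (4 / 3 * (k : ℝ))) (hA : ASm m) (a : ℕ) :
    ∃ c3 c2 : ℕ, a ≤ c3 ∧ ∀ (k i : ℕ) (lam : ℝ), c3 ≤ i → 3 * i + c2 ≤ k → lam ≤ m (k + 1) →
    gf {Z | ∃ T, 2 ^ (k + i - a) ≤ T ∧ Z ∈ Brd T ∧ (Z.length : ℝ) ≤ lam} ≤
      ENNReal.ofReal (Ub k / 2 ^ (2 ^ (4 * i - c3))) := by
  obtain ⟨d, b, s, k0, hd, hb, htall⟩ := NTm.tallT
  obtain ⟨c0, hc0⟩ := hA d hd
  obtain ⟨c, hc, hlo⟩ := hlo
  obtain ⟨C, hup⟩ := hup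
  have hbR : (1 : ℝ) ≤ b := by exact_mod_cast hb
  obtain ⟨e3, he3⟩ : ∃ e3 : ℕ, (b : ℝ) * C / c * 2 ^ (a + 1 + s + 2 * c0) < 2 ^ e3 := two_pow_ge _
  refine ⟨a + 1 + s + 3 * e3, c0 + k0, by omega, fun k i lam hi hk hlam => ?_⟩
  obtain ⟨kc, hkc⟩ : ∃ kc, kc = k - 3 * i + 3 * e3 := ⟨_, rfl⟩
  obtain ⟨k2, hk2⟩ : ∃ k2, k2 = kc - c0 := ⟨_, rfl⟩
  have hAS : NTm.AS (m (k2 + 1) + 1) (d * Ub kc) := by
    have := hc0 c0 le_rfl k2
    rwa [show k2 + c0 = kc by omega] at this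
  have hm0 : 0 < m (k2 + 1) := lt_of_lt_of_le (by positivity) (hlo (k2 + 1))
  obtain ⟨H, hH⟩ : ∃ H : ℕ, H = 2 ^ (4 * i - (a + 1 + s + 3 * e3)) := ⟨_, rfl⟩
  have hH1 : 1 ≤ H := by rw [hH]; exact Nat.one_le_two_pow
  have h1 := htall kc (m (k2 + 1) + 1) (by omega) (by linarith) hAS H hH1
  rw [← hH]
  refine (gf_mono ?_).trans (h1.trans (ENNReal.ofReal_le_ofReal ?_))
  · rintro Z ⟨T, hT, hZ, hl⟩
    refine ⟨T, le_trans (le_of_eq ?_) hT, hZ, ?_⟩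
    · rw [hH, mul_assoc, ← pow_add, ← pow_succ']
      congr 1
      omega
    · have e1 : (Z.length : ℝ) ≤ C * (2 : ℝ) ^ (4 / 3 * ((k + 1 : ℕ) : ℝ)) := hl.trans (hlam.trans (hup (k + 1)))
      have e2 : c * (2 : ℝ) ^ (4 / 3 * ((k2 + 1 : ℕ) : ℝ)) ≤ m (k2 + 1) + 1 := (hlo (k2 + 1)).trans (by linarith)
      have e3 : (b : ℝ) * C * (2 : ℝ) ^ (4 / 3 * ((k + 1 : ℕ) : ℝ)) ≤
          H * (c * (2 : ℝ) ^ (4 / 3 * ((k2 + 1 : ℕ) : ℝ))) := by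
        have f1 : (H : ℝ) * (2 : ℝ) ^ (4 / 3 * ((k2 + 1 : ℕ) : ℝ)) * 2 ^ (a + 1 + s + 2 * c0) ≥
            2 ^ e3 * (2 : ℝ) ^ (4 / 3 * ((k + 1 : ℕ) : ℝ)) := by
          rw [hH]
          push_cast
          rw [← Real.rpow_natCast, ← Real.rpow_natCast, ← Real.rpow_natCast, ← Real.rpow_add (by norm_num),
            ← Real.rpow_add (by norm_num), ← Real.rpow_add (by norm_num)]
          apply Real.rpow_le_rpow_of_exponent_le (by norm_num)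
          have g1 : ((4 * i - (a + 1 + s + 3 * e3) : ℕ) : ℝ) = 4 * i - (a + 1 + s + 3 * e3) := by
            rw [Nat.cast_sub (by omega)]
            push_cast
            ring
          have g2 : (k2 : ℝ) = k - 3 * i + 3 * e3 - c0 := by
            rw [hk2, hkc, Nat.cast_sub (by omega), Nat.cast_add, Nat.cast_sub (by omega)]
            push_cast
            ring
          rw [g1, g2]
          push_cast
          have g3 : (0 : ℝ) ≤ c0 := Nat.cast_nonneg _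
          linarith
        have f2 : (b : ℝ) * C / c * 2 ^ (a + 1 + s + 2 * c0) ≤ 2 ^ e3 := he3.le
        have f3 : (0 : ℝ) < 2 ^ (a + 1 + s + 2 * c0) := by positivity
        have f4 : (0 : ℝ) < (2 : ℝ) ^ (4 / 3 * ((k + 1 : ℕ) : ℝ)) := by positivity
        have f5 : (b : ℝ) * C / c * 2 ^ (a + 1 + s + 2 * c0) * (2 : ℝ) ^ (4 / 3 * ((k + 1 : ℕ) : ℝ)) ≤
            (H : ℝ) * (2 : ℝ) ^ (4 / 3 * ((k2 + 1 : ℕ) : ℝ)) * 2 ^ (a + 1 + s + 2 * c0) :=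
          (mul_le_mul_of_nonneg_right f2 f4.le).trans f1
        have f6 : (b : ℝ) * C / c * (2 : ℝ) ^ (4 / 3 * ((k + 1 : ℕ) : ℝ)) ≤
            (H : ℝ) * (2 : ℝ) ^ (4 / 3 * ((k2 + 1 : ℕ) : ℝ)) := by
          refine le_of_mul_le_mul_right ?_ f3
          linarith
        calc (b : ℝ) * C * (2 : ℝ) ^ (4 / 3 * ((k + 1 : ℕ) : ℝ)) =
              c * ((b : ℝ) * C / c * (2 : ℝ) ^ (4 / 3 * ((k + 1 : ℕ) : ℝ))) := by
                field_simp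
          _ ≤ c * ((H : ℝ) * (2 : ℝ) ^ (4 / 3 * ((k2 + 1 : ℕ) : ℝ))) := mul_le_mul_of_nonneg_left f6 hc.le
          _ = _ := by ring
      calc (b : ℝ) * (Z.length : ℝ) ≤ b * (C * (2 : ℝ) ^ (4 / 3 * ((k + 1 : ℕ) : ℝ))) :=
            mul_le_mul_of_nonneg_left e1 (by linarith)
        _ = b * C * (2 : ℝ) ^ (4 / 3 * ((k + 1 : ℕ) : ℝ)) := by ring
        _ ≤ H * (c * (2 : ℝ) ^ (4 / 3 * ((k2 + 1 : ℕ) : ℝ))) := e3
        _ ≤ H * (m (k2 + 1) + 1) := mul_le_mul_of_nonneg_left e2 (Nat.cast_nonneg _)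
  · exact div_le_div_of_nonneg_right (Ub_mono (by omega)) (by positivity)

end FIS

end HexObs
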